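import Pool.Agent.U575.MU.Mom

/-!
# Criteria by mollified moments
-/

set_option autoImplicit false

open Complex Set Filter Topology Metric MeasureTheory
open scoped ENNReal

namespace Pool.Agent.U575.MU

open H370 H370.Loc DH31

/-- `G` is analytic with `|G| ≤ T^B` in `1/4 ≤ Re s ≤ 6`, `T ≤ Im s ≤ 2T`, and `1/K ≤ |G| ≤ K` in its part
`Re s ≥ 3`. -/
def Adm (B K T : ℝ) (G : ℂ → ℂ) : Prop :=
  (∀ s : ℂ, 1 / 4 ≤ s.re → s.re ≤ 6 → T ≤ s.im → s.im ≤ 2 * T → AnalyticAt ℂ G s ∧ ‖G s‖ ≤ T ^ B) ∧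
  (∀ s : ℂ, 3 ≤ s.re → s.re ≤ 6 → T ≤ s.im → s.im ≤ 2 * T → 1 / K ≤ ‖G s‖ ∧ ‖G s‖ ≤ K)

theorem LH_of_moments (B K : ℝ) (hK : 0 < K) (h : ∀ η : ℝ, 0 < η → ∃ k : ℕ, 1 / η ≤ k ∧ ∃ T₀ : ℝ, ∀ T : ℝ, T₀ ≤ T →
    ∃ G : ℂ → ℂ, Adm B K T G ∧
      ∫ t in T..(2 * T), ‖riemannZeta (1 / 2 + t * I) * G (1 / 2 + t * I)‖ ^ (2 * k) ≤ T ^ (η * k)) : LH := by
  refine LH_of_large fun ε hε => ?_
  obtain ⟨δ, A, C, T₀, hδ, hA, hC, hT₀, hlaw⟩ := zeta_moment ε (max B 0) hε
  set η : ℝ := δ / (C + 1) with hη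
  have hη0 : 0 < η := by positivity
  have hηδ : η ≤ δ := by
    rw [hη, div_le_iff₀ (by positivity)]; nlinarith
  obtain ⟨k, hk, T₁, hT₁⟩ := h η hη0
  have hk0 : (0 : ℝ) < k := lt_of_lt_of_le (by positivity) hk
  have hkC : C + 1 ≤ k * δ := by
    rw [hη, one_div_div, div_le_iff₀ hδ] at hk
    exact hk
  refine ⟨max (max T₀ (3 * A + 20)) (max (2 * T₁) (Real.exp (Real.log K / δ))), fun T' hT => ?_⟩
  have hTT : T₀ ≤ T' := ((le_max_left _ _).trans (le_max_left _ _)).trans hT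
  have hTA : 3 * A + 20 ≤ T' := ((le_max_right _ _).trans (le_max_left _ _)).trans hT
  have hTT1 : 2 * T₁ ≤ T' := ((le_max_left _ _).trans (le_max_right _ _)).trans hT
  have hT0' : 0 < T' := by linarith
  have hKT : K ≤ T' ^ δ := by
    have := const_le hδ hK (((le_max_right _ _).trans (le_max_right _ _)).trans hT)
    rwa [Real.rpow_def_of_pos hT0', mul_comm]
  by_contra hcon
  push Not at hcon
  set T : ℝ := 2 / 3 * T' with hTdef
  have hT0 : 0 < T := by positivity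
  have hT1 : 1 ≤ T := by linarith
  have hTle : T ≤ T' := by linarith
  obtain ⟨G, ⟨hG1, hG2⟩, hG3⟩ := hT₁ T (by
    rcases le_total 0 T₁ with h1 | h1 <;> linarith)
  have h1 := hlaw T' hTT hcon.le G
    (fun s h1 h2 h3 => by
      have h4 := abs_le.1 h3
      have h5 := hG1 s h1 h2 (by linarith [h4.1]) (by linarith [h4.2])
      refine ⟨h5.1, h5.2.trans ?_⟩
      exact (Real.rpow_le_rpow_of_exponent_le hT1 (le_max_left _ _)).trans
        (Real.rpow_le_rpow hT0.le hTle (le_max_right _ _)))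
    (fun s h1 h2 h3 => by
      have h4 := abs_le.1 h3
      have h5 := hG2 s h1 h2 (by linarith [h4.1]) (by linarith [h4.2])
      refine ⟨le_trans ?_ h5.1, h5.2.trans hKT⟩
      rw [Real.rpow_neg hT0'.le, one_div]
      exact inv_anti₀ hK hKT) ((2 * k : ℕ) : ℝ) (by push_cast; positivity)
  simp only [Real.rpow_natCast] at h1
  have hcont : ContinuousOn (fun t : ℝ => ‖riemannZeta (1 / 2 + t * I) * G (1 / 2 + t * I)‖ ^ (2 * k))
      (Icc T (2 * T)) := by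
    intro t ht
    have h1 : ContinuousAt (fun s => riemannZeta s * G s) (1 / 2 + t * I) := by
      have h2 : (1 / 2 + (t : ℂ) * I).re = 1 / 2 := by simp
      have h3 : (1 / 2 + (t : ℂ) * I).im = t := by simp
      refine ((zeta_analyticAt ?_).mul (hG1 _ ?_ ?_ ?_ ?_).1).continuousAt
      · rw [h3]; linarith [ht.1]
      · rw [h2]; norm_num
      · rw [h2]; norm_num
      · rw [h3]; exact ht.1
      · rw [h3]; exact ht.2
    have h2 : ContinuousAt (fun t : ℝ => (1 / 2 + (t : ℂ) * I)) t := by fun_prop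
    have h3 : ContinuousAt (fun t : ℝ => riemannZeta (1 / 2 + (t : ℂ) * I) * G (1 / 2 + (t : ℂ) * I)) t :=
      ContinuousAt.comp (f := fun t : ℝ => (1 / 2 + (t : ℂ) * I)) (g := fun s => riemannZeta s * G s) h1 h2
    exact (h3.norm.pow _).continuousWithinAt
  have h2 : ∫ t in (T' - A)..(T' + A), ‖riemannZeta (1 / 2 + t * I) * G (1 / 2 + t * I)‖ ^ (2 * k) ≤
      ∫ t in T..(2 * T), ‖riemannZeta (1 / 2 + t * I) * G (1 / 2 + t * I)‖ ^ (2 * k) := by
    refine intervalIntegral.integral_mono_interval (by linarith) (by linarith) (by linarith)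
      (Eventually.of_forall fun t => by positivity) ?_
    refine ContinuousOn.intervalIntegrable ?_
    rwa [uIcc_of_le (by linarith)]
  have h3 : T' ^ (((2 * k : ℕ) : ℝ) * δ - C) ≤ T' ^ (η * k) :=
    (h1.trans (h2.trans hG3)).trans (Real.rpow_le_rpow hT0.le hTle (by positivity))
  have h4 := (Real.rpow_le_rpow_left_iff (by linarith : (1 : ℝ) < T')).1 h3
  push_cast at h4
  have h5 : η * k ≤ δ * k := by gcongr
  nlinarith

/-- the moments under the Lindelöf hypothesis -/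
lemma LH_moment (h : LH) (k : ℕ) (ε : ℝ) (hε : 0 < ε) :
    ∃ C : ℝ, 0 < C ∧ ∀ T : ℝ, 1 ≤ T → ∫ t in (0 : ℝ)..T, ‖riemannZeta (1 / 2 + t * I)‖ ^ (2 * k) ≤ C * T ^ (1 + ε) := by
  obtain ⟨C, hC⟩ := h (ε / (2 * k + 1)) (by positivity)
  refine ⟨(|C| + 1) ^ (2 * k) * 2 ^ ε, by positivity, fun T hT => ?_⟩
  have hT0 : 0 < T := by linarith
  have hpt : ∀ t ∈ Icc (0 : ℝ) T, ‖riemannZeta (1 / 2 + t * I)‖ ^ (2 * k) ≤ (|C| + 1) ^ (2 * k) * 2 ^ ε * T ^ ε := by
    intro t ht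
    have h1 := hC t
    rw [abs_of_nonneg ht.1] at h1
    have h1b : 0 < 1 + t := by linarith [ht.1]
    have h2 : ‖riemannZeta (1 / 2 + t * I)‖ ≤ (|C| + 1) * (2 * T) ^ (ε / (2 * k + 1)) := by
      refine h1.trans ?_
      have : C ≤ |C| + 1 := by linarith [le_abs_self C]
      calc C * (1 + t) ^ (ε / (2 * k + 1)) ≤ (|C| + 1) * (1 + t) ^ (ε / (2 * k + 1)) := by gcongr
        _ ≤ _ := by
          gcongr
          linarith [ht.2]
    calc ‖riemannZeta (1 / 2 + t * I)‖ ^ (2 * k) ≤ ((|C| + 1) * (2 * T) ^ (ε / (2 * k + 1))) ^ (2 * k) := by gcongr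
      _ = (|C| + 1) ^ (2 * k) * (2 * T) ^ (ε / (2 * k + 1) * ((2 * k : ℕ) : ℝ)) := by
        rw [mul_pow, ← Real.rpow_natCast ((2 * T) ^ (ε / (2 * k + 1))), ← Real.rpow_mul (by positivity)]
      _ ≤ (|C| + 1) ^ (2 * k) * (2 * T) ^ ε := by
        gcongr
        · linarith
        · push_cast
          rw [div_mul_eq_mul_div, div_le_iff₀ (by positivity)]
          nlinarith
      _ = _ := by rw [Real.mul_rpow (by norm_num) hT0.le]; ring
  have hc : Continuous fun t : ℝ => ‖riemannZeta (1 / 2 + t * I)‖ ^ (2 * k) := zeta_half_cont.norm.pow _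
  calc ∫ t in (0 : ℝ)..T, ‖riemannZeta (1 / 2 + t * I)‖ ^ (2 * k)
      ≤ ∫ _t in (0 : ℝ)..T, (|C| + 1) ^ (2 * k) * 2 ^ ε * T ^ ε :=
        intervalIntegral.integral_mono_on hT0.le (hc.intervalIntegrable _ _) intervalIntegrable_const hpt
    _ = (|C| + 1) ^ (2 * k) * 2 ^ ε * T ^ (1 + ε) := by
        rw [intervalIntegral.integral_const, smul_eq_mul, Real.rpow_add hT0, Real.rpow_one, sub_zero]
        ring

lemma dpol_growth0 (N : ℕ) (b : ℕ → ℂ) (hb : ∀ n, ‖b n‖ ≤ n) {s : ℂ} (hs : 0 ≤ s.re) :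
    ‖dpol N b s‖ ≤ (N : ℝ) ^ 2 := by
  unfold dpol
  refine (norm_sum_le _ _).trans ?_
  have h1 : ∀ n ∈ Finset.Icc 1 N, ‖b n * (n : ℂ) ^ (-s)‖ ≤ N := by
    intro n hn
    obtain ⟨h2, h3⟩ := Finset.mem_Icc.1 hn
    have hn0 : (1 : ℝ) ≤ n := by exact_mod_cast h2
    rw [norm_mul, norm_term n h2]
    have h4 : (n : ℝ) ^ (-s.re) ≤ 1 := by
      rw [← Real.rpow_zero (n : ℝ)]
      exact Real.rpow_le_rpow_of_exponent_le hn0 (by linarith)
    calc ‖b n‖ * (n : ℝ) ^ (-s.re) ≤ (n : ℝ) * 1 := by gcongr; exact hb n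
      _ ≤ N := by rw [mul_one]; exact_mod_cast h3
  refine (Finset.sum_le_sum h1).trans ?_
  rw [Finset.sum_const, Nat.card_Icc, nsmul_eq_mul, Nat.add_sub_cancel]
  exact le_of_eq (by ring)

lemma dpol_adm {B T : ℝ} (hT : 0 < T) {N : ℕ} {b : ℕ → ℂ} (hN1 : 1 ≤ N) (hN : (N : ℝ) ≤ T ^ B) (hb1 : b 1 = 1)
    (hb : ∀ n, ‖b n‖ ≤ n) : Adm (2 * B) 4 T (dpol N b) := by
  refine ⟨fun s h1 _ _ _ => ⟨(dpol_diff N b).analyticAt s, ?_⟩, fun s h1 _ _ _ => ?_⟩
  · refine (dpol_growth0 N b hb (by linarith)).trans ?_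
    calc (N : ℝ) ^ 2 ≤ (T ^ B) ^ 2 := by gcongr
      _ = T ^ (2 * B) := by
        rw [← Real.rpow_natCast (T ^ B) 2, ← Real.rpow_mul hT.le]
        congr 1
        push_cast
        ring
  · obtain ⟨h2, h3⟩ := dpol_right N hN1 b hb1 hb h1
    exact ⟨h2, by linarith⟩

/-- mollified moments of `o(k)` growth are equivalent to the Lindelöf hypothesis -/
theorem LH_iff_moments : LH ↔ ∃ B : ℝ, ∀ η : ℝ, 0 < η → ∃ k : ℕ, 1 / η ≤ k ∧ ∃ T₀ : ℝ, ∀ T : ℝ, T₀ ≤ T →
    ∃ (N : ℕ) (b : ℕ → ℂ), 1 ≤ N ∧ (N : ℝ) ≤ T ^ B ∧ b 1 = 1 ∧ (∀ n, ‖b n‖ ≤ n) ∧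
      ∫ t in T..(2 * T), ‖riemannZeta (1 / 2 + t * I) * dpol N b (1 / 2 + t * I)‖ ^ (2 * k) ≤ T ^ (η * k) := by
  constructor
  · intro h
    refine ⟨0, fun η hη => ?_⟩
    obtain ⟨k, hk⟩ := exists_nat_ge (4 / η)
    have hk1 : 4 ≤ k * η := by rwa [div_le_iff₀ hη] at hk
    refine ⟨k, (by gcongr; norm_num : 1 / η ≤ 4 / η).trans hk, ?_⟩
    obtain ⟨C, hC0, hC⟩ := LH_moment h k 1 one_pos
    refine ⟨max 2 (C * 4), fun T hT => ?_⟩
    have hT2 : 2 ≤ T := (le_max_left _ _).trans hT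
    have hTC : C * 4 ≤ T := (le_max_right _ _).trans hT
    have hT0 : 0 < T := by linarith
    refine ⟨1, fun n => if n = 1 then 1 else 0, le_rfl, by simp, by simp, fun n => ?_, ?_⟩
    · by_cases hn : n = 1
      · simp [hn]
      · simp [hn]
    · have e : ∀ t : ℝ, dpol 1 (fun n => if n = 1 then (1 : ℂ) else 0) (1 / 2 + t * I) = 1 := by
        intro t; unfold dpol; simp
      simp only [e, mul_one]
      have hc : Continuous fun t : ℝ => ‖riemannZeta (1 / 2 + t * I)‖ ^ (2 * k) := zeta_half_cont.norm.pow _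
      have h1 : ∫ t in T..(2 * T), ‖riemannZeta (1 / 2 + t * I)‖ ^ (2 * k) ≤
          ∫ t in (0 : ℝ)..(2 * T), ‖riemannZeta (1 / 2 + t * I)‖ ^ (2 * k) :=
        intervalIntegral.integral_mono_interval hT0.le (by linarith) le_rfl
          (Eventually.of_forall fun t => by positivity) (hc.intervalIntegrable _ _)
      refine h1.trans ((hC (2 * T) (by linarith)).trans ?_)
      have h2 : (2 * T) ^ (1 + 1 : ℝ) = 4 * T ^ 2 := by
        norm_num
        ring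
      rw [h2]
      calc C * (4 * T ^ 2) = (C * 4) * T ^ 2 := by ring
        _ ≤ T * T ^ 2 := by gcongr
        _ ≤ T ^ 4 := by nlinarith [pow_pos hT0 3]
        _ = T ^ (4 : ℝ) := by norm_cast
        _ ≤ T ^ (η * k) := Real.rpow_le_rpow_of_exponent_le (by linarith) (by linarith)
  · rintro ⟨B, hB⟩
    refine LH_of_moments (2 * B) 4 (by norm_num) fun η hη => ?_
    obtain ⟨k, hk, T₀, h⟩ := hB η hη
    refine ⟨k, hk, max T₀ 1, fun T hT => ?_⟩
    obtain ⟨N, b, h1, h2, h3, h4, h5⟩ := h T ((le_max_left _ _).trans hT)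
    exact ⟨dpol N b, dpol_adm (by linarith [(le_max_right _ _).trans hT]) h1 h2 h3 h4, h5⟩

/-- the moments of zeta are `O(T^ε)` -/
def MomSmall : Prop := ∀ (k : ℕ) (ε : ℝ), 0 < ε → ∃ C : ℝ, ∀ T : ℝ, 1 ≤ T →
  1 / T * ∫ t in (0 : ℝ)..T, ‖riemannZeta (1 / 2 + t * I)‖ ^ (2 * k) ≤ C * T ^ ε

lemma LH.momSmall (h : LH) : MomSmall := by
  intro k ε hε
  obtain ⟨C, _, hC⟩ := LH_moment h k ε hε
  refine ⟨C, fun T hT => ?_⟩
  have hT0 : 0 < T := by linarith
  rw [one_div, inv_mul_le_iff₀ hT0]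
  refine (hC T hT).trans (le_of_eq ?_)
  rw [Real.rpow_add hT0, Real.rpow_one]
  ring

/-- from `T^{1+ε}` for all `k` to the `o(k)` form -/
lemma exponent_aux {J : ℕ → ℝ → ℝ} (h : ∀ (k : ℕ) (ε : ℝ), 0 < ε → ∃ T₀ : ℝ, ∀ T : ℝ, T₀ ≤ T →
    1 / T * J k T ≤ T ^ ε) : ∀ η : ℝ, 0 < η → ∃ k : ℕ, 1 / η ≤ k ∧ ∃ T₀ : ℝ, ∀ T : ℝ, T₀ ≤ T → J k T ≤ T ^ (η * k) := by
  intro η hη
  obtain ⟨k, hk⟩ := exists_nat_ge (2 / η)
  have hk1 : 2 ≤ k * η := by rwa [div_le_iff₀ hη] at hk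
  obtain ⟨T₀, hT₀⟩ := h k 1 one_pos
  refine ⟨k, (by gcongr; norm_num : 1 / η ≤ 2 / η).trans hk, max T₀ 1, fun T hT => ?_⟩
  have hT1 : 1 ≤ T := (le_max_right _ _).trans hT
  have hT0 : 0 < T := by linarith
  have h1 := hT₀ T ((le_max_left _ _).trans hT)
  rw [one_div, inv_mul_le_iff₀ hT0] at h1
  refine h1.trans ?_
  calc T * T ^ (1 : ℝ) = T ^ (2 : ℝ) := by norm_num; ring
    _ ≤ T ^ (η * k) := Real.rpow_le_rpow_of_exponent_le hT1 (by linarith)

/-- **mollification does not make the problem of the high moments easier** -/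
theorem momSmall_iff : MomSmall ↔ ∃ B : ℝ, ∀ (k : ℕ) (ε : ℝ), 0 < ε → ∃ T₀ : ℝ, ∀ T : ℝ, T₀ ≤ T →
    ∃ (N : ℕ) (b : ℕ → ℂ), 1 ≤ N ∧ (N : ℝ) ≤ T ^ B ∧ b 1 = 1 ∧ (∀ n, ‖b n‖ ≤ n) ∧
      1 / T * ∫ t in T..(2 * T), ‖riemannZeta (1 / 2 + t * I) * dpol N b (1 / 2 + t * I)‖ ^ (2 * k) ≤ T ^ ε := by
  constructor
  · intro h
    refine ⟨0, fun k ε hε => ?_⟩
    obtain ⟨C, hC⟩ := h k (ε / 2) (by positivity)
    refine ⟨max 2 (Real.exp (Real.log (2 * (|C| + 1) * 2 ^ (ε / 2)) / (ε / 2))), fun T hT => ?_⟩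
    have hT2 : 2 ≤ T := (le_max_left _ _).trans hT
    have hT0 : 0 < T := by linarith
    have hTC : 2 * (|C| + 1) * 2 ^ (ε / 2) ≤ T ^ (ε / 2) := by
      have := const_le (show 0 < ε / 2 by positivity) (show 0 < 2 * (|C| + 1) * 2 ^ (ε / 2) by positivity)
        ((le_max_right _ _).trans hT)
      rwa [Real.rpow_def_of_pos hT0, mul_comm (Real.log T)]
    refine ⟨1, fun n => if n = 1 then 1 else 0, le_rfl, by simp, by simp, fun n => ?_, ?_⟩
    · by_cases hn : n = 1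
      · simp [hn]
      · simp [hn]
    · have e : ∀ t : ℝ, dpol 1 (fun n => if n = 1 then (1 : ℂ) else 0) (1 / 2 + t * I) = 1 := by
        intro t; unfold dpol; simp
      simp only [e, mul_one]
      have hc : Continuous fun t : ℝ => ‖riemannZeta (1 / 2 + t * I)‖ ^ (2 * k) := zeta_half_cont.norm.pow _
      have h1 : ∫ t in T..(2 * T), ‖riemannZeta (1 / 2 + t * I)‖ ^ (2 * k) ≤
          ∫ t in (0 : ℝ)..(2 * T), ‖riemannZeta (1 / 2 + t * I)‖ ^ (2 * k) :=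
        intervalIntegral.integral_mono_interval hT0.le (by linarith) le_rfl
          (Eventually.of_forall fun t => by positivity) (hc.intervalIntegrable _ _)
      have h2 := hC (2 * T) (by linarith)
      rw [one_div, inv_mul_le_iff₀ (by positivity)] at h2
      rw [one_div, inv_mul_le_iff₀ hT0]
      refine h1.trans (h2.trans ?_)
      rw [Real.mul_rpow (by norm_num) hT0.le]
      have h3 : T ^ ε = T ^ (ε / 2) * T ^ (ε / 2) := by rw [← Real.rpow_add hT0]; congr 1; ring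
      have h4 : C ≤ |C| + 1 := by linarith [le_abs_self C]
      calc 2 * T * (C * (2 ^ (ε / 2) * T ^ (ε / 2))) ≤ 2 * T * ((|C| + 1) * (2 ^ (ε / 2) * T ^ (ε / 2))) := by gcongr
        _ = T * ((2 * (|C| + 1) * 2 ^ (ε / 2)) * T ^ (ε / 2)) := by ring
        _ ≤ T * (T ^ (ε / 2) * T ^ (ε / 2)) := by gcongr
        _ = _ := by rw [h3]
  · rintro ⟨B, hB⟩
    refine LH.momSmall (LH_iff_moments.2 ⟨B, fun η hη => ?_⟩)
    obtain ⟨k, hk⟩ := exists_nat_ge (2 / η)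
    have hk1 : 2 ≤ k * η := by rwa [div_le_iff₀ hη] at hk
    obtain ⟨T₀, hT₀⟩ := hB k 1 one_pos
    refine ⟨k, (by gcongr; norm_num : 1 / η ≤ 2 / η).trans hk, max T₀ 1, fun T hT => ?_⟩
    have hT1 : 1 ≤ T := (le_max_right _ _).trans hT
    have hT0 : 0 < T := by linarith
    obtain ⟨N, b, h1, h2, h3, h4, h5⟩ := hT₀ T ((le_max_left _ _).trans hT)
    refine ⟨N, b, h1, h2, h3, h4, ?_⟩
    rw [one_div, inv_mul_le_iff₀ hT0] at h5
    refine h5.trans ?_
    calc T * T ^ (1 : ℝ) = T ^ (2 : ℝ) := by norm_num; ring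
      _ ≤ T ^ (η * k) := Real.rpow_le_rpow_of_exponent_le hT1 (by linarith)

/-- growth of Dirichlet L-functions in `Re s ≥ 1/4` -/
theorem dir_growth4 {q : ℕ} [NeZero q] (χ : DirichletCharacter ℂ q) {s : ℂ} (hs : 1 / 4 ≤ s.re) (hi : 1 ≤ s.im) :
    ‖DirichletCharacter.LFunction χ s‖ ≤ 6 * (q + 1) * ‖s‖ := by
  by_cases h1 : χ = 1
  · subst h1
    have hs1 : s ≠ 1 := by intro h; rw [h] at hi; norm_num at hi
    have h2 := DirichletCharacter.LFunctionTrivChar_eq_mul_riemannZeta (N := q) hs1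
    have h3 : ‖DirichletCharacter.LFunction (1 : DirichletCharacter ℂ q) s‖ =
        (∏ p ∈ q.primeFactors, ‖1 - (p : ℂ) ^ (-s)‖) * ‖riemannZeta s‖ := by
      have : DirichletCharacter.LFunction (1 : DirichletCharacter ℂ q) s =
        DirichletCharacter.LFunctionTrivChar q s := rfl
      rw [this, h2, norm_mul, norm_prod]
    rw [h3]
    have h4 : (∏ p ∈ q.primeFactors, ‖1 - (p : ℂ) ^ (-s)‖) ≤ (q : ℝ) := by
      calc (∏ p ∈ q.primeFactors, ‖1 - (p : ℂ) ^ (-s)‖) ≤ ∏ p ∈ q.primeFactors, (p : ℝ) := by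
            refine Finset.prod_le_prod (fun _ _ => norm_nonneg _) fun p hp => ?_
            have hp2 := (Nat.prime_of_mem_primeFactors hp).two_le
            have hp0 : (2 : ℝ) ≤ p := by exact_mod_cast hp2
            refine (norm_sub_le _ _).trans ?_
            rw [norm_one, norm_term p (by omega)]
            have h5 : (p : ℝ) ^ (-s.re) ≤ 1 := by
              rw [← Real.rpow_zero (p : ℝ)]
              exact Real.rpow_le_rpow_of_exponent_le (by linarith) (by linarith)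
            linarith
        _ ≤ (q : ℝ) := by
            have := Nat.le_of_dvd (Nat.pos_of_ne_zero (NeZero.ne q)) (Nat.prod_primeFactors_dvd q)
            rw [← Nat.cast_prod]
            exact_mod_cast this
    have h5 := Pool.Agent.H388LH.zeta_growth (s := s) hs hi
    calc _ ≤ (q : ℝ) * (6 * ‖s‖) := by gcongr
      _ ≤ _ := by nlinarith [norm_nonneg s]
  · have h2 := H855R2.SF.growth_right h1 (s := s) (by linarith)
    refine h2.trans ?_
    have h3 : ((q : ℝ) + 1) / s.re ≤ 4 * (q + 1) := by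
      rw [div_le_iff₀ (by linarith)]
      have : (0 : ℝ) ≤ q + 1 := by positivity
      nlinarith
    calc ‖s‖ * (((q : ℝ) + 1) / s.re) ≤ ‖s‖ * (4 * (q + 1)) := by gcongr
      _ ≤ _ := by
        have : 0 ≤ ‖s‖ * ((q : ℝ) + 1) := by positivity
        linarith

lemma dir_adm (k : ℕ) (q : Fin k → ℕ) [∀ j, NeZero (q j)]
    (χ : (j : Fin k) → DirichletCharacter ℂ (q j)) (a : Fin k → ℂ) (ha : ∀ j, 0 ≤ (a j).re) :
    ∃ T₀ : ℝ, ∀ T : ℝ, T₀ ≤ T →
      Adm (3 * k) (4 ^ k) T (fun s => ∏ j, DirichletCharacter.LFunction (χ j) (s + a j)) := by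
  set H : ℝ := ∑ j, ((q j : ℝ) + ‖a j‖) with hHdef
  have hj : ∀ j, (q j : ℝ) + ‖a j‖ ≤ H := fun j =>
    Finset.single_le_sum (f := fun j => (q j : ℝ) + ‖a j‖) (fun _ _ => by positivity) (Finset.mem_univ j)
  have hH : 0 ≤ H := Finset.sum_nonneg fun _ _ => by positivity
  refine ⟨max (20 + H) (54 * (H + 1)), fun T hT => ?_⟩
  have hT1 : 20 + H ≤ T := (le_max_left _ _).trans hT
  have hT2 : 54 * (H + 1) ≤ T := (le_max_right _ _).trans hT
  have hT0 : 0 < T := by linarith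
  have him : ∀ (s : ℂ) (j : Fin k), T ≤ s.im → 1 ≤ (s + a j).im := by
    intro s j hs
    have h1 := abs_le.1 (Complex.abs_im_le_norm (a j))
    have h2 := hj j
    have h3 : (0 : ℝ) ≤ q j := by positivity
    rw [Complex.add_im]
    linarith [h1.1]
  refine ⟨fun s h1 h2 h3 h4 => ⟨?_, ?_⟩, fun s h1 h2 h3 h4 => ?_⟩
  · have : AnalyticAt ℂ (∏ j, fun s => DirichletCharacter.LFunction (χ j) (s + a j)) s := by
      refine Finset.analyticAt_prod _ fun j _ => ?_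
      have h1 := dir_an (χ j) (s := s + a j) (him s j h3)
      exact AnalyticAt.fun_comp (f := fun s => s + a j) h1 (by fun_prop)
    convert this using 1
    ext z
    simp
  · rw [norm_prod]
    calc ∏ j, ‖DirichletCharacter.LFunction (χ j) (s + a j)‖ ≤ ∏ _j : Fin k, T ^ (3 : ℝ) := by
          refine Finset.prod_le_prod (fun _ _ => norm_nonneg _) fun j _ => ?_
          have h5 := dir_growth4 (χ j) (s := s + a j) (by rw [Complex.add_re]; linarith [ha j]) (him s j h3)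
          refine h5.trans ?_
          have h6 : ‖s + a j‖ ≤ 9 * T := by
            refine (norm_add_le _ _).trans ?_
            have e1 : ‖s‖ ≤ 6 + 2 * T := by
              refine (Complex.norm_le_abs_re_add_abs_im _).trans ?_
              rw [abs_of_nonneg (by linarith : 0 ≤ s.re), abs_of_nonneg (by linarith : 0 ≤ s.im)]
              linarith
            have e2 : ‖a j‖ ≤ H := by
              have := hj j
              have h3 : (0 : ℝ) ≤ q j := by positivity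
              linarith
            linarith
          have h7 : (q j : ℝ) + 1 ≤ H + 1 := by linarith [hj j, norm_nonneg (a j)]
          have h8 : T ^ (3 : ℝ) = T * T ^ 2 := by
            norm_cast
            ring
          rw [h8]
          calc 6 * ((q j : ℝ) + 1) * ‖s + a j‖ ≤ 6 * (H + 1) * (9 * T) := by gcongr
            _ = (54 * (H + 1)) * T := by ring
            _ ≤ T * T := by gcongr
            _ ≤ T * T ^ 2 := by gcongr; nlinarith
      _ = T ^ (3 * (k : ℝ)) := by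
          rw [Finset.prod_const, Finset.card_univ, Fintype.card_fin, ← Real.rpow_natCast, ← Real.rpow_mul hT0.le]
  · rw [norm_prod]
    have hre : ∀ j, 3 ≤ (s + a j).re := fun j => by rw [Complex.add_re]; linarith [ha j]
    constructor
    · calc 1 / (4 : ℝ) ^ k = ∏ _j : Fin k, (1 / 4 : ℝ) := by
            rw [Finset.prod_const, Finset.card_univ, Fintype.card_fin, one_div, one_div, inv_pow]
        _ ≤ _ := Finset.prod_le_prod (fun _ _ => by norm_num) fun j _ => (dir_right (χ j) (hre j)).1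
    · calc ∏ j, ‖DirichletCharacter.LFunction (χ j) (s + a j)‖ ≤ ∏ _j : Fin k, (4 : ℝ) :=
            Finset.prod_le_prod (fun _ _ => norm_nonneg _) fun j _ => by linarith [(dir_right (χ j) (hre j)).2]
        _ = (4 : ℝ) ^ k := by rw [Finset.prod_const, Finset.card_univ, Fintype.card_fin]

/-- joint moments with Dirichlet L-functions -/
theorem LH_of_joint_moments (k : ℕ) (q : Fin k → ℕ) [∀ j, NeZero (q j)]
    (χ : (j : Fin k) → DirichletCharacter ℂ (q j)) (a : Fin k → ℂ) (ha : ∀ j, 0 ≤ (a j).re)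
    (h : ∀ η : ℝ, 0 < η → ∃ m : ℕ, 1 / η ≤ m ∧ ∃ T₀ : ℝ, ∀ T : ℝ, T₀ ≤ T →
      ∫ t in T..(2 * T), ‖riemannZeta (1 / 2 + t * I) *
        ∏ j, DirichletCharacter.LFunction (χ j) (1 / 2 + t * I + a j)‖ ^ (2 * m) ≤ T ^ (η * m)) : LH := by
  obtain ⟨T₁, hT₁⟩ := dir_adm k q χ a ha
  refine LH_of_moments (3 * k) (4 ^ k) (by positivity) fun η hη => ?_
  obtain ⟨m, hm, T₀, h⟩ := h η hη
  exact ⟨m, hm, max T₀ T₁, fun T hT => ⟨_, hT₁ T ((le_max_right _ _).trans hT), h T ((le_max_left _ _).trans hT)⟩⟩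

end Pool.Agent.U575.MU
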