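import Pool.Agent.U575.MU.Zeta
import Pool.Agent.H855R2.SF.Dir

/-!
# Products of zeta with Dirichlet L-functions
-/

set_option autoImplicit false

open Complex Set Filter Topology Metric

namespace Pool.Agent.U575.MU

section

variable {q : ℕ} [NeZero q] (χ : DirichletCharacter ℂ q)

/-- on the right -/
theorem dir_right {s : ℂ} (hs : 3 ≤ s.re) :
    1 / 4 ≤ ‖DirichletCharacter.LFunction χ s‖ ∧ ‖DirichletCharacter.LFunction χ s‖ ≤ 2 := by
  have hs1 : 1 < s.re := by linarith
  rw [DirichletCharacter.LFunction_eq_LSeries χ hs1]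
  have hsum : Summable fun n : ℕ => LSeries.term (fun n => χ n) s n :=
    (DirichletCharacter.LSeriesSummable_of_one_lt_re χ hs1)
  have hlim := hsum.hasSum.tendsto_sum_nat
  have hpart : ∀ N : ℕ, 2 ≤ N → ‖∑ n ∈ Finset.range (N + 1), LSeries.term (fun n => χ n) s n - 1‖ ≤ 3 / 4 := by
    intro N hN
    have h1 : ∑ n ∈ Finset.range (N + 1), LSeries.term (fun n => χ n) s n - 1 =
        ∑ n ∈ Finset.Icc 2 N, LSeries.term (fun n => χ n) s n := by
      have e1 : Finset.range (N + 1) = insert 0 (insert 1 (Finset.Icc 2 N)) := by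
        ext n; simp; omega
      rw [e1, Finset.sum_insert (by simp), Finset.sum_insert (by simp)]
      have e2 : LSeries.term (fun n => χ n) s 0 = 0 := by simp
      have e3 : LSeries.term (fun n => χ n) s 1 = 1 := by
        rw [LSeries.term_of_ne_zero one_ne_zero]
        simp
      rw [e2, e3]
      ring
    rw [h1]
    refine (norm_sum_le _ _).trans ?_
    have h3 : ∀ n ∈ Finset.Icc 2 N, ‖LSeries.term (fun n => χ n) s n‖ ≤ 1 / (n : ℝ) ^ 2 := by
      intro n hn
      have hn1 : 2 ≤ n := (Finset.mem_Icc.1 hn).1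
      have hn0 : (1 : ℝ) ≤ n := by exact_mod_cast (by omega : 1 ≤ n)
      rw [LSeries.norm_term_eq, if_neg (by omega)]
      calc ‖χ n‖ / (n : ℝ) ^ s.re ≤ 1 / (n : ℝ) ^ ((2 : ℕ) : ℝ) := by
            gcongr
            · exact DirichletCharacter.norm_le_one χ _
            · push_cast; linarith
        _ = 1 / (n : ℝ) ^ 2 := by rw [Real.rpow_natCast]
    refine (Finset.sum_le_sum h3).trans ((sum_sq N hN).trans ?_)
    have : (0 : ℝ) ≤ 1 / N := by positivity
    linarith
  have hlim1 : Tendsto (fun N : ℕ => ∑ n ∈ Finset.range (N + 1), LSeries.term (fun n => χ n) s n - 1) atTop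
      (𝓝 (LSeries (fun n => χ n) s - 1)) :=
    ((tendsto_add_atTop_iff_nat 1).2 hlim).sub_const 1
  have hle : ‖LSeries (fun n => χ n) s - 1‖ ≤ 3 / 4 := by
    refine le_of_tendsto hlim1.norm ?_
    filter_upwards [eventually_ge_atTop 2] with N hN
    exact hpart N hN
  constructor
  · have h3 := norm_sub_norm_le (1 : ℂ) (1 - LSeries (fun n => χ n) s)
    rw [norm_one, sub_sub_cancel, norm_sub_rev] at h3
    linarith
  · have h3 := norm_add_le (1 : ℂ) (LSeries (fun n => χ n) s - 1)
    rw [norm_one, add_sub_cancel] at h3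
    linarith

/-- growth at heights at least `1` -/
theorem dir_growth {s : ℂ} (hs : 1 / 2 ≤ s.re) (hi : 1 ≤ s.im) :
    ‖DirichletCharacter.LFunction χ s‖ ≤ 6 * (q + 1) * ‖s‖ := by
  by_cases h1 : χ = 1
  · subst h1
    have hs1 : s ≠ 1 := by intro h; rw [h] at hi; norm_num at hi
    have h2 := DirichletCharacter.LFunctionTrivChar_eq_mul_riemannZeta (N := q) hs1
    have h3 : ‖DirichletCharacter.LFunction (1 : DirichletCharacter ℂ q) s‖ =
        (∏ p ∈ q.primeFactors, ‖1 - (p : ℂ) ^ (-s)‖) * ‖riemannZeta s‖ := by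
      have : DirichletCharacter.LFunction (1 : DirichletCharacter ℂ q) s =
        DirichletCharacter.LFunctionTrivChar q s := rfl
      rw [this, h2, norm_mul, norm_prod]
    rw [h3]
    have h4 : (∏ p ∈ q.primeFactors, ‖1 - (p : ℂ) ^ (-s)‖) ≤ (q : ℝ) := by
      calc (∏ p ∈ q.primeFactors, ‖1 - (p : ℂ) ^ (-s)‖) ≤ ∏ p ∈ q.primeFactors, (p : ℝ) := by
            refine Finset.prod_le_prod (fun _ _ => norm_nonneg _) fun p hp => ?_
            have hp2 := (Nat.prime_of_mem_primeFactors hp).two_le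
            have hp0 : (2 : ℝ) ≤ p := by exact_mod_cast hp2
            refine (norm_sub_le _ _).trans ?_
            rw [norm_one, norm_term p (by omega)]
            have h5 : (p : ℝ) ^ (-s.re) ≤ 1 := by
              rw [← Real.rpow_zero (p : ℝ)]
              exact Real.rpow_le_rpow_of_exponent_le (by linarith) (by linarith)
            linarith
        _ ≤ (q : ℝ) := by
            have := Nat.le_of_dvd (Nat.pos_of_ne_zero (NeZero.ne q)) (Nat.prod_primeFactors_dvd q)
            rw [← Nat.cast_prod]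
            exact_mod_cast this
    have h5 := Pool.Agent.H388LH.zeta_growth (s := s) (by linarith) hi
    calc _ ≤ (q : ℝ) * (6 * ‖s‖) := by gcongr
      _ ≤ _ := by nlinarith [norm_nonneg s]
  · have h2 := H855R2.SF.growth_right h1 (s := s) (by linarith)
    refine h2.trans ?_
    have h3 : ((q : ℝ) + 1) / s.re ≤ 2 * (q + 1) := by
      rw [div_le_iff₀ (by linarith)]
      have : (0 : ℝ) ≤ q + 1 := by positivity
      nlinarith
    calc ‖s‖ * (((q : ℝ) + 1) / s.re) ≤ ‖s‖ * (2 * (q + 1)) := by gcongr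
      _ ≤ _ := by
        have : 0 ≤ ‖s‖ * ((q : ℝ) + 1) := by positivity
        linarith

theorem dir_an {s : ℂ} (hi : 1 ≤ s.im) : AnalyticAt ℂ (DirichletCharacter.LFunction χ) s := by
  have hd : DifferentiableOn ℂ (DirichletCharacter.LFunction χ) {z : ℂ | 0 < z.im} := by
    intro z hz
    refine (DirichletCharacter.differentiableAt_LFunction χ z (Or.inl ?_)).differentiableWithinAt
    intro h
    rw [h] at hz
    simp at hz
  refine hd.analyticAt ?_
  exact (isOpen_lt continuous_const Complex.continuous_im).mem_nhds (show (0:ℝ) < s.im by linarith)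

end

/-- the product of zeta and any `k` Dirichlet L-functions of polynomially bounded conductor at any shifted heights is
large near every large value of zeta -/
theorem zeta_joint (ε H : ℝ) (k : ℕ) (hε : 0 < ε) (hH : 0 ≤ H) :
    ∃ δ A T₀ : ℝ, 0 < δ ∧ 0 < A ∧ 1 < T₀ ∧ ∀ T : ℝ, T₀ ≤ T → T ^ ε ≤ ‖riemannZeta (1 / 2 + T * I)‖ →
      ∀ (q : Fin k → ℕ) [∀ j, NeZero (q j)] (χ : (j : Fin k) → DirichletCharacter ℂ (q j)) (a : Fin k → ℂ),
        (∀ j, (q j : ℝ) ≤ T ^ H) → (∀ j, 0 ≤ (a j).re ∧ (a j).re ≤ H ∧ |(a j).im| ≤ T / 2) →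
        ∃ t : ℝ, |t - T| ≤ A ∧ T ^ δ ≤ ‖riemannZeta (1 / 2 + t * I) *
          ∏ j, DirichletCharacter.LFunction (χ j) (1 / 2 + t * I + a j)‖ := by
  obtain ⟨δ, A, T₀, hδ, hA, hT₀, h⟩ := zeta_law ε ((H + 3) * k) hε
  refine ⟨δ, A, max (max T₀ (2 * A + 20 + H)) (Real.exp (Real.log (4 ^ k) / δ)), hδ, hA,
    hT₀.trans_le ((le_max_left _ _).trans (le_max_left _ _)), ?_⟩
  intro T hT hz q _ χ a hq ha
  have hTT : T₀ ≤ T := ((le_max_left _ _).trans (le_max_left _ _)).trans hT
  have hTA : 2 * A + 20 + H ≤ T := ((le_max_right _ _).trans (le_max_left _ _)).trans hT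
  have hT0 : 0 < T := by linarith
  have h4 : (4 : ℝ) ^ k ≤ T ^ δ := by
    have := const_le hδ (by positivity : (0 : ℝ) < 4 ^ k) ((le_max_right _ _).trans hT)
    rwa [Real.rpow_def_of_pos hT0, mul_comm]
  have him : ∀ (s : ℂ) (j : Fin k), |s.im - T| ≤ A → 1 ≤ (s + a j).im ∧ (s + a j).im ≤ 2 * T := by
    intro s j hs
    have h1 := abs_le.1 hs
    have h2 := abs_le.1 (ha j).2.2
    rw [Complex.add_im]
    exact ⟨by linarith [h1.1, h2.1], by linarith [h1.2, h2.2]⟩
  refine h T hTT hz (fun s => ∏ j, DirichletCharacter.LFunction (χ j) (s + a j))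
    (fun s hs1 hs2 hs3 => ⟨?_, ?_⟩) fun s hs1 hs2 hs3 => ?_
  · have : AnalyticAt ℂ (∏ j, fun s => DirichletCharacter.LFunction (χ j) (s + a j)) s := by
      refine Finset.analyticAt_prod _ fun j _ => ?_
      have h1 := dir_an (χ j) (s := s + a j) (him s j hs3).1
      exact AnalyticAt.fun_comp (f := fun s => s + a j) h1 (by fun_prop)
    convert this using 1
    ext z
    simp
  · rw [norm_prod]
    calc ∏ j, ‖DirichletCharacter.LFunction (χ j) (s + a j)‖ ≤ ∏ _j : Fin k, T ^ (H + 3) := by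
          refine Finset.prod_le_prod (fun _ _ => norm_nonneg _) fun j _ => ?_
          have h1 := dir_growth (χ j) (s := s + a j) (by rw [Complex.add_re]; linarith [(ha j).1]) (him s j hs3).1
          refine h1.trans ?_
          have h2 : ‖s + a j‖ ≤ 3 * T := by
            refine (Complex.norm_le_abs_re_add_abs_im _).trans ?_
            have e1 : |(s + a j).re| ≤ 6 + H := by
              rw [Complex.add_re, abs_of_nonneg (by linarith [(ha j).1])]
              linarith [(ha j).2.1]
            have e2 : |(s + a j).im| ≤ 2 * T := by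
              rw [abs_of_nonneg (by linarith [(him s j hs3).1])]
              exact (him s j hs3).2
            linarith
          have h3 : (q j : ℝ) + 1 ≤ 2 * T ^ H := by
            have : 1 ≤ T ^ H := Real.one_le_rpow (by linarith) hH
            linarith [hq j]
          have h5 : T ^ (H + 3) = T ^ H * T ^ 3 := by
            rw [Real.rpow_add hT0]; norm_num
          rw [h5]
          have h6 : 36 ≤ T ^ 2 := by nlinarith
          calc 6 * ((q j : ℝ) + 1) * ‖s + a j‖ ≤ 6 * (2 * T ^ H) * (3 * T) := by gcongr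
            _ = T ^ H * (36 * T) := by ring
            _ ≤ T ^ H * (T ^ 2 * T) := by gcongr
            _ = _ := by ring
      _ = T ^ ((H + 3) * k) := by
          rw [Finset.prod_const, Finset.card_univ, Fintype.card_fin, ← Real.rpow_natCast, ← Real.rpow_mul hT0.le]
  · rw [norm_prod]
    have hre : ∀ j, 3 ≤ (s + a j).re := fun j => by rw [Complex.add_re]; linarith [(ha j).1]
    constructor
    · calc T ^ (-δ) ≤ ((4 : ℝ) ^ k)⁻¹ := by
            rw [Real.rpow_neg hT0.le]
            exact inv_anti₀ (by positivity) h4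
        _ = ∏ _j : Fin k, (1 / 4 : ℝ) := by
            rw [Finset.prod_const, Finset.card_univ, Fintype.card_fin, one_div, inv_pow]
        _ ≤ _ := Finset.prod_le_prod (fun _ _ => by norm_num) fun j _ => (dir_right (χ j) (hre j)).1
    · calc ∏ j, ‖DirichletCharacter.LFunction (χ j) (s + a j)‖ ≤ ∏ _j : Fin k, (4 : ℝ) :=
            Finset.prod_le_prod (fun _ _ => norm_nonneg _) fun j _ => by linarith [(dir_right (χ j) (hre j)).2]
        _ = (4 : ℝ) ^ k := by rw [Finset.prod_const, Finset.card_univ, Fintype.card_fin]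
        _ ≤ _ := h4

/-- a Lindelöf bound for the product of zeta with any Dirichlet L-functions at shifted arguments implies the
Lindelöf hypothesis for zeta -/
theorem LH_of_product (k : ℕ) (q : Fin k → ℕ) [∀ j, NeZero (q j)]
    (χ : (j : Fin k) → DirichletCharacter ℂ (q j)) (a : Fin k → ℂ) (ha : ∀ j, 0 ≤ (a j).re)
    (h : ∀ ε : ℝ, 0 < ε → ∃ C : ℝ, ∀ t : ℝ, 1 ≤ t → ‖riemannZeta (1 / 2 + t * I) *
      ∏ j, DirichletCharacter.LFunction (χ j) (1 / 2 + t * I + a j)‖ ≤ C * t ^ ε) : LH := by
  refine LH_of_large fun ε hε => ?_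
  set H : ℝ := ∑ j, ((q j : ℝ) + |(a j).re| + |(a j).im|) with hHdef
  have hj : ∀ j, (q j : ℝ) + |(a j).re| + |(a j).im| ≤ H := fun j =>
    Finset.single_le_sum (f := fun j => (q j : ℝ) + |(a j).re| + |(a j).im|) (fun _ _ => by positivity)
      (Finset.mem_univ j)
  have hH : 0 ≤ H := Finset.sum_nonneg fun _ _ => by positivity
  obtain ⟨δ, A, T₀, hδ, hA, hT₀, hlaw⟩ := zeta_joint ε H k hε hH
  obtain ⟨C, hC⟩ := h (δ / 2) (by positivity)
  refine ⟨max (max T₀ (A + 2 * H + 3)) (Real.exp (Real.log ((|C| + 1) * 2 ^ (δ / 2)) / (δ / 4))), fun T hT => ?_⟩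
  have hTT : T₀ ≤ T := ((le_max_left _ _).trans (le_max_left _ _)).trans hT
  have hTA : A + 2 * H + 3 ≤ T := ((le_max_right _ _).trans (le_max_left _ _)).trans hT
  have hT0 : 0 < T := by linarith
  have h2 := const_le (show 0 < δ / 4 by positivity) (show 0 < (|C| + 1) * 2 ^ (δ / 2) by positivity)
    ((le_max_right _ _).trans hT)
  by_contra hcon
  push Not at hcon
  obtain ⟨t, ht1, ht2⟩ := hlaw T hTT hcon.le q χ a (fun j => by
      have h1 : (q j : ℝ) ≤ H := by linarith [hj j, abs_nonneg (a j).re, abs_nonneg (a j).im]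
      have h3 : H ≤ T ^ H := by
        have e1 : (2 : ℝ) ^ H ≤ T ^ H := Real.rpow_le_rpow (by norm_num) (by linarith) hH
        have e2 : 1 + H * 1 ≤ (1 + 1 : ℝ) ^ (max H 1) :=
          (by
            have := one_add_mul_self_le_rpow_one_add (s := (1 : ℝ)) (by norm_num) (le_max_right H 1)
            have h5 : H ≤ max H 1 := le_max_left _ _
            linarith)
        rcases le_total 1 H with h6 | h6
        · rw [max_eq_left h6] at e2
          norm_num at e2
          linarith
        · have : 1 ≤ T ^ H := Real.one_le_rpow (by linarith) hH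
          linarith
      linarith)
    (fun j => ⟨ha j, by
        have := le_abs_self (a j).re
        have h0 : (0 : ℝ) ≤ q j := by positivity
        linarith [hj j, abs_nonneg (a j).im], by
        have h0 : (0 : ℝ) ≤ q j := by positivity
        linarith [hj j, abs_nonneg (a j).re]⟩)
  have ht' := abs_le.1 ht1
  have ht3 : 1 ≤ t := by linarith [ht'.1]
  have h3 := ht2.trans (hC t ht3)
  have h4 : t ^ (δ / 2) ≤ 2 ^ (δ / 2) * T ^ (δ / 2) := by
    rw [← Real.mul_rpow (by norm_num) hT0.le]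
    exact Real.rpow_le_rpow (by linarith) (by linarith [ht'.2]) (by positivity)
  have h5 : T ^ (δ / 4) = Real.exp (δ / 4 * Real.log T) := by
    rw [Real.rpow_def_of_pos hT0, mul_comm]
  have h6 : C * t ^ (δ / 2) ≤ T ^ (δ / 4) * T ^ (δ / 2) := by
    have : C ≤ |C| + 1 := by linarith [le_abs_self C]
    have h6 : 0 ≤ t ^ (δ / 2) := by positivity
    calc C * t ^ (δ / 2) ≤ (|C| + 1) * t ^ (δ / 2) := by gcongr
      _ ≤ (|C| + 1) * (2 ^ (δ / 2) * T ^ (δ / 2)) := by gcongr
      _ = ((|C| + 1) * 2 ^ (δ / 2)) * T ^ (δ / 2) := by ring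
      _ ≤ _ := by rw [h5]; gcongr
  rw [← Real.rpow_add hT0] at h6
  have h7 : T ^ (δ / 4 + δ / 2) < T ^ δ := Real.rpow_lt_rpow_of_exponent_lt (by linarith) (by linarith)
  linarith

end Pool.Agent.U575.MU
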