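import Pool.Agent.U575.MU.Nev3

/-!
# Values of the derivatives of zeta: the criterion of Backlund
-/

set_option autoImplicit false

open Complex Set Filter Topology Metric LSeries

namespace Pool.Agent.U575.MU

open H370 H370.Loc DH31

lemma Dz_series (m : ℕ) {s : ℂ} (hs : 1 < s.re) : Dz m s = (-1) ^ m * LSeries (logMul^[m] 1) s := by
  have h1 : riemannZeta =ᶠ[𝓝 s] LSeries 1 := by
    have : ∀ᶠ w in 𝓝 s, 1 < w.re := (isOpen_lt continuous_const Complex.continuous_re).mem_nhds hs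
    filter_upwards [this] with w hw
    exact (LSeries_one_eq_riemannZeta hw).symm
  unfold Dz
  rw [h1.iteratedDeriv_eq m, LSeries_iteratedDeriv m (by
    rw [LSeries.abscissaOfAbsConv_one]
    exact_mod_cast hs)]

lemma logMul_iter (m n : ℕ) : (logMul^[m] (1 : ℕ → ℂ)) n = Complex.log n ^ m := by
  induction m with
  | zero => simp
  | succ m ih =>
    rw [Function.iterate_succ_apply']
    change Complex.log n * (logMul^[m] (1 : ℕ → ℂ)) n = _
    rw [ih, pow_succ']

lemma norm_logMul (m n : ℕ) : ‖(logMul^[m] (1 : ℕ → ℂ)) n‖ = |Real.log n| ^ m := by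
  rw [logMul_iter, norm_pow, ← Complex.natCast_log, Complex.norm_real, Real.norm_eq_abs]

lemma norm_logMul_le (m n : ℕ) (hn : 1 ≤ n) : ‖(logMul^[m] (1 : ℕ → ℂ)) n‖ ≤ m.factorial * n := by
  rw [norm_logMul]
  have hn0 : (1 : ℝ) ≤ n := by exact_mod_cast hn
  have hl : 0 ≤ Real.log n := Real.log_nonneg hn0
  rw [abs_of_nonneg hl]
  have h := Real.pow_div_factorial_le_exp (x := Real.log n) hl m
  rw [Real.exp_log (by linarith), div_le_iff₀ (by positivity)] at h
  linarith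

lemma sumZ : Summable fun n : ℕ => 1 / ((n : ℝ) + 1) ^ 3 := by
  have h := (summable_nat_add_iff 1).2 (Real.summable_one_div_nat_pow.2 (by norm_num : 1 < 3))
  simpa using h

/-- the tails of the series -/
lemma tail_bound (m K : ℕ) (hK : 1 ≤ K) {s : ℂ} (hs : 4 ≤ s.re) :
    ‖∑' n : ℕ, term (logMul^[m] (1 : ℕ → ℂ)) s (n + K)‖ ≤
      m.factorial * (K : ℝ) ^ (4 - s.re) * ∑' n : ℕ, 1 / ((n : ℝ) + 1) ^ 3 := by
  have hK0 : (1 : ℝ) ≤ K := by exact_mod_cast hK
  refine tsum_of_norm_bounded (sumZ.hasSum.mul_left (m.factorial * (K : ℝ) ^ (4 - s.re))) fun n => ?_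
  have hnK : 1 ≤ n + K := by omega
  have hn0 : (0 : ℝ) ≤ n := by positivity
  have hx : (1 : ℝ) ≤ ((n + K : ℕ) : ℝ) := by exact_mod_cast hnK
  have hx0 : (0 : ℝ) < ((n + K : ℕ) : ℝ) := by linarith
  rw [LSeries.norm_term_eq, if_neg (by omega)]
  have h1 : ‖(logMul^[m] (1 : ℕ → ℂ)) (n + K)‖ / ((n + K : ℕ) : ℝ) ^ s.re ≤
      m.factorial * (((n + K : ℕ) : ℝ) * ((n + K : ℕ) : ℝ) ^ (-s.re)) := by
    rw [Real.rpow_neg hx0.le, ← div_eq_mul_inv, ← mul_div_assoc]
    gcongr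
    exact norm_logMul_le m _ hnK
  refine h1.trans ?_
  have h2 : ((n + K : ℕ) : ℝ) * ((n + K : ℕ) : ℝ) ^ (-s.re) =
      ((n + K : ℕ) : ℝ) ^ (4 - s.re) * (((n + K : ℕ) : ℝ) ^ 3)⁻¹ := by
    rw [← Real.rpow_natCast _ 3, ← Real.rpow_neg hx0.le, ← Real.rpow_add hx0]
    nth_rewrite 1 [← Real.rpow_one ((n + K : ℕ) : ℝ)]
    rw [← Real.rpow_add hx0]
    congr 1
    push_cast
    ring
  rw [h2]
  have h3 : ((n + K : ℕ) : ℝ) ^ (4 - s.re) ≤ (K : ℝ) ^ (4 - s.re) :=
    Real.rpow_le_rpow_of_nonpos (by linarith) (by push_cast; linarith) (by linarith)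
  have h4 : (((n + K : ℕ) : ℝ) ^ 3)⁻¹ ≤ 1 / ((n : ℝ) + 1) ^ 3 := by
    rw [one_div]
    refine inv_anti₀ (by positivity) ?_
    gcongr
    push_cast
    linarith
  calc (m.factorial : ℝ) * (((n + K : ℕ) : ℝ) ^ (4 - s.re) * (((n + K : ℕ) : ℝ) ^ 3)⁻¹)
      ≤ m.factorial * ((K : ℝ) ^ (4 - s.re) * (1 / ((n : ℝ) + 1) ^ 3)) := by gcongr
    _ = _ := by ring

lemma split_series (m K : ℕ) {s : ℂ} (hs : 1 < s.re) : LSeries (logMul^[m] 1) s =
    ∑ n ∈ Finset.range K, term (logMul^[m] (1 : ℕ → ℂ)) s n + ∑' n : ℕ, term (logMul^[m] (1 : ℕ → ℂ)) s (n + K) := by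
  have hsum : Summable fun n : ℕ => term (logMul^[m] (1 : ℕ → ℂ)) s n := by
    refine LSeriesSummable_of_abscissaOfAbsConv_lt_re ?_
    rw [absicssaOfAbsConv_logPowMul, LSeries.abscissaOfAbsConv_one]
    exact_mod_cast hs
  exact (hsum.sum_add_tsum_nat_add K).symm

/-- far to the right a derivative of zeta does not come near a given value -/
theorem Dz_lower (m : ℕ) (v : ℂ) : ∃ H c : ℝ, 4 ≤ H ∧ 0 < c ∧ ∀ s : ℂ, H ≤ s.re →
    Dz m s ≠ v ∧ (s.re ≤ H + 2 → c ≤ ‖Dz m s - v‖) := by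
  obtain ⟨Z, hZdef⟩ : ∃ Z : ℝ, Z = ∑' n : ℕ, 1 / ((n : ℝ) + 1) ^ 3 := ⟨_, rfl⟩
  have hZ0 : 0 < Z := by
    rw [hZdef]
    exact sumZ.tsum_pos (fun n => by positivity) 0 (by positivity)
  have hm1 : ‖((-1 : ℂ)) ^ m‖ = 1 := by simp
  obtain ⟨β, hβ⟩ : ∃ β : ℂ, β = (-1) ^ m * (logMul^[m] (1 : ℕ → ℂ)) 1 - v := ⟨_, rfl⟩
  by_cases hβ0 : β = 0
  · -- the second term decides
    have hlog2 : 0 < Real.log 2 := Real.log_pos (by norm_num)
    set b : ℝ := Real.log 2 ^ m with hb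
    have hb0 : 0 < b := by positivity
    obtain ⟨k, hk⟩ := pow_unbounded_of_one_lt (2 * (m.factorial * 81 * Z) / b) (by norm_num : (1 : ℝ) < 3 / 2)
    refine ⟨k + 4, 1 / 2 * b * 2 ^ (-((k : ℝ) + 4 + 2)), by linarith [(Nat.cast_nonneg k : (0 : ℝ) ≤ k)], by positivity,
      fun s hs => ?_⟩
    have hk0 : (0 : ℝ) ≤ k := by positivity
    have hs1 : 1 < s.re := by linarith
    have e := split_series m 3 hs1
    have e0 : term (logMul^[m] (1 : ℕ → ℂ)) s 0 = 0 := by simp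
    have e1 : term (logMul^[m] (1 : ℕ → ℂ)) s 1 = (logMul^[m] (1 : ℕ → ℂ)) 1 := by
      rw [LSeries.term_of_ne_zero one_ne_zero]; simp
    rw [Finset.sum_range_succ, Finset.sum_range_succ, Finset.sum_range_one, e0, e1, zero_add] at e
    have ht := tail_bound m 3 (by norm_num) (s := s) (by linarith)
    rw [← hZdef] at ht
    have h2 : ‖term (logMul^[m] (1 : ℕ → ℂ)) s 2‖ = b * 2 ^ (-s.re) := by
      rw [LSeries.norm_term_eq, if_neg (by norm_num), norm_logMul, Real.rpow_neg (by norm_num)]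
      push_cast
      rw [abs_of_pos hlog2, div_eq_mul_inv]
    have hdiff : Dz m s - v = (-1) ^ m * (term (logMul^[m] (1 : ℕ → ℂ)) s 2 +
        ∑' n : ℕ, term (logMul^[m] (1 : ℕ → ℂ)) s (n + 3)) := by
      rw [Dz_series m hs1, e]
      have : v = (-1) ^ m * (logMul^[m] (1 : ℕ → ℂ)) 1 := by
        rw [hβ0] at hβ
        exact (sub_eq_zero.1 hβ.symm).symm
      rw [this]
      ring
    have hlow : 1 / 2 * b * 2 ^ (-s.re) ≤ ‖Dz m s - v‖ := by
      rw [hdiff, norm_mul, hm1, one_mul]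
      have h3 := norm_sub_le (term (logMul^[m] (1 : ℕ → ℂ)) s 2 +
        ∑' n : ℕ, term (logMul^[m] (1 : ℕ → ℂ)) s (n + 3)) (∑' n : ℕ, term (logMul^[m] (1 : ℕ → ℂ)) s (n + 3))
      rw [add_sub_cancel_right, h2] at h3
      have h4 : (m.factorial : ℝ) * ((3 : ℕ) : ℝ) ^ (4 - s.re) * Z ≤ 1 / 2 * b * 2 ^ (-s.re) := by
        have h5 : ((3 : ℕ) : ℝ) ^ (4 - s.re) = 81 * 3 ^ (-s.re) := by
          push_cast
          rw [show 4 - s.re = ((4 : ℕ) : ℝ) + (-s.re) by push_cast; ring, Real.rpow_add (by norm_num),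
            Real.rpow_natCast]
          norm_num
        have h6 : (3 : ℝ) ^ (-s.re) = (3 / 2) ^ (-s.re) * 2 ^ (-s.re) := by
          rw [← Real.mul_rpow (by norm_num) (by norm_num)]
          norm_num
        have h7 : (3 / 2 : ℝ) ^ (-s.re) ≤ ((3 / 2 : ℝ) ^ k)⁻¹ := by
          rw [Real.rpow_neg (by norm_num), ← Real.rpow_natCast (3 / 2 : ℝ) k]
          refine inv_anti₀ (by positivity) ?_
          exact Real.rpow_le_rpow_of_exponent_le (by norm_num) (by linarith)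
        have h8 : m.factorial * 81 * Z * ((3 / 2 : ℝ) ^ k)⁻¹ ≤ 1 / 2 * b := by
          rw [div_lt_iff₀ hb0] at hk
          rw [← div_eq_mul_inv, div_le_iff₀ (by positivity)]
          linarith
        rw [h5, h6]
        calc (m.factorial : ℝ) * (81 * ((3 / 2) ^ (-s.re) * 2 ^ (-s.re))) * Z
            = m.factorial * 81 * Z * (3 / 2) ^ (-s.re) * 2 ^ (-s.re) := by ring
          _ ≤ m.factorial * 81 * Z * ((3 / 2 : ℝ) ^ k)⁻¹ * 2 ^ (-s.re) := by gcongr
          _ ≤ 1 / 2 * b * 2 ^ (-s.re) := by gcongr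
      have h9 := ht.trans h4
      linarith
    constructor
    · intro h
      rw [h, sub_self, norm_zero] at hlow
      have : 0 < 1 / 2 * b * 2 ^ (-s.re) := by positivity
      linarith
    · intro h
      refine le_trans ?_ hlow
      have : (2 : ℝ) ^ (-((k : ℝ) + 4 + 2)) ≤ 2 ^ (-s.re) :=
        Real.rpow_le_rpow_of_exponent_le (by norm_num) (by linarith)
      gcongr
  · -- the first term decides
    have hβn : 0 < ‖β‖ := norm_pos_iff.2 hβ0
    obtain ⟨k, hk⟩ := pow_unbounded_of_one_lt (2 * (m.factorial * 16 * Z) / ‖β‖) (by norm_num : (1 : ℝ) < 2)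
    refine ⟨k + 4, 1 / 2 * ‖β‖, by linarith [(Nat.cast_nonneg k : (0 : ℝ) ≤ k)], by positivity, fun s hs => ?_⟩
    have hk0 : (0 : ℝ) ≤ k := by positivity
    have hs1 : 1 < s.re := by linarith
    have e := split_series m 2 hs1
    have e0 : term (logMul^[m] (1 : ℕ → ℂ)) s 0 = 0 := by simp
    have e1 : term (logMul^[m] (1 : ℕ → ℂ)) s 1 = (logMul^[m] (1 : ℕ → ℂ)) 1 := by
      rw [LSeries.term_of_ne_zero one_ne_zero]; simp
    rw [Finset.sum_range_succ, Finset.sum_range_one, e0, e1, zero_add] at e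
    have ht := tail_bound m 2 (by norm_num) (s := s) (by linarith)
    rw [← hZdef] at ht
    have hdiff : Dz m s - v = β + (-1) ^ m * ∑' n : ℕ, term (logMul^[m] (1 : ℕ → ℂ)) s (n + 2) := by
      rw [Dz_series m hs1, e, hβ]; ring
    have hlow : 1 / 2 * ‖β‖ ≤ ‖Dz m s - v‖ := by
      rw [hdiff]
      have h3 := norm_sub_le (β + (-1) ^ m * ∑' n : ℕ, term (logMul^[m] (1 : ℕ → ℂ)) s (n + 2))
        ((-1) ^ m * ∑' n : ℕ, term (logMul^[m] (1 : ℕ → ℂ)) s (n + 2))
      rw [add_sub_cancel_right, norm_mul, hm1, one_mul] at h3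
      have h4 : (m.factorial : ℝ) * ((2 : ℕ) : ℝ) ^ (4 - s.re) * Z ≤ 1 / 2 * ‖β‖ := by
        have h5 : ((2 : ℕ) : ℝ) ^ (4 - s.re) = 16 * 2 ^ (-s.re) := by
          push_cast
          rw [show 4 - s.re = ((4 : ℕ) : ℝ) + (-s.re) by push_cast; ring, Real.rpow_add (by norm_num),
            Real.rpow_natCast]
          norm_num
        have h7 : (2 : ℝ) ^ (-s.re) ≤ ((2 : ℝ) ^ k)⁻¹ := by
          rw [Real.rpow_neg (by norm_num), ← Real.rpow_natCast (2 : ℝ) k]
          refine inv_anti₀ (by positivity) ?_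
          exact Real.rpow_le_rpow_of_exponent_le (by norm_num) (by linarith)
        have h8 : m.factorial * 16 * Z * ((2 : ℝ) ^ k)⁻¹ ≤ 1 / 2 * ‖β‖ := by
          rw [div_lt_iff₀ hβn] at hk
          rw [← div_eq_mul_inv, div_le_iff₀ (by positivity)]
          linarith
        rw [h5]
        calc (m.factorial : ℝ) * (16 * 2 ^ (-s.re)) * Z = m.factorial * 16 * Z * 2 ^ (-s.re) := by ring
          _ ≤ m.factorial * 16 * Z * ((2 : ℝ) ^ k)⁻¹ := by gcongr
          _ ≤ _ := h8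
      have h9 := ht.trans h4
      linarith
    constructor
    · intro h
      rw [h, sub_self, norm_zero] at hlow
      linarith
    · intro _
      exact hlow

/-- `o(log T)` solutions of `ζ^{(m)}(s) = v` in `Re s ≥ 1/2 + d`, `T ≤ Im s ≤ T + 1` -/
def FewPts (m : ℕ) (v : ℂ) : Prop := ∀ d δ : ℝ, 0 < d → 0 < δ → ∃ T₀ : ℝ, ∀ T : ℝ, T₀ ≤ T → ∀ S : Finset ℂ,
  (∀ z ∈ S, 1 / 2 + d ≤ z.re ∧ T ≤ z.im ∧ z.im ≤ T + 1 ∧ iteratedDeriv m riemannZeta z = v) →
    ∑ z ∈ S, (analyticOrderNatAt (fun s => iteratedDeriv m riemannZeta s - v) z : ℝ) ≤ δ * Real.log T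

lemma Eqn_const (m : ℕ) (v : ℂ) : Eqn m 1 (fun _ _ => -v) = fun s => iteratedDeriv m riemannZeta s - v := by
  funext s
  unfold Eqn Dz
  simp
  ring

/-- the constant family -/
lemma const_adm (m : ℕ) (v : ℂ) {H c : ℝ} (hc : 0 < c)
    (h : ∀ s : ℂ, H ≤ s.re → Dz m s ≠ v ∧ (s.re ≤ H + 2 → c ≤ ‖Dz m s - v‖)) :
    Adms m 1 H (fun _ _ _ => -v) := by
  intro δ A hδ _
  refine ⟨max 1 (max (Real.exp (Real.log (‖v‖ + 1) / δ)) (Real.exp (Real.log (1 / c) / δ))), fun T hT => ⟨?_, ?_⟩⟩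
  · intro j _ s _ _ _
    refine ⟨analyticAt_const, ?_⟩
    have hT0 : 0 < T := lt_of_lt_of_le one_pos ((le_max_left _ _).trans hT)
    have h1 := const_le hδ (show 0 < ‖v‖ + 1 by positivity)
      (((le_max_left _ _).trans (le_max_right _ _)).trans hT)
    rw [norm_neg, Real.rpow_def_of_pos hT0, mul_comm]
    linarith
  · intro s h1 h2 _
    have hT0 : 0 < T := lt_of_lt_of_le one_pos ((le_max_left _ _).trans hT)
    have h3 := const_le hδ (show 0 < 1 / c by positivity)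
      (((le_max_right _ _).trans (le_max_right _ _)).trans hT)
    have h4 : T ^ (-δ) ≤ c := by
      rw [Real.rpow_neg hT0.le, Real.rpow_def_of_pos hT0, mul_comm]
      have := inv_anti₀ (by positivity) h3
      rwa [one_div, inv_inv] at this
    refine h4.trans ?_
    have e : Eqn m 1 (fun _ _ => -v) s = Dz m s - v := by rw [Eqn_const]; rfl
    rw [e]
    exact (h s h1).2 h2

/-- **Backlund's criterion for every value of every derivative.** -/
theorem LH_iff_pts (m : ℕ) (v : ℂ) : LH ↔ FewPts m v := by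
  obtain ⟨H, c, hH, hc, hlow⟩ := Dz_lower m v
  have hadm := const_adm m v hc hlow
  constructor
  · intro h d δ hd hδ
    wlog hd1 : d ≤ 1 / 24 generalizing d
    · obtain ⟨T₀, hT₀⟩ := this (1 / 24) (by norm_num) le_rfl
      push Not at hd1
      refine ⟨T₀, fun T hT S hS => hT₀ T hT S fun z hz => ?_⟩
      obtain ⟨h1, h2, h3, h4⟩ := hS z hz
      exact ⟨by linarith, h2, h3, h4⟩
    obtain ⟨T₀, hT₀⟩ := (LH_iff_few m 1 le_rfl H (by linarith) _ hadm).1 h d δ 1 hd hδ one_pos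
    refine ⟨T₀, fun T hT S hS => ?_⟩
    have h1 := hT₀ T hT S (fun z hz => by
      obtain ⟨h1, h2, h3, h4⟩ := hS z hz
      have h5 : z.re < H := by
        by_contra hcon
        push Not at hcon
        exact (hlow z hcon).1 h4
      refine ⟨h1, by linarith, abs_le.2 ⟨by linarith, by linarith⟩, ?_⟩
      rw [Eqn_const]
      simp only [h4, sub_self])
    rwa [Eqn_const] at h1
  · intro h
    refine LH_of_large fun ε hε => ?_
    obtain ⟨d, δ, A, T₁, hd, hd1, hδ, hA, hT₁1, hlaw⟩ := small_functions ε hε m 1 le_rfl H (by linarith)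
    set N : ℕ := ⌊2 * A⌋₊ + 1 with hN
    have hN0 : (0 : ℝ) < N := by rw [hN]; positivity
    obtain ⟨T₂, hT₂⟩ := h d (δ / (4 * N)) hd (by positivity)
    obtain ⟨T₃, hT₃⟩ := hadm δ A hδ hA
    refine ⟨max (max T₁ (A + 2)) (max (max (T₂ + A) (A + 2)) T₃), fun T hT => ?_⟩
    have hTT1 : T₁ ≤ T := ((le_max_left _ _).trans (le_max_left _ _)).trans hT
    have hTA : A + 2 ≤ T := ((le_max_right _ _).trans (le_max_left _ _)).trans hT
    have hTT2 : T₂ + A ≤ T := (((le_max_left _ _).trans (le_max_left _ _)).trans (le_max_right _ _)).trans hT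
    have hTT3 : T₃ ≤ T := ((le_max_right _ _).trans (le_max_right _ _)).trans hT
    by_contra hcon
    push Not at hcon
    obtain ⟨ha1, ha2⟩ := hT₃ T hTT3
    obtain ⟨S, hS1, hS2⟩ := hlaw T hTT1 hcon.le (fun _ _ => -v) ha1 ha2
    rw [Eqn_const] at hS1 hS2
    have hT0 : 0 < T := by linarith
    have hL0 : 0 < Real.log T := Real.log_pos (by linarith)
    set g : ℂ → ℕ := fun z => ⌊z.im - T + A⌋₊ with hg
    have hmaps : ∀ z ∈ S, g z ∈ Finset.range N := by
      intro z hz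
      have h1 := abs_le.1 (hS1 z hz).2.2.1
      rw [Finset.mem_range, hN, Nat.lt_succ_iff]
      apply Nat.floor_le_floor
      linarith [h1.2]
    rw [← Finset.sum_fiberwise_of_maps_to hmaps] at hS2
    have hfib : ∀ k ∈ Finset.range N, ∑ z ∈ S with g z = k,
        (analyticOrderNatAt (fun s => iteratedDeriv m riemannZeta s - v) z : ℝ) ≤ δ / (4 * N) * (2 * Real.log T) := by
      intro k hk
      have hk' : (k : ℝ) ≤ 2 * A := by
        have h1 := Finset.mem_range.1 hk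
        rw [hN, Nat.lt_succ_iff] at h1
        exact (Nat.le_floor_iff (by positivity)).1 h1
      have hk0 : (0 : ℝ) ≤ k := by positivity
      have h1 := hT₂ (T - A + k) (by linarith) (S.filter fun z => g z = k) (fun z hz => by
        obtain ⟨hz1, hz2⟩ := Finset.mem_filter.1 hz
        obtain ⟨h1, h2, h3, h4⟩ := hS1 z hz1
        have h3' := abs_le.1 h3
        have e1 : (k : ℝ) ≤ z.im - T + A := by
          rw [← hz2]; exact Nat.floor_le (by linarith [h3'.1])
        have e2 : z.im - T + A < k + 1 := by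
          rw [← hz2]; exact Nat.lt_floor_add_one _
        exact ⟨h1, by linarith, by linarith, sub_eq_zero.1 h4⟩)
      refine h1.trans ?_
      have h2 : Real.log (T - A + k) ≤ 2 * Real.log T := by
        have h3 : T - A + k ≤ T ^ 2 := by nlinarith
        calc Real.log (T - A + k) ≤ Real.log (T ^ 2) := Real.log_le_log (by linarith) h3
          _ = 2 * Real.log T := by rw [Real.log_pow]; push_cast; ring
      gcongr
    have h1 := hS2.trans (Finset.sum_le_sum hfib)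
    rw [Finset.sum_const, Finset.card_range, nsmul_eq_mul] at h1
    have h2 : (N : ℝ) * (δ / (4 * N) * (2 * Real.log T)) = δ / 2 * Real.log T := by
      field_simp; ring
    rw [h2] at h1
    have : 0 < δ * Real.log T := by positivity
    linarith

end Pool.Agent.U575.MU
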