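import Pool.Agent.U575.MU.Fam
import Pool.Agent.H855R2.SF.Dir

/-!
# Primitive Dirichlet characters, uniformly in the modulus
-/

set_option autoImplicit false

open Complex Set Filter Topology Metric

namespace Pool.Agent.U575.MU

open H855R2.SF

theorem dir_low (S : (q : ℕ) → DirichletCharacter ℂ q → Prop) : Low (dirL (S := S)) (dirQ (S := S)) := by
  intro δ hδ
  set K : ℝ := ∑' n : ℕ, 1 / (n : ℝ) ^ (1 + δ) with hK
  have hK0 : 0 ≤ K := tsum_nonneg fun n => by positivity
  refine ⟨max K 1, lt_max_of_lt_right one_pos, fun i s hs => ?_⟩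
  have hs1 : 1 < s.re := by linarith
  have h1 := DirichletCharacter.LSeries.mul_mu_eq_one i.χ hs1
  have h2 := DH31.lseries_bound (a := 1 + δ) (by linarith)
    ((fun n : ℕ => i.χ n) * (fun n : ℕ => (ArithmeticFunction.moebius n : ℂ))) (fun n => by
      rw [Pi.mul_apply, norm_mul]
      have h3 : ‖((ArithmeticFunction.moebius n : ℤ) : ℂ)‖ ≤ 1 := by
        have h : |ArithmeticFunction.moebius n| ≤ 1 := ArithmeticFunction.abs_moebius_le_one
        rw [Complex.norm_intCast]
        exact_mod_cast h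
      exact mul_le_one₀ (DirichletCharacter.norm_le_one i.χ _) (norm_nonneg _) h3) hs
  have h4 : dirL i s = LSeries (fun n : ℕ => i.χ n) s := DirichletCharacter.LFunction_eq_LSeries i.χ hs1
  have h5 : ‖dirL i s‖ * ‖LSeries ((fun n : ℕ => i.χ n) * (fun n : ℕ => (ArithmeticFunction.moebius n : ℂ))) s‖ = 1 := by
    rw [h4, ← norm_mul, h1, norm_one]
  have hQ := (dir_afam S).Q1 i s.im
  have hQ1 : 1 ≤ dirQ i s.im ^ δ := Real.one_le_rpow hQ hδ.le
  calc (1 : ℝ) = ‖dirL i s‖ * ‖LSeries ((fun n : ℕ => i.χ n) * (fun n : ℕ => (ArithmeticFunction.moebius n : ℂ))) s‖ := h5.symm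
    _ ≤ ‖dirL i s‖ * max K 1 := by
        gcongr
        exact h2.trans (le_max_left _ _)
    _ = max K 1 * 1 * ‖dirL i s‖ := by ring
    _ ≤ max K 1 * dirQ i s.im ^ δ * ‖dirL i s‖ := by gcongr

theorem dir_famX (S : (q : ℕ) → DirichletCharacter ℂ q → Prop) :
    FamX (dirL (S := S)) (dirQ (S := S)) 1 1 (dirQ (S := S)) where
  afam := dir_afam S
  low := dir_low S
  p0 := one_pos
  X1 := (dir_afam S).Q1
  QX := fun i t => by rw [Real.rpow_one]

/-- restriction to a subfamily -/
theorem FamX.comp {ι ι' : Type*} {L : ι → ℂ → ℂ} {X Q : ι → ℝ → ℝ} {m p : ℝ} (H : FamX L X m p Q) (g : ι' → ι) :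
    FamX (fun i => L (g i)) (fun i => X (g i)) m p (fun i => Q (g i)) where
  afam :=
    { m0 := H.afam.m0
      Q1 := fun i t => H.afam.Q1 (g i) t
      Qs := fun i t u => H.afam.Qs (g i) t u
      diff := fun i => H.afam.diff (g i)
      order := fun i => H.afam.order (g i)
      right := fun δ hδ => by
        obtain ⟨B, hB⟩ := H.afam.right δ hδ
        exact ⟨B, fun i s hs => hB (g i) s hs⟩
      refl := by
        obtain ⟨C, hC, h⟩ := H.afam.refl
        exact ⟨C, hC, fun i x t hx0 hx1 => h (g i) x t hx0 hx1⟩ }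
  low := fun δ hδ => by
    obtain ⟨B, hB, h⟩ := H.low δ hδ
    exact ⟨B, hB, fun i s hs => h (g i) s hs⟩
  p0 := H.p0
  X1 := fun i t => H.X1 (g i) t
  QX := fun i t => H.QX (g i) t

end Pool.Agent.U575.MU
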