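import Pool.Agent.U575.MU.Zeta
import Pool.Agent.H983R4.GL.F2

/-!
# Multipliers of L-functions in families
-/

set_option autoImplicit false

open Complex Set Filter Topology Metric

namespace Pool.Agent.U575.MU

open H855R2.SF

variable {ι : Type*} {m : ℝ} {L : ι → ℂ → ℂ} {Q : ι → ℝ → ℝ}

/-- the lower bound to the right of the critical strip -/
def Low (L : ι → ℂ → ℂ) (Q : ι → ℝ → ℝ) : Prop := ∀ δ : ℝ, 0 < δ → ∃ B : ℝ, 0 < B ∧ ∀ (i : ι) (s : ℂ), 1 + δ ≤ s.re →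
  1 ≤ B * Q i s.im ^ δ * ‖L i s‖

/-- conductors at neighbouring heights -/
lemma Q_near (H : AFam m L Q) {i : ι} {T A u : ℝ} (hA : 0 ≤ A) (hu : |u - T| ≤ A) :
    Q i u ≤ (1 + A) ^ m * Q i T := by
  have h1 := H.Qs i T (u - T)
  rw [add_sub_cancel] at h1
  refine h1.trans (mul_le_mul_of_nonneg_right ?_ (by linarith [H.Q1 i T]))
  exact Real.rpow_le_rpow (by positivity) (by linarith) H.m0

/-- bounds to the right, at neighbouring heights -/
theorem right_near (H : AFam m L Q) (hlow : Low L Q) (d δ A : ℝ) (hd : 0 < d) (hδ : 0 < δ) (hA : 0 ≤ A) :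
    ∃ K : ℝ, 1 ≤ K ∧ ∀ (i : ι) (T : ℝ) (s : ℂ), 1 + d ≤ s.re → |s.im - T| ≤ A →
      ‖L i s‖ ≤ K * Q i T ^ δ ∧ 1 ≤ K * Q i T ^ δ * ‖L i s‖ := by
  set e : ℝ := min d δ with he
  have he0 : 0 < e := lt_min hd hδ
  obtain ⟨B₁, hB₁⟩ := H.right e he0
  obtain ⟨B₂, hB₂, hlow'⟩ := hlow e he0
  set κ : ℝ := ((1 + A) ^ m) ^ e with hκ
  have hκ0 : 0 ≤ κ := by positivity
  refine ⟨max 1 ((|B₁| + B₂) * κ), le_max_left _ _, fun i T s hs1 hs2 => ?_⟩
  have hQT := H.Q1 i T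
  have hQs := H.Q1 i s.im
  have h1 : Q i s.im ^ e ≤ κ * Q i T ^ δ := by
    calc Q i s.im ^ e ≤ ((1 + A) ^ m * Q i T) ^ e :=
          Real.rpow_le_rpow (by linarith) (Q_near H hA hs2) he0.le
      _ = κ * Q i T ^ e := Real.mul_rpow (by positivity) (by linarith)
      _ ≤ κ * Q i T ^ δ := by
          gcongr
          exact min_le_right _ _
  have hQd : 0 ≤ Q i T ^ δ := by positivity
  have hs3 : 1 + e ≤ s.re := by
    have : e ≤ d := min_le_left _ _
    linarith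
  constructor
  · calc ‖L i s‖ ≤ B₁ * Q i s.im ^ e := hB₁ i s hs3
      _ ≤ |B₁| * (κ * Q i T ^ δ) := by
          have : 0 ≤ Q i s.im ^ e := by positivity
          calc B₁ * Q i s.im ^ e ≤ |B₁| * Q i s.im ^ e := by gcongr; exact le_abs_self _
            _ ≤ _ := by gcongr
      _ ≤ ((|B₁| + B₂) * κ) * Q i T ^ δ := by
          have : 0 ≤ B₂ * κ * Q i T ^ δ := by positivity
          linarith
      _ ≤ _ := by gcongr; exact le_max_right _ _
  · calc (1 : ℝ) ≤ B₂ * Q i s.im ^ e * ‖L i s‖ := hlow' i s hs3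
      _ ≤ B₂ * (κ * Q i T ^ δ) * ‖L i s‖ := by gcongr
      _ ≤ ((|B₁| + B₂) * κ) * Q i T ^ δ * ‖L i s‖ := by
          have : 0 ≤ |B₁| * κ * Q i T ^ δ * ‖L i s‖ := by positivity
          linarith
      _ ≤ _ := by gcongr; exact le_max_right _ _

/-- members of a family near a height -/
theorem reg_fam (H : AFam m L Q) (hlow : Low L Q) (d δ A : ℝ) (hd : 0 < d) (hδ : 0 < δ) (hA : 0 < A) :
    ∃ Q₀ : ℝ, ∀ (i : ι) (T : ℝ), Q₀ ≤ Q i T → Reg (L i) T A (Real.log (Q i T)) 2 1 δ d := by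
  obtain ⟨C, hC, hcr⟩ := Pool.Agent.H983R4.GL.crude H
  obtain ⟨K, hK, hright⟩ := right_near H hlow d (δ / 2) A hd (by positivity) hA.le
  obtain ⟨C', hC', hrefl⟩ := H.refl
  set κ : ℝ := max 1 ((1 + A) ^ m) with hκ
  have hκ1 : 1 ≤ κ := le_max_left _ _
  refine ⟨max (max 1 (C * κ)) (max (Real.exp (Real.log K / (δ / 2))) (Real.exp (Real.log ((C' + 1) * κ) / δ))),
    fun i T hT => ?_⟩
  have hT1 : 1 ≤ Q i T := H.Q1 i T
  have hT2 : C * κ ≤ Q i T := ((le_max_right _ _).trans (le_max_left _ _)).trans hT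
  have hT3 : Real.exp (Real.log K / (δ / 2)) ≤ Q i T := ((le_max_left _ _).trans (le_max_right _ _)).trans hT
  have hT4 : Real.exp (Real.log ((C' + 1) * κ) / δ) ≤ Q i T :=
    ((le_max_right _ _).trans (le_max_right _ _)).trans hT
  have hQ0 : 0 < Q i T := by linarith
  have hc1 := const_le (by positivity) (by linarith) hT3
  have hc2 := const_le hδ (by positivity) hT4
  have hnear : ∀ u : ℝ, |u - T| ≤ A → Q i u ≤ κ * Q i T := fun u hu =>
    (Q_near H hA.le hu).trans (by gcongr; exact le_max_right _ _)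
  have hrp : ∀ x : ℝ, Q i T ^ x = Real.exp (x * Real.log (Q i T)) := fun x => by
    rw [Real.rpow_def_of_pos hQ0, mul_comm]
  refine ⟨fun s _ => (H.diff i).analyticAt s, fun s hs => ?_, fun s hs => ?_, ?_⟩
  · refine (hcr i s (by linarith [hs.1])).trans ?_
    calc C * Q i s.im ≤ C * (κ * Q i T) := by gcongr; exact hnear _ hs.2.2
      _ = (C * κ) * Q i T := by ring
      _ ≤ Q i T * Q i T := by gcongr
      _ = Real.exp (2 * Real.log (Q i T)) := by rw [two_mul, Real.exp_add, Real.exp_log hQ0]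
  · obtain ⟨h1, h2⟩ := hright i T s hs.1 hs.2.2
    have h3 : K * Q i T ^ (δ / 2) ≤ Real.exp (δ * Real.log (Q i T)) := by
      rw [hrp]
      calc K * Real.exp (δ / 2 * Real.log (Q i T))
          ≤ Real.exp (δ / 2 * Real.log (Q i T)) * Real.exp (δ / 2 * Real.log (Q i T)) := by gcongr
        _ = _ := by rw [← Real.exp_add]; congr 1; ring
    constructor
    · have h4 : 1 ≤ Real.exp (δ * Real.log (Q i T)) * ‖L i s‖ :=
        h2.trans (mul_le_mul_of_nonneg_right h3 (norm_nonneg _))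
      rw [Real.exp_neg, inv_le_iff_one_le_mul₀ (Real.exp_pos _), mul_comm]
      exact h4
    · exact h1.trans h3
  · intro x t hx0 hx1 ht
    have h1 := hrefl i x t hx0 (by linarith)
    have e1 : (⟨1 / 2 - x, t⟩ : ℂ) = ((1 / 2 - x : ℝ) : ℂ) + t * I := by
      apply Complex.ext <;> simp
    have e2 : (⟨1 / 2 + x, t⟩ : ℂ) = ((1 / 2 + x : ℝ) : ℂ) + t * I := by
      apply Complex.ext <;> simp
    rw [e1, e2] at h1
    refine h1.trans (mul_le_mul_of_nonneg_right ?_ (norm_nonneg _))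
    have hQt := H.Q1 i t
    have h2 : Q i t ^ x ≤ κ * Q i T ^ x := by
      calc Q i t ^ x ≤ (κ * Q i T) ^ x := Real.rpow_le_rpow (by linarith) (hnear t ht) hx0
        _ = κ ^ x * Q i T ^ x := Real.mul_rpow (by linarith) hQ0.le
        _ ≤ κ * Q i T ^ x := by
          gcongr
          calc κ ^ x ≤ κ ^ (1 : ℝ) := Real.rpow_le_rpow_of_exponent_le hκ1 (by linarith)
            _ = κ := Real.rpow_one _
    calc C' * Q i t ^ x ≤ (C' + 1) * (κ * Q i T ^ x) := by gcongr; linarith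
      _ = ((C' + 1) * κ) * Real.exp (x * Real.log (Q i T)) := by rw [hrp]; ring
      _ ≤ Real.exp (δ * Real.log (Q i T)) * Real.exp (x * Real.log (Q i T)) := by gcongr
      _ = Real.exp ((1 * x + δ) * Real.log (Q i T)) := by rw [← Real.exp_add]; congr 1; ring

/-! ### The laws in terms of another conductor `X` with `Q = X ^ p` -/

/-- the multipliers at the height `T`, in terms of the conductor `X` -/
def MulX (G : ℂ → ℂ) (T X A B δ : ℝ) : Prop :=
  (∀ s : ℂ, 1 / 2 ≤ s.re → s.re ≤ 6 → |s.im - T| ≤ A → AnalyticAt ℂ G s ∧ ‖G s‖ ≤ X ^ B) ∧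
  (∀ s : ℂ, 3 ≤ s.re → s.re ≤ 6 → |s.im - T| ≤ A → X ^ (-δ) ≤ ‖G s‖ ∧ ‖G s‖ ≤ X ^ δ)

/-- data for a family -/
structure FamX (L : ι → ℂ → ℂ) (X : ι → ℝ → ℝ) (m p : ℝ) (Q : ι → ℝ → ℝ) : Prop where
  afam : AFam m L Q
  low : Low L Q
  p0 : 0 < p
  X1 : ∀ i t, 1 ≤ X i t
  QX : ∀ i t, Q i t = X i t ^ p

variable {X : ι → ℝ → ℝ} {p : ℝ}

/-- **the law** -/
theorem law_fam (H : FamX L X m p Q) (ε B : ℝ) (hε : 0 < ε) :
    ∃ δ A X₀ : ℝ, 0 < δ ∧ 0 < A ∧ 1 < X₀ ∧ ∀ (i : ι) (T : ℝ), X₀ ≤ X i T →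
      X i T ^ ε ≤ ‖L i (1 / 2 + T * I)‖ → ∀ G : ℂ → ℂ, MulX G T (X i T) A B δ →
        ∃ t : ℝ, |t - T| ≤ A ∧ X i T ^ δ ≤ ‖L i (1 / 2 + t * I) * G (1 / 2 + t * I)‖ := by
  have hp := H.p0
  obtain ⟨d, δ, A, L₀, hd, hd1, hδ, hA, hL₀, h⟩ := core (ε / p) (max (B / p) 2) 1 (by positivity) (by
    have := le_max_right (B / p) 2; linarith) zero_le_one
  obtain ⟨Q₀, hQ₀⟩ := reg_fam H.afam H.low d δ A hd hδ hA
  refine ⟨δ * p, A, max (max 3 (|Q₀| ^ (1 / p))) (Real.exp (L₀ / p)), by positivity, hA, by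
    have : (3 : ℝ) ≤ max (max 3 (|Q₀| ^ (1 / p))) (Real.exp (L₀ / p)) := (le_max_left _ _).trans (le_max_left _ _)
    linarith, ?_⟩
  intro i T hT hz G hG
  have hT3 : 3 ≤ X i T := ((le_max_left _ _).trans (le_max_left _ _)).trans hT
  have hTT : |Q₀| ^ (1 / p) ≤ X i T := ((le_max_right _ _).trans (le_max_left _ _)).trans hT
  have hTL : Real.exp (L₀ / p) ≤ X i T := (le_max_right _ _).trans hT
  have hX0 : 0 < X i T := by linarith
  have hQX := H.QX i T
  have hQ1 : Q₀ ≤ Q i T := by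
    rw [hQX]
    calc Q₀ ≤ |Q₀| := le_abs_self _
      _ = (|Q₀| ^ (1 / p)) ^ p := by
          rw [← Real.rpow_mul (abs_nonneg _), one_div, inv_mul_cancel₀ hp.ne', Real.rpow_one]
      _ ≤ X i T ^ p := Real.rpow_le_rpow (by positivity) hTT hp.le
  have hlog : Real.log (Q i T) = p * Real.log (X i T) := by rw [hQX, Real.log_rpow hX0]
  have hL : L₀ ≤ Real.log (Q i T) := by
    rw [hlog]
    have := (Real.le_log_iff_exp_le hX0).2 hTL
    rw [div_le_iff₀ hp] at this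
    linarith
  have hL1 : 0 ≤ Real.log (Q i T) := by linarith
  have hrp : ∀ x : ℝ, X i T ^ x = Real.exp (x / p * Real.log (Q i T)) := fun x => by
    rw [Real.rpow_def_of_pos hX0, hlog]
    congr 1
    field_simp
  have hM : Mul G T A (Real.log (Q i T)) (max (B / p) 2) δ := by
    refine ⟨fun s hs => (hG.1 s hs.1 hs.2.1 hs.2.2).1, fun s hs => ?_, fun s hs => ?_⟩
    · refine (hG.1 s hs.1 hs.2.1 hs.2.2).2.trans ?_
      rw [hrp]
      apply Real.exp_le_exp.2
      exact mul_le_mul_of_nonneg_right (le_max_left _ _) hL1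
    · have h1 := hG.2 s hs.1 hs.2.1 hs.2.2
      rw [hrp, hrp] at h1
      have e1 : -(δ * p) / p = -δ := by field_simp
      have e2 : δ * p / p = δ := by field_simp
      rw [e1, e2, neg_mul] at h1
      exact h1
  have e : ∀ t : ℝ, (((1 / 2 : ℝ) : ℂ) + t * I) = 1 / 2 + t * I := fun t => by push_cast; ring
  obtain ⟨t, ht1, ht2⟩ := h (Real.log (Q i T)) hL T (L i) G
    ((hQ₀ i T hQ1).mono (le_max_right _ _) hL1) hM (by rw [← hrp, e]; exact hz)
  refine ⟨t, ht1, ?_⟩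
  rw [hrp, show δ * p / p = δ by field_simp]
  rwa [e] at ht2

/-- `c ≤ X ^ δ` for large `X` -/
lemma const_le_rpow {c δ X : ℝ} (hδ : 0 < δ) (hc : 0 < c) (hX : Real.exp (Real.log c / δ) ≤ X) : c ≤ X ^ δ := by
  have hX0 : 0 < X := (Real.exp_pos _).trans_le hX
  rw [Real.rpow_def_of_pos hX0, mul_comm]
  exact const_le hδ hc hX

/-- **mollifiers** -/
theorem moll_fam (H : FamX L X m p Q) (ε B : ℝ) (hε : 0 < ε) :
    ∃ δ A X₀ : ℝ, 0 < δ ∧ 0 < A ∧ 1 < X₀ ∧ ∀ (i : ι) (T : ℝ), X₀ ≤ X i T →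
      X i T ^ ε ≤ ‖L i (1 / 2 + T * I)‖ →
      ∀ (N : ℕ) (b : ℕ → ℂ), 1 ≤ N → (N : ℝ) ≤ X i T ^ B → b 1 = 1 → (∀ n, ‖b n‖ ≤ n) →
        ∃ t : ℝ, |t - T| ≤ A ∧ X i T ^ δ ≤ ‖L i (1 / 2 + t * I) * dpol N b (1 / 2 + t * I)‖ := by
  obtain ⟨δ, A, X₀, hδ, hA, hX₀, h⟩ := law_fam H ε (2 * B) hε
  refine ⟨δ, A, max X₀ (Real.exp (Real.log 4 / δ)), hδ, hA, hX₀.trans_le (le_max_left _ _), ?_⟩
  intro i T hT hz N b hN1 hN hb1 hb
  have hTT : X₀ ≤ X i T := (le_max_left _ _).trans hT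
  have hX0 : 0 < X i T := by linarith
  have h4 : (4 : ℝ) ≤ X i T ^ δ := const_le_rpow hδ (by norm_num) ((le_max_right _ _).trans hT)
  refine h i T hTT hz (dpol N b) ⟨fun s hs1 hs2 hs3 => ⟨(dpol_diff N b).analyticAt s, ?_⟩,
    fun s hs1 hs2 hs3 => ?_⟩
  · refine (dpol_growth N b hb hs1).trans ?_
    calc (N : ℝ) ^ 2 ≤ (X i T ^ B) ^ 2 := by gcongr
      _ = X i T ^ (2 * B) := by
        rw [← Real.rpow_natCast (X i T ^ B) 2, ← Real.rpow_mul hX0.le]
        congr 1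
        push_cast
        ring
  · obtain ⟨h1, h2⟩ := dpol_right N hN1 b hb1 hb hs1
    constructor
    · refine le_trans ?_ h1
      rw [Real.rpow_neg hX0.le, one_div]
      exact inv_anti₀ (by norm_num) h4
    · linarith

/-- the Lindelöf hypothesis for a family -/
def GLH (L : ι → ℂ → ℂ) (X : ι → ℝ → ℝ) : Prop := ∀ ε : ℝ, 0 < ε → ∃ C : ℝ, ∀ (i : ι) (T : ℝ),
  ‖L i (1 / 2 + T * I)‖ ≤ C * X i T ^ ε

theorem GLH_of_large (H : FamX L X m p Q) (h : ∀ ε : ℝ, 0 < ε → ∃ X₀ : ℝ, ∀ (i : ι) (T : ℝ), X₀ ≤ X i T →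
    ‖L i (1 / 2 + T * I)‖ ≤ X i T ^ ε) : GLH L X := by
  intro ε hε
  obtain ⟨X₀, hX₀⟩ := h ε hε
  obtain ⟨C, hC, hcr⟩ := Pool.Agent.H983R4.GL.crude H.afam
  have hp := H.p0
  refine ⟨1 + C * |X₀| ^ p, fun i T => ?_⟩
  have hX1 := H.X1 i T
  have h1 : 1 ≤ X i T ^ ε := Real.one_le_rpow hX1 hε.le
  have h5 : 0 ≤ C * |X₀| ^ p := by positivity
  rcases le_total X₀ (X i T) with h2 | h2
  · have h3 := hX₀ i T h2
    have : 0 ≤ C * |X₀| ^ p * X i T ^ ε := by positivity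
    linarith
  · have h3 := hcr i (1 / 2 + T * I) (by simp; norm_num)
    have e : (1 / 2 + (T : ℂ) * I).im = T := by simp
    rw [e, H.QX] at h3
    have h4 : X i T ^ p ≤ |X₀| ^ p := Real.rpow_le_rpow (by linarith) (h2.trans (le_abs_self _)) hp.le
    calc _ ≤ C * X i T ^ p := h3
      _ ≤ C * |X₀| ^ p := by gcongr
      _ ≤ (1 + C * |X₀| ^ p) * 1 := by linarith
      _ ≤ _ := by gcongr

/-- **criterion** -/
theorem GLH_iff_moll (H : FamX L X m p Q) : GLH L X ↔ ∃ B : ℝ, ∀ δ A : ℝ, 0 < δ → 0 < A → ∃ X₀ : ℝ,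
    ∀ (i : ι) (T : ℝ), X₀ ≤ X i T → ∃ (N : ℕ) (b : ℕ → ℂ), 1 ≤ N ∧ (N : ℝ) ≤ X i T ^ B ∧ b 1 = 1 ∧
      (∀ n, ‖b n‖ ≤ n) ∧
      ∀ t : ℝ, |t - T| ≤ A → ‖L i (1 / 2 + t * I) * dpol N b (1 / 2 + t * I)‖ ≤ X i T ^ δ := by
  have hp := H.p0
  constructor
  · intro h
    refine ⟨0, fun δ A hδ hA => ?_⟩
    obtain ⟨C, hC⟩ := h (δ / 2) (by positivity)
    set κ : ℝ := ((1 + A) ^ m) ^ (1 / p) with hκ
    have hκ0 : 0 < κ := by positivity
    refine ⟨Real.exp (Real.log ((|C| + 1) * κ ^ (δ / 2)) / (δ / 2)), fun i T hT => ?_⟩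
    have hX1 := H.X1 i T
    have hX0 : 0 < X i T := by linarith
    have h2 : (|C| + 1) * κ ^ (δ / 2) ≤ X i T ^ (δ / 2) := const_le_rpow (by positivity) (by positivity) hT
    refine ⟨1, fun n => if n = 1 then 1 else 0, le_rfl, by simp, by simp, fun n => ?_, fun t ht => ?_⟩
    · by_cases hn : n = 1
      · simp [hn]
      · simp [hn]
    · have e : dpol 1 (fun n => if n = 1 then (1 : ℂ) else 0) (1 / 2 + t * I) = 1 := by
        unfold dpol; simp
      rw [e, mul_one]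
      refine (hC i t).trans ?_
      have hXt := H.X1 i t
      have h3 : X i t ≤ κ * X i T := by
        have h3 := Q_near H.afam (i := i) hA.le ht
        rw [H.QX, H.QX] at h3
        have h4 := Real.rpow_le_rpow (by positivity) h3 (show 0 ≤ 1 / p by positivity)
        rw [Real.mul_rpow (by positivity) (by positivity), ← Real.rpow_mul (by linarith),
          ← Real.rpow_mul hX0.le, mul_one_div_cancel hp.ne', Real.rpow_one, Real.rpow_one] at h4
        exact h4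
      have h4 : X i t ^ (δ / 2) ≤ κ ^ (δ / 2) * X i T ^ (δ / 2) := by
        rw [← Real.mul_rpow hκ0.le hX0.le]
        exact Real.rpow_le_rpow (by linarith) h3 (by positivity)
      have h6 : 0 ≤ X i t ^ (δ / 2) := by positivity
      calc C * X i t ^ (δ / 2) ≤ (|C| + 1) * X i t ^ (δ / 2) := by
            have : C ≤ |C| + 1 := by linarith [le_abs_self C]
            gcongr
        _ ≤ (|C| + 1) * (κ ^ (δ / 2) * X i T ^ (δ / 2)) := by gcongr
        _ = ((|C| + 1) * κ ^ (δ / 2)) * X i T ^ (δ / 2) := by ring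
        _ ≤ X i T ^ (δ / 2) * X i T ^ (δ / 2) := by gcongr
        _ = X i T ^ δ := by
          rw [← Real.rpow_add hX0]
          congr 1
          ring
  · rintro ⟨B, hB⟩
    refine GLH_of_large H fun ε hε => ?_
    obtain ⟨δ, A, X₀, hδ, hA, hX₀, h⟩ := moll_fam H ε B hε
    obtain ⟨X₁, hX₁⟩ := hB (δ / 2) A (by positivity) hA
    refine ⟨max X₀ X₁, fun i T hT => ?_⟩
    by_contra hcon
    push Not at hcon
    have hT0 : X₀ ≤ X i T := (le_max_left _ _).trans hT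
    obtain ⟨N, b, h1, h2, h3, h4, h5⟩ := hX₁ i T ((le_max_right _ _).trans hT)
    obtain ⟨t, ht1, ht2⟩ := h i T hT0 hcon.le N b h1 h2 h3 h4
    have h6 := ht2.trans (h5 t ht1)
    have h7 : X i T ^ (δ / 2) < X i T ^ δ := Real.rpow_lt_rpow_of_exponent_lt (by linarith) (by linarith)
    linarith

/-- **other members of the family** -/
theorem joint_fam (H : FamX L X m p Q) (ε E : ℝ) (k : ℕ) (hε : 0 < ε) (hE : 0 ≤ E) :
    ∃ δ A X₀ : ℝ, 0 < δ ∧ 0 < A ∧ 1 < X₀ ∧ ∀ (i : ι) (T : ℝ), X₀ ≤ X i T →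
      X i T ^ ε ≤ ‖L i (1 / 2 + T * I)‖ → ∀ (j : Fin k → ι) (a : Fin k → ℂ),
        (∀ l, 0 ≤ (a l).re) → (∀ l, X (j l) (T + (a l).im) ≤ X i T ^ E) →
        ∃ t : ℝ, |t - T| ≤ A ∧
          X i T ^ δ ≤ ‖L i (1 / 2 + t * I) * ∏ l, L (j l) (1 / 2 + t * I + a l)‖ := by
  have hp := H.p0
  obtain ⟨δ, A, X₀, hδ, hA, hX₀, h⟩ := law_fam H ε ((E * p + 1) * k) hε
  obtain ⟨C, hC, hcr⟩ := Pool.Agent.H983R4.GL.crude H.afam
  set δ' : ℝ := δ / (2 * (k + 1) * (E * p + 1)) with hδ'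
  have hδ'0 : 0 < δ' := by positivity
  obtain ⟨K, hK, hright⟩ := right_near H.afam H.low 2 δ' A (by norm_num) hδ'0 hA.le
  set κ : ℝ := (1 + A) ^ m with hκ
  have hκ0 : 0 < κ := by positivity
  have hE1 : 0 < E * p + 1 := by positivity
  set γ : ℝ := δ / (2 * (k + 1)) with hγ
  have hγ0 : 0 < γ := by positivity
  refine ⟨δ, A, max X₀ (max (C * κ) (Real.exp (Real.log K / γ))), hδ, hA, hX₀.trans_le (le_max_left _ _), ?_⟩
  intro i T hT hz j a ha hj
  have hTT : X₀ ≤ X i T := (le_max_left _ _).trans hT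
  have hX1 := H.X1 i T
  have hX0 : 0 < X i T := by linarith
  have hT2 : C * κ ≤ X i T := ((le_max_left _ _).trans (le_max_right _ _)).trans hT
  have hT3 : K ≤ X i T ^ γ := const_le_rpow hγ0 (by linarith) (((le_max_right _ _).trans (le_max_right _ _)).trans hT)
  have hQj : ∀ l, Q (j l) (T + (a l).im) ≤ X i T ^ (E * p) := fun l => by
    rw [H.QX, Real.rpow_mul hX0.le]
    exact Real.rpow_le_rpow (by linarith [H.X1 (j l) (T + (a l).im)]) (hj l) hp.le
  have hone : (1 : ℝ) ≤ X i T ^ (2 * γ) := Real.one_le_rpow hX1 (by positivity)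
  refine h i T hTT hz (fun s => ∏ l, L (j l) (s + a l)) ⟨fun s hs1 hs2 hs3 => ⟨?_, ?_⟩,
    fun s hs1 hs2 hs3 => ?_⟩
  · have : Differentiable ℂ fun s => ∏ l, L (j l) (s + a l) := by
      refine Differentiable.fun_finset_prod fun l _ => ?_
      have h1 := H.afam.diff (j l)
      exact h1.comp (differentiable_id.add_const _)
    exact this.analyticAt s
  · rw [norm_prod]
    calc ∏ l, ‖L (j l) (s + a l)‖ ≤ ∏ _l : Fin k, X i T ^ (E * p + 1) := by
          refine Finset.prod_le_prod (fun _ _ => norm_nonneg _) fun l _ => ?_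
          have h1 := hcr (j l) (s + a l) (by rw [Complex.add_re]; linarith [ha l])
          have h2 : Q (j l) (s + a l).im ≤ κ * Q (j l) (T + (a l).im) := by
            refine Q_near H.afam hA.le ?_
            rw [Complex.add_im]
            have e : s.im + (a l).im - (T + (a l).im) = s.im - T := by ring
            rw [e]
            exact hs3
          calc ‖L (j l) (s + a l)‖ ≤ C * Q (j l) (s + a l).im := h1
            _ ≤ C * (κ * X i T ^ (E * p)) := by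
                gcongr
                exact h2.trans (by gcongr; exact hQj l)
            _ = (C * κ) * X i T ^ (E * p) := by ring
            _ ≤ X i T * X i T ^ (E * p) := by gcongr
            _ = X i T ^ (E * p + 1) := by rw [Real.rpow_add hX0, Real.rpow_one, mul_comm]
      _ = X i T ^ ((E * p + 1) * k) := by
          rw [Finset.prod_const, Finset.card_univ, Fintype.card_fin, ← Real.rpow_natCast, ← Real.rpow_mul hX0.le]
  · rw [norm_prod]
    have hb : ∀ l, ‖L (j l) (s + a l)‖ ≤ X i T ^ (2 * γ) ∧ (X i T ^ (2 * γ))⁻¹ ≤ ‖L (j l) (s + a l)‖ := by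
      intro l
      have h1 := hright (j l) (T + (a l).im) (s + a l) (by rw [Complex.add_re]; linarith [ha l]) (by
        rw [Complex.add_im]
        have e : s.im + (a l).im - (T + (a l).im) = s.im - T := by ring
        rw [e]
        exact hs3)
      have h2 : K * Q (j l) (T + (a l).im) ^ δ' ≤ X i T ^ (2 * γ) := by
        have hQ1 := H.afam.Q1 (j l) (T + (a l).im)
        have h3 : Q (j l) (T + (a l).im) ^ δ' ≤ X i T ^ γ := by
          calc Q (j l) (T + (a l).im) ^ δ' ≤ (X i T ^ (E * p)) ^ δ' :=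
                Real.rpow_le_rpow (by linarith) (hQj l) hδ'0.le
            _ = X i T ^ (E * p * δ') := by rw [← Real.rpow_mul hX0.le]
            _ ≤ X i T ^ γ := by
              apply Real.rpow_le_rpow_of_exponent_le hX1
              have e : γ = (E * p + 1) * δ' := by rw [hγ, hδ']; field_simp
              rw [e]
              nlinarith
        calc K * Q (j l) (T + (a l).im) ^ δ' ≤ X i T ^ γ * X i T ^ γ := by gcongr
          _ = _ := by rw [← Real.rpow_add hX0]; congr 1; ring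
      refine ⟨h1.1.trans h2, ?_⟩
      rw [inv_le_iff_one_le_mul₀ (by positivity), mul_comm]
      exact h1.2.trans (mul_le_mul_of_nonneg_right h2 (norm_nonneg _))
    have hpow : (X i T ^ (2 * γ)) ^ k ≤ X i T ^ δ := by
      rw [← Real.rpow_natCast, ← Real.rpow_mul hX0.le]
      apply Real.rpow_le_rpow_of_exponent_le hX1
      rw [hγ]
      have : (0 : ℝ) ≤ k := by positivity
      rw [show 2 * (δ / (2 * ((k : ℝ) + 1))) * k = δ * (k / (k + 1)) by field_simp]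
      have h9 : (k : ℝ) / (k + 1) ≤ 1 := by rw [div_le_one (by positivity)]; linarith
      nlinarith
    constructor
    · calc X i T ^ (-δ) ≤ ((X i T ^ (2 * γ)) ^ k)⁻¹ := by
            rw [Real.rpow_neg hX0.le]
            exact inv_anti₀ (by positivity) hpow
        _ = ∏ _l : Fin k, (X i T ^ (2 * γ))⁻¹ := by
            rw [Finset.prod_const, Finset.card_univ, Fintype.card_fin, inv_pow]
        _ ≤ _ := Finset.prod_le_prod (fun _ _ => by positivity) fun l _ => (hb l).2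
    · calc ∏ l, ‖L (j l) (s + a l)‖ ≤ ∏ _l : Fin k, X i T ^ (2 * γ) :=
            Finset.prod_le_prod (fun _ _ => norm_nonneg _) fun l _ => (hb l).1
        _ = (X i T ^ (2 * γ)) ^ k := by rw [Finset.prod_const, Finset.card_univ, Fintype.card_fin]
        _ ≤ _ := hpow

end Pool.Agent.U575.MU
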