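import Pool.Agent.U575.MU.Mom
import Pool.Agent.U575.MU.DirLow

/-!
# Moments near a large value, for families
-/

set_option autoImplicit false

open Complex Set Filter Topology Metric MeasureTheory

namespace Pool.Agent.U575.MU

open H370 H370.Loc DH31
open Pool.Agent.H983R4.GL

/-- a large value of an analytic function gives a large moment -/
lemma moment_near {F : ℂ → ℂ} {t₁ K V : ℝ}
    (hF : ∀ z ∈ ball ((1 / 2 : ℂ) + t₁ * I) (1 / 4), AnalyticAt ℂ F z ∧ ‖F z‖ ≤ K)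
    (hV : 1 ≤ V) (hVF : V ≤ ‖F (1 / 2 + t₁ * I)‖) {a b : ℝ} (ha : a ≤ t₁ - 1) (hb : t₁ + 1 ≤ b)
    (hc : ContinuousOn (fun t : ℝ => ‖F (1 / 2 + t * I)‖) (Icc a b)) {p : ℝ} (hp : 0 < p) :
    (V / 2) ^ p / (4 * (2 * K + 1)) ≤ ∫ t in a..b, ‖F (1 / 2 + t * I)‖ ^ p := by
  have hK0 : 0 ≤ K := (norm_nonneg _).trans (hF _ (mem_ball_self (by norm_num))).2
  set r : ℝ := 1 / (8 * (2 * K + 1)) with hr
  have hr0 : 0 < r := by rw [hr]; positivity
  have hr1 : r ≤ 1 := by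
    rw [hr, div_le_one (by positivity)]; linarith
  have hlow : ∀ u : ℝ, |u - t₁| ≤ r → V / 2 ≤ ‖F (1 / 2 + u * I)‖ := by
    intro u hu
    have e1 : (1 / 2 + (u : ℂ) * I) - (1 / 2 + t₁ * I) = ((u - t₁ : ℝ) : ℂ) * I := by push_cast; ring
    refine near_large (F := F) (c := 1 / 2 + t₁ * I) (K := K) (V := V)
      (fun z hz => (hF z hz).1.differentiableAt.differentiableWithinAt) (fun z hz => (hF z hz).2) hV hVF ?_
    rw [e1, norm_mul, Complex.norm_I, mul_one, Complex.norm_real]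
    exact hu
  have hab : a ≤ b := by linarith
  have hint : IntervalIntegrable (fun t : ℝ => ‖F (1 / 2 + t * I)‖ ^ p) volume a b := by
    refine ContinuousOn.intervalIntegrable ?_
    rw [uIcc_of_le hab]
    exact hc.rpow_const fun _ _ => Or.inr hp.le
  have hmono : ∫ t in (t₁ - r)..(t₁ + r), ‖F (1 / 2 + t * I)‖ ^ p ≤ ∫ t in a..b, ‖F (1 / 2 + t * I)‖ ^ p :=
    intervalIntegral.integral_mono_interval (by linarith) (by linarith) (by linarith)
      (Eventually.of_forall fun t => by positivity) hint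
  refine le_trans ?_ hmono
  have hconst : ∫ _t in (t₁ - r)..(t₁ + r), (V / 2) ^ p ≤
      ∫ t in (t₁ - r)..(t₁ + r), ‖F (1 / 2 + t * I)‖ ^ p := by
    refine intervalIntegral.integral_mono_on (by linarith) intervalIntegrable_const
      (hint.mono_set ?_) fun u hu => ?_
    · rw [uIcc_of_le (by linarith), uIcc_of_le hab]
      exact Icc_subset_Icc (by linarith) (by linarith)
    · exact Real.rpow_le_rpow (by positivity) (hlow u (abs_le.2 ⟨by linarith [hu.1], by linarith [hu.2]⟩)) hp.le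
  refine le_trans (le_of_eq ?_) hconst
  rw [intervalIntegral.integral_const, smul_eq_mul]
  have h4 : t₁ + r - (t₁ - r) = 2 * r := by ring
  rw [h4, hr]
  field_simp
  norm_num

variable {ι : Type*} {L : ι → ℂ → ℂ} {Q X : ι → ℝ → ℝ} {m p : ℝ}

/-- multipliers, for moments -/
def MulY (G : ℂ → ℂ) (T X A B δ : ℝ) : Prop :=
  (∀ s : ℂ, 1 / 4 ≤ s.re → s.re ≤ 6 → |s.im - T| ≤ A → AnalyticAt ℂ G s ∧ ‖G s‖ ≤ X ^ B) ∧
  (∀ s : ℂ, 3 ≤ s.re → s.re ≤ 6 → |s.im - T| ≤ A → X ^ (-δ) ≤ ‖G s‖ ∧ ‖G s‖ ≤ X ^ δ)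

/-- **moments of every order detect a large value, whatever the multiplier, uniformly in the family** -/
theorem fam_moment (H : FamX L X m p Q) (ε B : ℝ) (hε : 0 < ε) :
    ∃ δ A C X₀ : ℝ, 0 < δ ∧ 0 < A ∧ 0 < C ∧ 1 < X₀ ∧ ∀ (i : ι) (T : ℝ), X₀ ≤ X i T →
      X i T ^ ε ≤ ‖L i (1 / 2 + T * I)‖ → ∀ G : ℂ → ℂ, MulY G T (X i T) A B δ → ∀ q : ℝ, 0 < q →
        X i T ^ (q * δ - C) ≤ ∫ t in (T - A)..(T + A), ‖L i (1 / 2 + t * I) * G (1 / 2 + t * I)‖ ^ q := by
  have hp := H.p0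
  obtain ⟨δ, A, X₀, hδ, hA, hX₀, hlaw⟩ := law_fam H ε (max B 0) hε
  obtain ⟨C₁, hC₁, hcr⟩ := Pool.Agent.H983R4.GL.crude H.afam
  set κ : ℝ := max 1 ((1 + (A + 1)) ^ m) with hκ
  have hκ1 : 1 ≤ κ := le_max_left _ _
  have hκ2 : (1 + (A + 1)) ^ m ≤ κ := le_max_right _ _
  set E : ℝ := p + 1 + max B 0 with hE
  have hB0 : 0 ≤ max B 0 := le_max_right _ _
  have hE0 : 0 < E := by positivity
  refine ⟨δ / 2, A + 1, E + 1, max (max X₀ (C₁ * κ)) (max (Real.exp (Real.log 2 / (δ / 2))) 12), by positivity,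
    by positivity, by positivity, hX₀.trans_le ((le_max_left _ _).trans (le_max_left _ _)), ?_⟩
  intro i T hT hz G hG q hq
  set Y : ℝ := X i T with hY
  have hTT : X₀ ≤ Y := ((le_max_left _ _).trans (le_max_left _ _)).trans hT
  have hTC : C₁ * κ ≤ Y := ((le_max_right _ _).trans (le_max_left _ _)).trans hT
  have hT2 : Real.exp (Real.log 2 / (δ / 2)) ≤ Y := ((le_max_left _ _).trans (le_max_right _ _)).trans hT
  have hT12 : 12 ≤ Y := ((le_max_right _ _).trans (le_max_right _ _)).trans hT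
  have hY0 : 0 < Y := by linarith
  have hY1 : 1 ≤ Y := by linarith
  have h2 : (2 : ℝ) ≤ Y ^ (δ / 2) := const_le_rpow (by positivity) (by norm_num) hT2
  have hBm : Y ^ B ≤ Y ^ (max B 0) := Real.rpow_le_rpow_of_exponent_le hY1 (le_max_left _ _)
  obtain ⟨t₁, ht1, ht2⟩ := hlaw i T hTT hz G
    ⟨fun s h1 h2 h3 => ⟨(hG.1 s (by linarith) h2 (by linarith)).1, (hG.1 s (by linarith) h2 (by linarith)).2.trans hBm⟩,
    fun s h1 h2 h3 => by
      have h4 := hG.2 s h1 h2 (by linarith)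
      exact ⟨(Real.rpow_le_rpow_of_exponent_le hY1 (by linarith)).trans h4.1,
        h4.2.trans (Real.rpow_le_rpow_of_exponent_le hY1 (by linarith))⟩⟩
  have ht1' := abs_le.1 ht1
  have hgz : ∀ z : ℂ, 1 / 4 ≤ z.re → z.re ≤ 3 / 4 → |z.im - T| ≤ A + 1 →
      AnalyticAt ℂ (fun s => L i s * G s) z ∧ ‖L i z * G z‖ ≤ Y ^ E := by
    intro z h1 h3 h4
    have h6 := hG.1 z h1 (by linarith) h4
    refine ⟨((H.afam.diff i).analyticAt z).mul h6.1, ?_⟩
    have h7 := hcr i z (by linarith)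
    have h8 : Q i z.im ≤ κ * Q i T := by
      refine (Q_near H.afam (by linarith : (0 : ℝ) ≤ A + 1) h4).trans ?_
      exact mul_le_mul_of_nonneg_right hκ2 (by linarith [H.afam.Q1 i T])
    have h9 : ‖L i z‖ ≤ Y ^ (p + 1) := by
      calc ‖L i z‖ ≤ C₁ * Q i z.im := h7
        _ ≤ C₁ * (κ * Q i T) := by gcongr
        _ = (C₁ * κ) * Y ^ p := by rw [H.QX i T]; ring
        _ ≤ Y * Y ^ p := by gcongr
        _ = Y ^ (p + 1) := by rw [Real.rpow_add hY0, Real.rpow_one, mul_comm]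
    rw [norm_mul]
    calc ‖L i z‖ * ‖G z‖ ≤ Y ^ (p + 1) * Y ^ (max B 0) :=
          mul_le_mul h9 (h6.2.trans hBm) (norm_nonneg _) (by positivity)
      _ = Y ^ E := by rw [← Real.rpow_add hY0]
  have hpt : ∀ t : ℝ, ((1 / 2 : ℂ) + t * I).re = 1 / 2 ∧ ((1 / 2 : ℂ) + t * I).im = t := by
    intro t
    constructor
    · simp
    · simp
  have hmain := moment_near (F := fun s => L i s * G s) (t₁ := t₁) (K := Y ^ E) (V := Y ^ δ)
    (a := T - (A + 1)) (b := T + (A + 1)) (p := q)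
    (fun z hz => by
      rw [mem_ball, dist_eq_norm] at hz
      have e1 := (Complex.abs_re_le_norm (z - (1 / 2 + t₁ * I))).trans hz.le
      have e2 := (Complex.abs_im_le_norm (z - (1 / 2 + t₁ * I))).trans hz.le
      rw [Complex.sub_re, (hpt t₁).1] at e1
      rw [Complex.sub_im, (hpt t₁).2] at e2
      have e3 := abs_le.1 e1
      have e4 := abs_le.1 e2
      exact hgz z (by linarith [e3.1]) (by linarith [e3.2])
        (abs_le.2 ⟨by linarith [e4.1, ht1'.1], by linarith [e4.2, ht1'.2]⟩))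
    (Real.one_le_rpow hY1 hδ.le) ht2 (by linarith [ht1'.1]) (by linarith [ht1'.2])
    (by
      intro t ht
      have h1 : ContinuousAt (fun s => L i s * G s) (1 / 2 + t * I) := by
        refine (hgz _ ?_ ?_ ?_).1.continuousAt
        · rw [(hpt t).1]; norm_num
        · rw [(hpt t).1]; norm_num
        · rw [(hpt t).2]
          exact abs_le.2 ⟨by linarith [ht.1], by linarith [ht.2]⟩
      have h2 : ContinuousAt (fun t : ℝ => (1 / 2 + (t : ℂ) * I)) t := by fun_prop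
      have h3 : ContinuousAt (fun t : ℝ => (fun s => L i s * G s) (1 / 2 + (t : ℂ) * I)) t :=
        ContinuousAt.comp (f := fun t : ℝ => (1 / 2 + (t : ℂ) * I)) (g := fun s => L i s * G s) h1 h2
      exact h3.norm.continuousWithinAt) hq
  refine le_trans ?_ hmain
  have hhalf : Y ^ (δ / 2) ≤ Y ^ δ / 2 := by
    have : Y ^ δ = Y ^ (δ / 2) * Y ^ (δ / 2) := by
      rw [← Real.rpow_add hY0]; congr 1; ring
    rw [this, le_div_iff₀ (by norm_num)]
    gcongr
  have hE1 : 1 ≤ Y ^ E := Real.one_le_rpow hY1 hE0.le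
  have hden : 4 * (2 * Y ^ E + 1) ≤ Y ^ (E + 1) := by
    have e : Y ^ (E + 1) = Y ^ E * Y := by rw [Real.rpow_add hY0 E 1, Real.rpow_one]
    rw [e]
    calc 4 * (2 * Y ^ E + 1) ≤ 12 * Y ^ E := by linarith
      _ ≤ Y ^ E * Y := by rw [mul_comm]; gcongr
  rw [le_div_iff₀ (by positivity)]
  calc Y ^ (q * (δ / 2) - (E + 1)) * (4 * (2 * Y ^ E + 1)) ≤ Y ^ (q * (δ / 2) - (E + 1)) * Y ^ (E + 1) := by gcongr
    _ = (Y ^ (δ / 2)) ^ q := by
        rw [← Real.rpow_add hY0, ← Real.rpow_mul hY0.le]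
        congr 1
        ring
    _ ≤ (Y ^ δ / 2) ^ q := by gcongr

end Pool.Agent.U575.MU
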