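import Pool.Agent.U575.MU.Dir

/-!
# Mollified moments of zeta
-/

set_option autoImplicit false

open Complex Set Filter Topology Metric MeasureTheory
open scoped ENNReal

namespace Pool.Agent.U575.MU

open H370 H370.Loc DH31

/-- values of a bounded analytic function near a point where it is large -/
lemma near_large {F : ℂ → ℂ} {c : ℂ} {K V : ℝ} (hd : DifferentiableOn ℂ F (ball c (1 / 4)))
    (hK : ∀ z ∈ ball c (1 / 4), ‖F z‖ ≤ K) (hV1 : 1 ≤ V) (hV : V ≤ ‖F c‖) {z : ℂ}
    (hz : ‖z - c‖ ≤ 1 / (8 * (2 * K + 1))) : V / 2 ≤ ‖F z‖ := by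
  have hK0 : 0 ≤ K := (norm_nonneg _).trans (hK c (mem_ball_self (by norm_num)))
  have hz1 : z ∈ ball c (1 / 4) := by
    rw [mem_ball, dist_eq_norm]
    refine hz.trans_lt ?_
    rw [div_lt_div_iff₀ (by positivity) (by norm_num)]
    nlinarith
  have hmaps : MapsTo F (ball c (1 / 4)) (ball (F c) (2 * K + 1)) := by
    intro w hw
    rw [mem_ball, dist_eq_norm]
    have h1 := norm_sub_le (F w) (F c)
    have h2 := hK w hw
    have h3 := hK c (mem_ball_self (by norm_num))
    linarith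
  have h := Complex.dist_le_div_mul_dist_of_mapsTo_ball hd (hmaps.mono_right ball_subset_closedBall) hz1
  rw [dist_eq_norm, dist_eq_norm] at h
  have h4 : (2 * K + 1) / (1 / 4) * ‖z - c‖ ≤ 1 / 2 := by
    calc (2 * K + 1) / (1 / 4) * ‖z - c‖ ≤ (2 * K + 1) / (1 / 4) * (1 / (8 * (2 * K + 1))) := by gcongr
      _ = 1 / 2 := by field_simp; norm_num
  have h5 : ‖F c‖ ≤ ‖F z‖ + ‖F z - F c‖ := by
    have := norm_sub_norm_le (F c) (F z)
    rw [norm_sub_rev] at this
    linarith
  linarith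

/-- **Moments of any order detect a large value of zeta, whatever the multiplier.** -/
theorem zeta_moment (ε B : ℝ) (hε : 0 < ε) :
    ∃ δ A C T₀ : ℝ, 0 < δ ∧ 0 < A ∧ 0 < C ∧ 1 < T₀ ∧ ∀ T : ℝ, T₀ ≤ T → T ^ ε ≤ ‖riemannZeta (1 / 2 + T * I)‖ →
      ∀ G : ℂ → ℂ,
        (∀ s : ℂ, 1 / 4 ≤ s.re → s.re ≤ 6 → |s.im - T| ≤ A → AnalyticAt ℂ G s ∧ ‖G s‖ ≤ T ^ B) →
        (∀ s : ℂ, 3 ≤ s.re → s.re ≤ 6 → |s.im - T| ≤ A → T ^ (-δ) ≤ ‖G s‖ ∧ ‖G s‖ ≤ T ^ δ) →
        ∀ p : ℝ, 0 < p → T ^ (p * δ - C) ≤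
          ∫ t in (T - A)..(T + A), ‖riemannZeta (1 / 2 + t * I) * G (1 / 2 + t * I)‖ ^ p := by
  obtain ⟨δ, A, T₀, hδ, hA, hT₀, hlaw⟩ := zeta_law ε (max B 0) hε
  refine ⟨δ / 2, A + 1, 3 + max B 0, max (max T₀ (2 * A + 20)) (Real.exp (Real.log 2 / (δ / 2))), by positivity,
    by positivity, by positivity, hT₀.trans_le ((le_max_left _ _).trans (le_max_left _ _)), ?_⟩
  intro T hT hz G hG1 hG2 p hp
  have hTT : T₀ ≤ T := ((le_max_left _ _).trans (le_max_left _ _)).trans hT
  have hTA : 2 * A + 20 ≤ T := ((le_max_right _ _).trans (le_max_left _ _)).trans hT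
  have hT0 : 0 < T := by linarith
  have hT1 : 1 ≤ T := by linarith
  have h2 : (2 : ℝ) ≤ T ^ (δ / 2) := by
    have := const_le (show 0 < δ / 2 by positivity) (by norm_num : (0 : ℝ) < 2) ((le_max_right _ _).trans hT)
    rwa [Real.rpow_def_of_pos hT0, mul_comm]
  have hBm : T ^ B ≤ T ^ (max B 0) := Real.rpow_le_rpow_of_exponent_le hT1 (le_max_left _ _)
  obtain ⟨t₁, ht1, ht2⟩ := hlaw T hTT hz G
    (fun s h1 h2 h3 => ⟨(hG1 s (by linarith) h2 (by linarith)).1, (hG1 s (by linarith) h2 (by linarith)).2.trans hBm⟩)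
    (fun s h1 h2 h3 => by
      have h4 := hG2 s h1 h2 (by linarith)
      exact ⟨(Real.rpow_le_rpow_of_exponent_le hT1 (by linarith)).trans h4.1,
        h4.2.trans (Real.rpow_le_rpow_of_exponent_le hT1 (by linarith))⟩)
  set F : ℂ → ℂ := fun s => riemannZeta s * G s with hF
  set c : ℂ := 1 / 2 + t₁ * I with hc
  have hcre : c.re = 1 / 2 := by simp [hc]
  have hcim : c.im = t₁ := by simp [hc]
  have ht1' := abs_le.1 ht1
  set K : ℝ := T ^ (2 + max B 0) with hK
  have hK1 : 1 ≤ K := Real.one_le_rpow hT1 (by positivity)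
  -- the box
  have hbox : ∀ z ∈ ball c (1 / 4), 1 / 4 ≤ z.re ∧ z.re ≤ 3 / 4 ∧ |z.im - T| ≤ A + 1 := by
    intro z hz
    rw [mem_ball, dist_eq_norm] at hz
    have e1 := (Complex.abs_re_le_norm (z - c)).trans hz.le
    have e2 := (Complex.abs_im_le_norm (z - c)).trans hz.le
    rw [Complex.sub_re, hcre] at e1
    rw [Complex.sub_im, hcim] at e2
    have e3 := abs_le.1 e1
    have e4 := abs_le.1 e2
    refine ⟨by linarith [e3.1], by linarith [e3.2], abs_le.2 ⟨by linarith [e4.1, ht1'.1], by linarith [e4.2, ht1'.2]⟩⟩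
  have hgz : ∀ z : ℂ, 1 / 4 ≤ z.re → z.re ≤ 3 / 4 → |z.im - T| ≤ A + 1 → AnalyticAt ℂ F z ∧ ‖F z‖ ≤ K := by
    intro z h1 h2 h3
    have h4 := abs_le.1 h3
    have h5 : 1 ≤ z.im := by linarith [h4.1]
    have h6 := hG1 z h1 (by linarith) h3
    refine ⟨(zeta_analyticAt (by linarith)).mul h6.1, ?_⟩
    have h7 := Pool.Agent.H388LH.zeta_growth h1 h5
    have h8 : ‖z‖ ≤ 3 * T := by
      refine (Complex.norm_le_abs_re_add_abs_im z).trans ?_
      rw [abs_of_nonneg (by linarith : 0 ≤ z.re), abs_of_nonneg (by linarith : 0 ≤ z.im)]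
      linarith [h4.2]
    have h9 : K = T ^ 2 * T ^ (max B 0) := by
      rw [hK, Real.rpow_add hT0]; norm_num
    rw [hF]
    simp only [norm_mul]
    rw [h9]
    have h10 : ‖riemannZeta z‖ ≤ T ^ 2 := by nlinarith
    exact mul_le_mul h10 (h6.2.trans hBm) (norm_nonneg _) (by positivity)
  have hV1 : 1 ≤ T ^ δ := Real.one_le_rpow hT1 hδ.le
  have hhalf : T ^ δ = T ^ (δ / 2) * T ^ (δ / 2) := by
    rw [← Real.rpow_add hT0]; congr 1; ring
  set r : ℝ := 1 / (8 * (2 * K + 1)) with hr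
  have hr0 : 0 < r := by rw [hr]; positivity
  have hr1 : r ≤ 1 := by
    rw [hr, div_le_one (by positivity)]; linarith
  have hlow : ∀ u : ℝ, |u - t₁| ≤ r → T ^ (δ / 2) ≤ ‖riemannZeta (1 / 2 + u * I) * G (1 / 2 + u * I)‖ := by
    intro u hu
    have e1 : (1 / 2 + (u : ℂ) * I) - c = ((u - t₁ : ℝ) : ℂ) * I := by rw [hc]; push_cast; ring
    have e2 : ‖(1 / 2 + (u : ℂ) * I) - c‖ ≤ r := by
      rw [e1, norm_mul, Complex.norm_I, mul_one, Complex.norm_real]
      exact hu
    have h3 := near_large (F := F) (c := c) (K := K) (V := T ^ δ)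
      (fun z hz => (hgz z (hbox z hz).1 (hbox z hz).2.1 (hbox z hz).2.2).1.differentiableAt.differentiableWithinAt)
      (fun z hz => (hgz z (hbox z hz).1 (hbox z hz).2.1 (hbox z hz).2.2).2) hV1 ht2 e2
    refine le_trans ?_ h3
    rw [hhalf]
    nlinarith
  -- continuity
  have hcont : ContinuousOn (fun t : ℝ => ‖riemannZeta (1 / 2 + t * I) * G (1 / 2 + t * I)‖ ^ p)
      (Icc (T - (A + 1)) (T + (A + 1))) := by
    intro t ht
    have h1 : ContinuousAt F (1 / 2 + t * I) := by
      refine (hgz _ ?_ ?_ ?_).1.continuousAt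
      · simp; norm_num
      · simp; norm_num
      · simp only [Complex.add_im, Complex.mul_im, Complex.ofReal_re, Complex.I_im, Complex.ofReal_im, Complex.I_re]
        norm_num
        exact abs_le.2 ⟨by linarith [ht.1], by linarith [ht.2]⟩
    have h2 : ContinuousAt (fun t : ℝ => (1 / 2 + (t : ℂ) * I)) t := by fun_prop
    have h3 : ContinuousAt (fun t : ℝ => F (1 / 2 + (t : ℂ) * I)) t :=
      ContinuousAt.comp (f := fun t : ℝ => (1 / 2 + (t : ℂ) * I)) (g := F) h1 h2
    exact (h3.norm.rpow_const (Or.inr hp.le)).continuousWithinAt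
  have hTA' : T - (A + 1) ≤ T + (A + 1) := by linarith
  have hint : IntervalIntegrable (fun t : ℝ => ‖riemannZeta (1 / 2 + t * I) * G (1 / 2 + t * I)‖ ^ p) volume
      (T - (A + 1)) (T + (A + 1)) := by
    refine ContinuousOn.intervalIntegrable ?_
    rwa [uIcc_of_le hTA']
  have hmono : ∫ t in (t₁ - r)..(t₁ + r), ‖riemannZeta (1 / 2 + t * I) * G (1 / 2 + t * I)‖ ^ p ≤
      ∫ t in (T - (A + 1))..(T + (A + 1)), ‖riemannZeta (1 / 2 + t * I) * G (1 / 2 + t * I)‖ ^ p :=
    intervalIntegral.integral_mono_interval (by linarith [ht1'.1]) (by linarith) (by linarith [ht1'.2])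
      (Eventually.of_forall fun t => by positivity) hint
  refine le_trans ?_ hmono
  have hconst : ∫ _t in (t₁ - r)..(t₁ + r), (T ^ (δ / 2)) ^ p ≤
      ∫ t in (t₁ - r)..(t₁ + r), ‖riemannZeta (1 / 2 + t * I) * G (1 / 2 + t * I)‖ ^ p := by
    refine intervalIntegral.integral_mono_on (by linarith) intervalIntegrable_const
      (hint.mono_set ?_) fun u hu => ?_
    · rw [uIcc_of_le (by linarith), uIcc_of_le hTA']
      exact Icc_subset_Icc (by linarith [ht1'.1]) (by linarith [ht1'.2])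
    · exact Real.rpow_le_rpow (by positivity) (hlow u (abs_le.2 ⟨by linarith [hu.1], by linarith [hu.2]⟩)) hp.le
  refine le_trans ?_ hconst
  rw [intervalIntegral.integral_const, smul_eq_mul, ← Real.rpow_mul hT0.le]
  have h3 : T ^ (p * (δ / 2) - (3 + max B 0)) = (T * K)⁻¹ * T ^ (δ / 2 * p) := by
    have e1 : T * K = T ^ (3 + max B 0) := by
      rw [hK]
      nth_rewrite 1 [← Real.rpow_one T]
      rw [← Real.rpow_add hT0]
      congr 1
      ring
    rw [e1, ← Real.rpow_neg hT0.le, ← Real.rpow_add hT0]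
    congr 1
    ring
  rw [h3]
  refine mul_le_mul_of_nonneg_right ?_ (by positivity)
  have h4 : t₁ + r - (t₁ - r) = 2 * r := by ring
  rw [h4, hr, inv_eq_one_div]
  have h5 : 2 * (1 / (8 * (2 * K + 1))) = 1 / (4 * (2 * K + 1)) := by field_simp; norm_num
  rw [h5]
  refine one_div_le_one_div_of_le (by positivity) ?_
  nlinarith

/-- a local lower bound integrates to a bound for the measure -/
lemma conv_bound {φ : ℝ → ℝ≥0∞} (hφ : Measurable φ) {E : Set ℝ} (hE : MeasurableSet E) {a b A : ℝ}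
    (hab : E ⊆ Icc a b) {c : ℝ≥0∞} (h : ∀ t ∈ E, c ≤ ∫⁻ u in Icc (t - A) (t + A), φ u) :
    c * volume E ≤ ENNReal.ofReal (2 * A) * ∫⁻ u in Icc (a - A) (b + A), φ u := by
  set S : Set (ℝ × ℝ) := {x | x.2 - x.1 ≤ A ∧ x.1 - x.2 ≤ A} with hS
  have hSm : MeasurableSet S :=
    (measurableSet_le (measurable_snd.sub measurable_fst) measurable_const).inter
      (measurableSet_le (measurable_fst.sub measurable_snd) measurable_const)
  set f : ℝ → ℝ → ℝ≥0∞ := fun t u => S.indicator (fun x => φ x.2) (t, u) with hf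
  have hfm : Measurable (Function.uncurry f) := by
    have : Function.uncurry f = S.indicator (fun x => φ x.2) := by
      ext x; rfl
    rw [this]
    exact (hφ.comp measurable_snd).indicator hSm
  have h1 : ∀ t : ℝ, ∫⁻ u, f t u = ∫⁻ u in Icc (t - A) (t + A), φ u := by
    intro t
    rw [← lintegral_indicator measurableSet_Icc]
    congr 1
    ext u
    simp only [hf, hS, Set.indicator, mem_ofPred_eq, mem_Icc]
    congr 1
    simp only [eq_iff_iff]
    constructor
    · rintro ⟨h1, h2⟩; exact ⟨by linarith, by linarith⟩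
    · rintro ⟨h1, h2⟩; exact ⟨by linarith, by linarith⟩
  calc c * volume E = ∫⁻ _t in E, c := by rw [setLIntegral_const]
    _ ≤ ∫⁻ t in E, ∫⁻ u, f t u := by
        refine setLIntegral_mono' hE fun t ht => ?_
        rw [h1 t]
        exact h t ht
    _ = ∫⁻ u, ∫⁻ t in E, f t u := lintegral_lintegral_swap hfm.aemeasurable
    _ ≤ ∫⁻ u, (Icc (a - A) (b + A)).indicator (fun u => ENNReal.ofReal (2 * A) * φ u) u := by
        refine lintegral_mono fun u => ?_
        by_cases hu : u ∈ Icc (a - A) (b + A)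
        · rw [indicator_of_mem hu]
          calc ∫⁻ t in E, f t u ≤ ∫⁻ t, f t u := setLIntegral_le_lintegral _ _
            _ = ∫⁻ t in Icc (u - A) (u + A), φ u := by
                rw [← lintegral_indicator measurableSet_Icc]
                congr 1
                ext t
                simp only [hf, hS, Set.indicator, mem_ofPred_eq, mem_Icc]
                congr 1
                simp only [eq_iff_iff]
                constructor
                · rintro ⟨h1, h2⟩; exact ⟨by linarith, by linarith⟩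
                · rintro ⟨h1, h2⟩; exact ⟨by linarith, by linarith⟩
            _ = ENNReal.ofReal (2 * A) * φ u := by
                rw [setLIntegral_const, Real.volume_Icc, mul_comm]
                congr 2
                ring
        · rw [indicator_of_notMem hu]
          refine le_of_eq ?_
          refine (setLIntegral_congr_fun (g := fun _ => 0) hE fun t ht => ?_).trans (by simp)
          have h2 := hab ht
          simp only [hf, hS]
          rw [indicator_of_notMem]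
          rintro ⟨h3, h4⟩
          simp only at h3 h4
          exact hu ⟨by linarith [h2.1], by linarith [h2.2]⟩
    _ = ENNReal.ofReal (2 * A) * ∫⁻ u in Icc (a - A) (b + A), φ u := by
        rw [lintegral_indicator measurableSet_Icc, lintegral_const_mul _ hφ]

/-- **Moments of any order of `ζ G` bound the measure of the large values of zeta.** -/
theorem zeta_measure (ε B : ℝ) (hε : 0 < ε) :
    ∃ δ C T₀ : ℝ, 0 < δ ∧ 0 < C ∧ 1 < T₀ ∧ ∀ T : ℝ, T₀ ≤ T →
      ∀ G : ℂ → ℂ,
        (∀ s : ℂ, 1 / 4 ≤ s.re → s.re ≤ 6 → T / 2 ≤ s.im → s.im ≤ 3 * T → AnalyticAt ℂ G s ∧ ‖G s‖ ≤ T ^ B) →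
        (∀ s : ℂ, 3 ≤ s.re → s.re ≤ 6 → T / 2 ≤ s.im → s.im ≤ 3 * T → T ^ (-δ) ≤ ‖G s‖ ∧ ‖G s‖ ≤ T ^ δ) →
        ∀ p : ℝ, 0 < p →
          volume.real {t : ℝ | T ≤ t ∧ t ≤ 2 * T ∧ t ^ ε ≤ ‖riemannZeta (1 / 2 + t * I)‖} ≤
          T ^ (C - p * δ) * ∫ t in (T / 2)..(3 * T), ‖riemannZeta (1 / 2 + t * I) * G (1 / 2 + t * I)‖ ^ p := by
  obtain ⟨δ, A, C, T₀, hδ, hA, hC, hT₀, hlaw⟩ := zeta_moment ε (max B 0) hε
  refine ⟨δ, 2 * C + 1, max T₀ (2 * A + 20), hδ, by positivity, hT₀.trans_le (le_max_left _ _), ?_⟩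
  intro T hT G hG1 hG2 p hp
  have hTT : T₀ ≤ T := (le_max_left _ _).trans hT
  have hTA : 2 * A + 20 ≤ T := (le_max_right _ _).trans hT
  have hT0 : 0 < T := by linarith
  have hT1 : 1 ≤ T := by linarith
  set g : ℝ → ℝ := fun t => ‖riemannZeta (1 / 2 + t * I) * G (1 / 2 + t * I)‖ ^ p with hg
  -- continuity
  have hcont : ContinuousOn g (Icc (T / 2) (3 * T)) := by
    intro t ht
    have h1 : ContinuousAt (fun s => riemannZeta s * G s) (1 / 2 + t * I) := by
      have h2 : (1 / 2 + (t : ℂ) * I).re = 1 / 2 := by simp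
      have h3 : (1 / 2 + (t : ℂ) * I).im = t := by simp
      refine ((zeta_analyticAt ?_).mul (hG1 _ ?_ ?_ ?_ ?_).1).continuousAt
      · rw [h3]; linarith [ht.1]
      · rw [h2]; norm_num
      · rw [h2]; norm_num
      · rw [h3]; exact ht.1
      · rw [h3]; exact ht.2
    have h2 : ContinuousAt (fun t : ℝ => (1 / 2 + (t : ℂ) * I)) t := by fun_prop
    have h3 : ContinuousAt (fun t : ℝ => riemannZeta (1 / 2 + (t : ℂ) * I) * G (1 / 2 + (t : ℂ) * I)) t :=
      ContinuousAt.comp (f := fun t : ℝ => (1 / 2 + (t : ℂ) * I)) (g := fun s => riemannZeta s * G s) h1 h2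
    exact (h3.norm.rpow_const (Or.inr hp.le)).continuousWithinAt
  set cl : ℝ → ℝ := fun t => max (T / 2) (min (3 * T) t) with hcl
  have hclc : Continuous cl := by fun_prop
  have hclm : ∀ t, cl t ∈ Icc (T / 2) (3 * T) := fun t =>
    ⟨le_max_left _ _, max_le (by linarith) (min_le_left _ _)⟩
  have hcle : ∀ t ∈ Icc (T / 2) (3 * T), cl t = t := fun t ht => by
    simp only [hcl]
    rw [min_eq_right ht.2, max_eq_right ht.1]
  set φ : ℝ → ℝ≥0∞ := fun t => ENNReal.ofReal (g (cl t)) with hφ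
  have hφm : Measurable φ :=
    ENNReal.measurable_ofReal.comp (hcont.comp_continuous hclc hclm).measurable
  set E : Set ℝ := {t : ℝ | T ≤ t ∧ t ≤ 2 * T ∧ t ^ ε ≤ ‖riemannZeta (1 / 2 + t * I)‖} with hE
  have hEm : MeasurableSet E := by
    have h1 : MeasurableSet {t : ℝ | t ^ ε ≤ ‖riemannZeta (1 / 2 + t * I)‖} :=
      measurableSet_le (by fun_prop) zeta_half_cont.norm.measurable
    have : E = Icc T (2 * T) ∩ {t : ℝ | t ^ ε ≤ ‖riemannZeta (1 / 2 + t * I)‖} := by
      ext t
      simp only [hE, mem_ofPred_eq, mem_inter_iff, mem_Icc, and_assoc]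
    rw [this]
    exact measurableSet_Icc.inter h1
  have hEs : E ⊆ Icc T (2 * T) := fun t ht => ⟨ht.1, ht.2.1⟩
  have hintg : ∀ a b : ℝ, T / 2 ≤ a → a ≤ b → b ≤ 3 * T →
      ∫⁻ u in Icc a b, φ u = ENNReal.ofReal (∫ u in a..b, g u) := by
    intro a b ha hab hb
    have hsub : Icc a b ⊆ Icc (T / 2) (3 * T) := Icc_subset_Icc ha hb
    have hi : IntegrableOn g (Icc a b) := (hcont.mono hsub).integrableOn_compact isCompact_Icc
    rw [intervalIntegral.integral_of_le hab, ← integral_Icc_eq_integral_Ioc,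
      ofReal_integral_eq_lintegral_ofReal hi (Eventually.of_forall fun t => by simp only [hg]; positivity)]
    refine setLIntegral_congr_fun measurableSet_Icc fun t ht => ?_
    simp only [hφ]
    rw [hcle t (hsub ht)]
  have hkey := conv_bound hφm hEm hEs (A := A) (c := ENNReal.ofReal (T ^ (p * δ - 2 * C))) (fun t ht => by
    have htT : T ≤ t := ht.1
    have ht2 : t ≤ 2 * T := ht.2.1
    have ht0 : 0 < t := by linarith
    rw [hintg _ _ (by linarith) (by linarith) (by linarith)]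
    refine ENNReal.ofReal_le_ofReal ?_
    have h1 := hlaw t (hTT.trans htT) ht.2.2 G
      (fun s h1 h2 h3 => by
        have h4 := abs_le.1 h3
        have h5 := hG1 s h1 h2 (by linarith [h4.1]) (by linarith [h4.2])
        refine ⟨h5.1, h5.2.trans ?_⟩
        exact (Real.rpow_le_rpow_of_exponent_le hT1 (le_max_left _ _)).trans
          (Real.rpow_le_rpow hT0.le htT (le_max_right _ _)))
      (fun s h1 h2 h3 => by
        have h4 := abs_le.1 h3
        have h5 := hG2 s h1 h2 (by linarith [h4.1]) (by linarith [h4.2])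
        refine ⟨le_trans ?_ h5.1, h5.2.trans (Real.rpow_le_rpow hT0.le htT hδ.le)⟩
        exact Real.rpow_le_rpow_of_nonpos hT0 htT (by linarith)) p hp
    refine le_trans ?_ h1
    have h6 : t ^ (p * δ - C) = t ^ (p * δ) * t ^ (-C) := by
      rw [← Real.rpow_add ht0]; congr 1
    have h7 : T ^ (p * δ - 2 * C) = T ^ (p * δ) * T ^ (-(2 * C)) := by
      rw [← Real.rpow_add hT0]; congr 1
    rw [h6, h7]
    have h8 : T ^ (p * δ) ≤ t ^ (p * δ) := Real.rpow_le_rpow hT0.le htT (by positivity)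
    have h9 : T ^ (-(2 * C)) ≤ t ^ (-C) := by
      have e1 : T ^ (-(2 * C)) = (T ^ (2 : ℝ)) ^ (-C) := by
        rw [← Real.rpow_mul hT0.le]; congr 1; ring
      rw [e1]
      refine Real.rpow_le_rpow_of_nonpos ht0 ?_ (by linarith)
      rw [Real.rpow_two]
      nlinarith
    exact mul_le_mul h8 h9 (by positivity) (by positivity))
  rw [hintg _ _ (by linarith) (by linarith) (by linarith)] at hkey
  have hEf : volume E ≠ ∞ := ((measure_mono hEs).trans_lt measure_Icc_lt_top).ne
  have hI : ∫ u in (T - A)..(2 * T + A), g u ≤ ∫ u in (T / 2)..(3 * T), g u := by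
    refine intervalIntegral.integral_mono_interval (by linarith) (by linarith) (by linarith)
      (Eventually.of_forall fun t => by simp only [hg, Pi.zero_apply]; positivity) ?_
    refine ContinuousOn.intervalIntegrable ?_
    rwa [uIcc_of_le (by linarith)]
  have hI0 : 0 ≤ ∫ u in (T - A)..(2 * T + A), g u :=
    intervalIntegral.integral_nonneg (by linarith) fun t _ => by simp only [hg]; positivity
  have hreal : T ^ (p * δ - 2 * C) * volume.real E ≤ 2 * A * ∫ u in (T - A)..(2 * T + A), g u := by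
    have h1 := ENNReal.toReal_mono (ENNReal.mul_ne_top ENNReal.ofReal_ne_top ENNReal.ofReal_ne_top) hkey
    rwa [ENNReal.toReal_mul, ENNReal.toReal_mul, ENNReal.toReal_ofReal (by positivity),
      ENNReal.toReal_ofReal (by positivity), ENNReal.toReal_ofReal hI0] at h1
  have h10 : T ^ (2 * C + 1 - p * δ) = T * (T ^ (p * δ - 2 * C))⁻¹ := by
    rw [← Real.rpow_neg hT0.le]
    nth_rewrite 2 [← Real.rpow_one T]
    rw [← Real.rpow_add hT0]
    congr 1
    ring
  rw [h10]
  have h11 : 0 < T ^ (p * δ - 2 * C) := by positivity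
  have h12 : T ^ (p * δ - 2 * C) * volume.real E ≤ T * ∫ u in (T / 2)..(3 * T), g u :=
    hreal.trans (mul_le_mul (by linarith) hI hI0 hT0.le)
  calc volume.real E = (T ^ (p * δ - 2 * C))⁻¹ * (T ^ (p * δ - 2 * C) * volume.real E) := by
        field_simp
    _ ≤ (T ^ (p * δ - 2 * C))⁻¹ * (T * ∫ u in (T / 2)..(3 * T), g u) := by gcongr
    _ = _ := by ring

end Pool.Agent.U575.MU
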