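import Pool.Agent.U575.MU.Nev2

/-!
# Small functions: the criterion
-/

set_option autoImplicit false

open Complex Set Filter Topology Metric

namespace Pool.Agent.U575.MU

open H370 H370.Loc DH31

/-- small values imply few zeros (Jensen's formula and a covering) -/
lemma few_of_small (η d H A : ℝ) (hη : 0 < η) (hd : 0 < d) (hd1 : d ≤ 1 / 24) (hH : 3 ≤ H) (hA : 0 < A) :
    ∃ ν : ℝ, 0 < ν ∧ ∀ L : ℝ, 0 ≤ L → ∀ (F : ℂ → ℂ) (T : ℝ),
      (∀ z : ℂ, 1 / 2 + d / 2 ≤ z.re → z.re ≤ 2 * H + 2 → |z.im - T| ≤ A + H + 1 →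
        AnalyticAt ℂ F z ∧ ‖F z‖ ≤ Real.exp (ν * L)) →
      (∀ z : ℂ, z.re = H + 1 → |z.im - T| ≤ A + H + 1 → Real.exp (-(ν * L)) ≤ ‖F z‖) →
      ∀ S : Finset ℂ, (∀ z ∈ S, 1 / 2 + d ≤ z.re ∧ z.re ≤ 2 * H + 3 / 2 - d ∧ |z.im - T| ≤ A) →
        ∑ z ∈ S, (mult F z : ℝ) ≤ η * L := by
  set r : ℝ := H + 1 / 2 - 3 * d / 4 with hr
  set R : ℝ := H + 1 / 2 - d / 2 with hR
  have hr0 : 0 < r := by linarith
  have hrR : r < R := by linarith
  set lam : ℝ := Real.log (R / r) with hlam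
  have hlam0 : 0 < lam := Real.log_pos (by rw [lt_div_iff₀ hr0]; linarith)
  set N : ℕ := ⌊2 * A / d⌋₊ + 1 with hN
  have hN0 : (0 : ℝ) < N := by rw [hN]; positivity
  refine ⟨η * lam / (2 * N), by positivity, ?_⟩
  intro L hL F T hF1 hF2 S hS
  set ν : ℝ := η * lam / (2 * N) with hν
  have hν0 : 0 < ν := by positivity
  set g : ℂ → ℕ := fun z => ⌊(z.im - T + A) / d⌋₊ with hg
  have hmaps : ∀ z ∈ S, g z ∈ Finset.range N := by
    intro z hz
    have h1 := abs_le.1 (hS z hz).2.2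
    rw [Finset.mem_range, hN, Nat.lt_succ_iff]
    apply Nat.floor_le_floor
    gcongr
    linarith [h1.2]
  rw [← Finset.sum_fiberwise_of_maps_to hmaps]
  have hfib : ∀ k ∈ Finset.range N, ∑ z ∈ S with g z = k, (mult F z : ℝ) ≤ 2 * (ν * L) / lam := by
    intro k hk
    have hk' : (k : ℝ) ≤ 2 * A / d := by
      have h1 := Finset.mem_range.1 hk
      rw [hN, Nat.lt_succ_iff] at h1
      exact (Nat.le_floor_iff (by positivity)).1 h1
    have hkd : (k : ℝ) * d ≤ 2 * A := by rwa [le_div_iff₀ hd] at hk'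
    set t : ℝ := T - A + (k + 1 / 2) * d with ht
    have hk0 : (0 : ℝ) ≤ k * d := by positivity
    have htT : |t - T| ≤ A + d / 2 := by
      rw [abs_le, ht]
      constructor <;> linarith
    have htT' := abs_le.1 htT
    have hball : ∀ w ∈ closedBall (⟨H + 1, t⟩ : ℂ) R, 1 / 2 + d / 2 ≤ w.re ∧ w.re ≤ 2 * H + 2 ∧
        |w.im - T| ≤ A + H + 1 := by
      intro w hw
      obtain ⟨h1, h2, h3⟩ := ball_mem hw
      have h4 := abs_le.1 h3
      exact ⟨by linarith, by linarith, abs_le.2 ⟨by linarith [h4.1, htT'.1], by linarith [h4.2, htT'.2]⟩⟩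
    have hc := hF2 ⟨H + 1, t⟩ rfl (by simp only; exact htT.trans (by linarith))
    have hc0 : F ⟨H + 1, t⟩ ≠ 0 := by
      intro h
      rw [h, norm_zero] at hc
      exact absurd hc (not_le.2 (Real.exp_pos _))
    have hj := jensen_mult (f := F) (c := ⟨H + 1, t⟩) (r := r) (R := R) (M := Real.exp (ν * L)) hr0 hrR
      (Real.one_le_exp (by positivity))
      (fun w hw => (hF1 w (hball w hw).1 (hball w hw).2.1 (hball w hw).2.2).1) hc0
      (fun w hw => (hF1 w (hball w hw).1 (hball w hw).2.1 (hball w hw).2.2).2)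
      (S.filter fun z => g z = k) (by
        intro z hz
        obtain ⟨hz1, hz2⟩ := Finset.mem_filter.1 hz
        obtain ⟨h1, h2, h3⟩ := hS z hz1
        have h3' := abs_le.1 h3
        have hx0 : 0 ≤ (z.im - T + A) / d := div_nonneg (by linarith [h3'.1]) hd.le
        have e1 : (k : ℝ) ≤ (z.im - T + A) / d := by
          rw [← hz2]; exact Nat.floor_le hx0
        have e2 : (z.im - T + A) / d < k + 1 := by
          rw [← hz2]; exact Nat.lt_floor_add_one _
        rw [le_div_iff₀ hd] at e1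
        rw [div_lt_iff₀ hd] at e2
        have e3 : |z.im - t| ≤ d / 2 := by
          rw [abs_le, ht]
          constructor <;> linarith
        have e4 : |z.re - (H + 1)| ≤ H + 1 / 2 - d := by
          rw [abs_le]; constructor <;> linarith
        rw [mem_closedBall, dist_eq_norm]
        rw [← sq_le_sq₀ (norm_nonneg _) hr0.le, Complex.sq_norm, Complex.normSq_apply]
        simp only [Complex.sub_re, Complex.sub_im]
        have e5 : (z.re - (H + 1)) * (z.re - (H + 1)) ≤ (H + 1 / 2 - d) ^ 2 := by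
          rw [← sq, ← sq_abs]
          exact pow_le_pow_left₀ (abs_nonneg _) e4 2
        have e6 : (z.im - t) * (z.im - t) ≤ (d / 2) ^ 2 := by
          rw [← sq, ← sq_abs]
          exact pow_le_pow_left₀ (abs_nonneg _) e3 2
        have e7 : (H + 1 / 2 - d) ^ 2 + (d / 2) ^ 2 ≤ r ^ 2 := by
          have : r ^ 2 - (H + 1 / 2 - d) ^ 2 = d / 4 * (2 * H + 1 - 7 * d / 4) := by rw [hr]; ring
          have h8 : d * 1 ≤ d * (2 * H + 1 - 7 * d / 4 - d) := by
            apply mul_le_mul_of_nonneg_left _ hd.le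
            linarith
          have h9 : (0 : ℝ) ≤ d := hd.le
          have h10 : (d / 2) ^ 2 = d * d / 4 := by ring
          have h11 : d * (2 * H + 1 - 7 * d / 4 - d) = d * (2 * H + 1 - 7 * d / 4) - d * d := by ring
          linarith
        linarith)
    refine hj.trans ?_
    rw [← hlam]
    apply div_le_div_of_nonneg_right _ hlam0.le
    have hcp : 0 < ‖F ⟨H + 1, t⟩‖ := norm_pos_iff.2 hc0
    rw [Real.log_div (Real.exp_pos _).ne' hcp.ne', Real.log_exp]
    have h5 : -(ν * L) ≤ Real.log ‖F ⟨H + 1, t⟩‖ := by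
      rw [← Real.log_exp (-(ν * L))]
      exact Real.log_le_log (Real.exp_pos _) hc
    linarith
  refine (Finset.sum_le_sum hfib).trans (le_of_eq ?_)
  rw [Finset.sum_const, Finset.card_range, nsmul_eq_mul, hν]
  field_simp

/-- small values of zeta on the critical line imply small derivatives to the right of it -/
lemma Dz_small (m : ℕ) (κ d H A : ℝ) (hκ : 0 < κ) (hd : 0 < d) (hd1 : d ≤ 1 / 24) (hA : 0 < A) :
    ∃ δ A' T₀ : ℝ, 0 < δ ∧ 0 < A' ∧ ∀ T : ℝ, T₀ ≤ T →
      (∀ t : ℝ, |t - T| ≤ A' → ‖riemannZeta (1 / 2 + t * I)‖ ≤ T ^ δ) →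
      ∀ z : ℂ, 1 / 2 + d / 2 ≤ z.re → |z.im - T| ≤ A → ‖Dz m z‖ ≤ T ^ κ := by
  set A' : ℝ := max (2 * (A + 1)) (2 * (5 / 2) / (κ / 8)) with hA'
  have hA'1 : 2 * (A + 1) ≤ A' := le_max_left _ _
  have hA'2 : 2 * (5 / 2) / (κ / 8) ≤ A' := le_max_right _ _
  have hA'0 : 0 < A' := by linarith
  obtain ⟨T₁, hT₁⟩ := reg_zeta 1 (κ / 4) A' one_pos (by positivity) hA'0
  obtain ⟨c, hc1, hc⟩ := zeta_bounds (a := 3) (by norm_num)
  set c₁ : ℝ := m.factorial / (d / 2) ^ m with hc₁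
  have hc₁0 : 0 < c₁ := by positivity
  refine ⟨κ / 4, A', max (max T₁ (A' + 20)) (max (Real.exp (Real.log c / (κ / 4))) (Real.exp (Real.log c₁ / (κ / 4)))),
    by positivity, hA'0, ?_⟩
  intro T hT hz z hz1 hz2
  have hTT : T₁ ≤ T := ((le_max_left _ _).trans (le_max_left _ _)).trans hT
  have hTA : A' + 20 ≤ T := ((le_max_right _ _).trans (le_max_left _ _)).trans hT
  have hT0 : 0 < T := by linarith
  set L : ℝ := Real.log T with hL
  have hL0 : 0 < L := Real.log_pos (by linarith)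
  have hrp : ∀ x : ℝ, T ^ x = Real.exp (x * L) := fun x => by
    rw [Real.rpow_def_of_pos hT0, mul_comm]
  have hcT : c ≤ Real.exp (κ / 4 * L) :=
    const_le (by positivity) (by linarith) (((le_max_left _ _).trans (le_max_right _ _)).trans hT)
  have hcT₁ : c₁ ≤ Real.exp (κ / 4 * L) :=
    const_le (by positivity) hc₁0 (((le_max_right _ _).trans (le_max_right _ _)).trans hT)
  have hR := hT₁ T hTT
  have hmulL : ∀ x y : ℝ, x ≤ y → x * L ≤ y * L := fun x y h => mul_le_mul_of_nonneg_right h hL0.le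
  have hκ₁ : 2 / Real.cosh (A' / (3 - 1 / 2)) ≤ κ / 8 := by
    rw [show (3 : ℝ) - 1 / 2 = 5 / 2 by norm_num]
    exact kappa_small (by norm_num) (by positivity) hA'2
  have hζ : ∀ w : ℂ, 1 / 2 ≤ w.re → |w.im - T| ≤ A' / 2 → ‖riemannZeta w‖ ≤ Real.exp (κ / 2 * L) := by
    intro w hw1 hw2
    rcases le_total w.re 3 with h3 | h3
    · have h := local_max (f := riemannZeta) (a := 1 / 2) (b := 3) (T := T) (A := A') (P := 2 * L) (p := κ / 4 * L)
        (by norm_num) hA'0 (by positivity) (by positivity)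
        (fun s hs => hR.an s ⟨by linarith [hs.1], by linarith [hs.2.1], hs.2.2⟩)
        (fun s hs => hR.growth s ⟨by linarith [hs.1], by linarith [hs.2.1], hs.2.2⟩)
        (by
          intro s hs hre
          have h1 := hz s.im hs.2.2
          have e : (1 / 2 + (s.im : ℂ) * I) = s := by
            apply Complex.ext <;> simp [hre]
          rwa [e, hrp] at h1)
        (by
          intro s hs hre
          exact (hc s hre.ge).1.trans hcT) (s := w) ⟨hw1, h3, hw2⟩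
      refine h.trans (Real.exp_le_exp.2 ?_)
      have h4 : 2 / Real.cosh (A' / (3 - 1 / 2)) * (2 * L) ≤ κ / 8 * (2 * L) := by gcongr
      linarith
    · exact (hc w h3).1.trans (hcT.trans (Real.exp_le_exp.2 (hmulL _ _ (by linarith))))
  have hz2' := abs_le.1 hz2
  have hb := Dz_bound m (s := z) (r := d / 2) (M := Real.exp (κ / 2 * L)) (by positivity)
    (by linarith [hz2'.1]) (fun w hw => by
      rw [mem_closedBall, dist_eq_norm] at hw
      have e1 := abs_le.1 ((Complex.abs_re_le_norm (w - z)).trans hw)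
      have e2 := abs_le.1 ((Complex.abs_im_le_norm (w - z)).trans hw)
      rw [Complex.sub_re] at e1
      rw [Complex.sub_im] at e2
      exact hζ w (by linarith [e1.1]) (abs_le.2 ⟨by linarith [e2.1, hz2'.1], by linarith [e2.2, hz2'.2]⟩))
  refine hb.trans ?_
  have e : (m.factorial : ℝ) * Real.exp (κ / 2 * L) / (d / 2) ^ m = c₁ * Real.exp (κ / 2 * L) := by
    rw [hc₁]; ring
  rw [e, hrp]
  calc c₁ * Real.exp (κ / 2 * L) ≤ Real.exp (κ / 4 * L) * Real.exp (κ / 2 * L) := by gcongr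
    _ = Real.exp ((3 / 4 * κ) * L) := by rw [← Real.exp_add]; congr 1; ring
    _ ≤ Real.exp (κ * L) := Real.exp_le_exp.2 (hmulL _ _ (by linarith))

/-- the family `a_T` of equations is admissible: small coefficients, and no solution far to the right -/
def Adms (m n : ℕ) (H : ℝ) (a : ℝ → ℕ → ℂ → ℂ) : Prop :=
  ∀ δ A : ℝ, 0 < δ → 0 < A → ∃ T₀ : ℝ, ∀ T : ℝ, T₀ ≤ T →
    (∀ j < n, ∀ s : ℂ, 1 / 2 ≤ s.re → s.re ≤ 2 * H + 2 → |s.im - T| ≤ A →
      AnalyticAt ℂ (a T j) s ∧ ‖a T j s‖ ≤ T ^ δ) ∧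
    (∀ s : ℂ, H ≤ s.re → s.re ≤ H + 2 → |s.im - T| ≤ A → T ^ (-δ) ≤ ‖Eqn m n (a T) s‖)

/-- the equations have `o(log T)` solutions to the right of the critical line near the height `T` -/
def FewSol (m n : ℕ) (H : ℝ) (a : ℝ → ℕ → ℂ → ℂ) : Prop :=
  ∀ d δ A : ℝ, 0 < d → 0 < δ → 0 < A → ∃ T₀ : ℝ, ∀ T : ℝ, T₀ ≤ T → ∀ S : Finset ℂ,
    (∀ z ∈ S, 1 / 2 + d ≤ z.re ∧ z.re ≤ 2 * H + 3 / 2 - d ∧ |z.im - T| ≤ A ∧ Eqn m n (a T) z = 0) →
    ∑ z ∈ S, (analyticOrderNatAt (Eqn m n (a T)) z : ℝ) ≤ δ * Real.log T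

/-- LH in the form needed -/
lemma LH_local (h : LH) (δ A : ℝ) (hδ : 0 < δ) (hA : 0 < A) : ∃ T₀ : ℝ, ∀ T : ℝ, T₀ ≤ T → ∀ t : ℝ, |t - T| ≤ A →
    ‖riemannZeta (1 / 2 + t * I)‖ ≤ T ^ δ := by
  obtain ⟨C, hC⟩ := h (δ / 2) (by positivity)
  refine ⟨max (A + 2) (Real.exp (Real.log ((|C| + 1) * 2 ^ (δ / 2)) / (δ / 2))), fun T hT t ht => ?_⟩
  have hTA : A + 2 ≤ T := (le_max_left _ _).trans hT
  have hT0 : 0 < T := by linarith
  have h2 := const_le (show 0 < δ / 2 by positivity) (show 0 < (|C| + 1) * 2 ^ (δ / 2) by positivity)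
    ((le_max_right _ _).trans hT)
  refine (hC t).trans ?_
  have ht' := abs_le.1 ht
  have h3 : 1 + |t| ≤ 2 * T := by
    have : |t| ≤ T + A := by rw [abs_le]; constructor <;> linarith [ht'.1, ht'.2]
    linarith
  have h4 : (1 + |t|) ^ (δ / 2) ≤ 2 ^ (δ / 2) * T ^ (δ / 2) := by
    rw [← Real.mul_rpow (by norm_num) hT0.le]
    exact Real.rpow_le_rpow (by positivity) h3 (by positivity)
  have h5 : T ^ (δ / 2) = Real.exp (δ / 2 * Real.log T) := by
    rw [Real.rpow_def_of_pos hT0, mul_comm]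
  calc C * (1 + |t|) ^ (δ / 2) ≤ (|C| + 1) * (2 ^ (δ / 2) * T ^ (δ / 2)) := by
        have : C ≤ |C| + 1 := by linarith [le_abs_self C]
        have h6 : 0 ≤ (1 + |t|) ^ (δ / 2) := by positivity
        calc C * (1 + |t|) ^ (δ / 2) ≤ (|C| + 1) * (1 + |t|) ^ (δ / 2) := by gcongr
          _ ≤ _ := by gcongr
    _ = ((|C| + 1) * 2 ^ (δ / 2)) * T ^ (δ / 2) := by ring
    _ ≤ Real.exp (δ / 2 * Real.log T) * T ^ (δ / 2) := by gcongr
    _ = T ^ δ := by
      rw [← h5, ← Real.rpow_add hT0]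
      congr 1
      ring

/-- **The criterion.** -/
theorem LH_iff_few (m n : ℕ) (hn : 1 ≤ n) (H : ℝ) (hH : 3 ≤ H) (a : ℝ → ℕ → ℂ → ℂ) (ha : Adms m n H a) :
    LH ↔ FewSol m n H a := by
  constructor
  · intro h d δ A hd hδ hA
    wlog hd1 : d ≤ 1 / 24 generalizing d
    · obtain ⟨T₀, hT₀⟩ := this (1 / 24) (by norm_num) le_rfl
      push Not at hd1
      refine ⟨T₀, fun T hT S hS => hT₀ T hT S fun z hz => ?_⟩
      obtain ⟨h1, h2, h3, h4⟩ := hS z hz
      exact ⟨by linarith, by linarith, h3, h4⟩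
    obtain ⟨ν, hν, hfew⟩ := few_of_small δ d H A hδ hd hd1 hH hA
    have hn0 : (0 : ℝ) ≤ n := by positivity
    set κ : ℝ := ν / (2 * (n + 1)) with hκ
    have hκ0 : 0 < κ := by positivity
    have hκν : κ ≤ ν := by
      rw [hκ, div_le_iff₀ (by positivity)]
      nlinarith
    obtain ⟨δ₁, A₁, T₁, hδ₁, hA₁, hsm⟩ := Dz_small m κ d H (A + H + 1) hκ0 hd hd1 (by linarith)
    obtain ⟨T₂, hT₂⟩ := LH_local h δ₁ A₁ hδ₁ hA₁
    obtain ⟨T₃, hT₃⟩ := ha κ (A + H + 1) hκ0 (by linarith)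
    refine ⟨max (max T₁ T₂) (max (max T₃ (A + H + 20)) (Real.exp (Real.log (n + 1) / (ν / 2)))), fun T hT S hS => ?_⟩
    have hTT1 : T₁ ≤ T := ((le_max_left _ _).trans (le_max_left _ _)).trans hT
    have hTT2 : T₂ ≤ T := ((le_max_right _ _).trans (le_max_left _ _)).trans hT
    have hTT3 : T₃ ≤ T := (((le_max_left _ _).trans (le_max_left _ _)).trans (le_max_right _ _)).trans hT
    have hTA : A + H + 20 ≤ T := (((le_max_right _ _).trans (le_max_left _ _)).trans (le_max_right _ _)).trans hT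
    have hT0 : 0 < T := by linarith
    have hTn : (n : ℝ) + 1 ≤ Real.exp (ν / 2 * Real.log T) :=
      const_le (by positivity) (by linarith) (((le_max_right _ _).trans (le_max_right _ _)).trans hT)
    have hL0 : 0 < Real.log T := Real.log_pos (by linarith)
    have hrp : ∀ x : ℝ, T ^ x = Real.exp (x * Real.log T) := fun x => by
      rw [Real.rpow_def_of_pos hT0, mul_comm]
    obtain ⟨ha1, ha2⟩ := hT₃ T hTT3
    have hD := hsm T hTT1 (hT₂ T hTT2)
    refine hfew (Real.log T) hL0.le (Eqn m n (a T)) T (fun z h1 h2 h3 => ⟨?_, ?_⟩) (fun z h1 h2 => ?_) S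
      (fun z hz => ⟨(hS z hz).1, (hS z hz).2.1, (hS z hz).2.2.1⟩)
    · have h4 := abs_le.1 h3
      exact Eqn_an m n (by linarith [h4.1]) fun j hj => (ha1 j hj z (by linarith) h2 h3).1
    · have hT1κ : 1 ≤ T ^ κ := Real.one_le_rpow (by linarith) hκ0.le
      refine (Eqn_norm m n hT1κ hT1κ (hD z h1 h3) (fun j hj => (ha1 j hj z (by linarith) h2 h3).2)).trans ?_
      have e : (T ^ κ) ^ n * T ^ κ = Real.exp (ν / 2 * Real.log T) := by
        rw [← pow_succ, hrp, ← Real.exp_nat_mul]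
        congr 1
        rw [hκ]
        push_cast
        field_simp
      rw [e]
      calc ((n : ℝ) + 1) * Real.exp (ν / 2 * Real.log T)
          ≤ Real.exp (ν / 2 * Real.log T) * Real.exp (ν / 2 * Real.log T) := by gcongr
        _ = Real.exp (ν * Real.log T) := by rw [← Real.exp_add]; congr 1; ring
    · refine le_trans ?_ (ha2 z (by linarith) (by linarith) h2)
      rw [hrp]
      apply Real.exp_le_exp.2
      have := mul_le_mul_of_nonneg_right hκν hL0.le
      linarith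
  · intro h
    refine LH_of_large fun ε hε => ?_
    obtain ⟨d, δ, A, T₁, hd, hd1, hδ, hA, hT₁1, hlaw⟩ := small_functions ε hε m n hn H hH
    obtain ⟨T₂, hT₂⟩ := h d (δ / 2) A hd (by positivity) hA
    obtain ⟨T₃, hT₃⟩ := ha δ A hδ hA
    refine ⟨max T₁ (max T₂ T₃), fun T hT => ?_⟩
    have hTT1 : T₁ ≤ T := (le_max_left _ _).trans hT
    have hTT2 : T₂ ≤ T := ((le_max_left _ _).trans (le_max_right _ _)).trans hT
    have hTT3 : T₃ ≤ T := ((le_max_right _ _).trans (le_max_right _ _)).trans hT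
    by_contra hcon
    push Not at hcon
    obtain ⟨ha1, ha2⟩ := hT₃ T hTT3
    obtain ⟨S, hS1, hS2⟩ := hlaw T hTT1 hcon.le (a T) ha1 ha2
    have h1 := hT₂ T hTT2 S hS1
    have hL0 : 0 < Real.log T := Real.log_pos (by linarith)
    have : 0 < δ * Real.log T := by positivity
    linarith

end Pool.Agent.U575.MU
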