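import Pool.Agent.U575.MU.FamMom
import Pool.Agent.N879.QM.Uni

/-!
# The quadratic family near the centre
-/

set_option autoImplicit false

open Complex Set Filter Topology Metric MeasureTheory

namespace Pool.Agent.U575.MU

open Pool.Agent.H983R4.GL H855R2.SF

noncomputable section

/-- the characters of the fundamental discriminants of sign `s` and absolute value `q ≥ 2` -/
def qchars (s : ℤ) (q : ℕ) : Set (DirichletCharacter ℂ q) :=
  {χ | χ.IsPrimitive ∧ χ ^ 2 = 1 ∧ χ (-1) = (s : ℂ)}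

/-- the L-function -/
def qL {q : ℕ} (χ : DirichletCharacter ℂ q) (z : ℂ) : ℂ :=
  if h : q ≠ 0 then haveI : NeZero q := ⟨h⟩; DirichletCharacter.LFunction χ z else 0

/-- the sum over the fundamental discriminants of sign `s` and absolute value in `[2, X)` -/
def qsum (s : ℤ) (X : ℝ) (f : (q : ℕ) → DirichletCharacter ℂ q → ℝ) : ℝ :=
  ∑ q ∈ Finset.Ico 2 ⌈X⌉₊, ∑ᶠ χ ∈ qchars s q, f q χ

lemma qne_one {q : ℕ} (hq : 2 ≤ q) {χ : DirichletCharacter ℂ q} (h : χ.IsPrimitive) : χ ≠ 1 := by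
  rintro rfl
  haveI : NeZero q := ⟨by omega⟩
  have h1 : (1 : DirichletCharacter ℂ q).conductor = q := h
  rw [DirichletCharacter.conductor_one] at h1
  omega

lemma quni {s : ℤ} {q : ℕ} (hq : 2 ≤ q) {χ χ' : DirichletCharacter ℂ q} (h : χ ∈ qchars s q) (h' : χ' ∈ qchars s q) :
    χ = χ' :=
  Pool.Agent.N879.QM.t_UNI s q χ χ' (by omega) ⟨h.1, h.2.1, qne_one hq h.1, h.2.2⟩
    ⟨h'.1, h'.2.1, qne_one hq h'.1, h'.2.2⟩

lemma qsingle {s : ℤ} {q : ℕ} (hq : 2 ≤ q) {χ : DirichletCharacter ℂ q} (h : χ ∈ qchars s q)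
    (f : DirichletCharacter ℂ q → ℝ) : ∑ᶠ χ ∈ qchars s q, f χ = f χ := by
  have e : qchars s q = {χ} := by
    ext χ'
    exact ⟨fun h' => quni hq h' h, fun h' => by rw [h']; exact h⟩
  rw [e, finsum_mem_singleton]

lemma qinner_le {s : ℤ} {q : ℕ} (hq : 2 ≤ q) {f : DirichletCharacter ℂ q → ℝ} {M : ℝ} (hM : 0 ≤ M)
    (h : ∀ χ ∈ qchars s q, f χ ≤ M) : ∑ᶠ χ ∈ qchars s q, f χ ≤ M := by
  by_cases hne : (qchars s q).Nonempty
  · obtain ⟨χ, hχ⟩ := hne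
    rw [qsingle hq hχ]
    exact h χ hχ
  · rw [Set.not_nonempty_iff_eq_empty] at hne
    rw [hne, finsum_mem_empty]
    exact hM

lemma qinner_nonneg {s : ℤ} {q : ℕ} {f : DirichletCharacter ℂ q → ℝ} (h : ∀ χ, 0 ≤ f χ) :
    0 ≤ ∑ᶠ χ ∈ qchars s q, f χ :=
  finsum_nonneg fun χ => finsum_nonneg fun _ => h χ

/-- one term is at most the sum -/
lemma qterm_le {s : ℤ} {q : ℕ} (hq : 2 ≤ q) {χ : DirichletCharacter ℂ q} (hχ : χ ∈ qchars s q)
    {f : (q : ℕ) → DirichletCharacter ℂ q → ℝ} (hf : ∀ q χ, 0 ≤ f q χ) {X : ℝ} (hX : (q : ℝ) < X) :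
    f q χ ≤ qsum s X f := by
  have hmem : q ∈ Finset.Ico 2 ⌈X⌉₊ := Finset.mem_Ico.2 ⟨hq, Nat.lt_ceil.2 hX⟩
  calc f q χ = ∑ᶠ χ ∈ qchars s q, f q χ := (qsingle hq hχ _).symm
    _ ≤ _ := Finset.single_le_sum (f := fun q => ∑ᶠ χ ∈ qchars s q, f q χ)
        (fun q _ => qinner_nonneg (hf q)) hmem

/-- a bound for the sum -/
lemma qsum_le {s : ℤ} {f : (q : ℕ) → DirichletCharacter ℂ q → ℝ} {X M : ℝ} (hX : 1 ≤ X) (hM : 0 ≤ M)
    (h : ∀ q : ℕ, 2 ≤ q → (q : ℝ) < X → ∀ χ ∈ qchars s q, f q χ ≤ M) : qsum s X f ≤ X * M := by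
  unfold qsum
  have h1 : ∀ q ∈ Finset.Ico 2 ⌈X⌉₊, ∑ᶠ χ ∈ qchars s q, f q χ ≤ M := by
    intro q hq
    obtain ⟨h2, h3⟩ := Finset.mem_Ico.1 hq
    exact qinner_le h2 hM (h q h2 (Nat.lt_ceil.1 h3))
  refine (Finset.sum_le_card_nsmul _ _ _ h1).trans ?_
  rw [Nat.card_Ico, nsmul_eq_mul]
  refine mul_le_mul_of_nonneg_right ?_ hM
  have h4 : ⌈X⌉₊ - 2 ≤ ⌊X⌋₊ := by
    have := Nat.ceil_le_floor_add_one X
    omega
  calc ((⌈X⌉₊ - 2 : ℕ) : ℝ) ≤ ⌊X⌋₊ := by exact_mod_cast h4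
    _ ≤ X := Nat.floor_le (by linarith)

/-- membership in the family -/
def SQ (s : ℤ) (q : ℕ) (χ : DirichletCharacter ℂ q) : Prop := χ ^ 2 = 1 ∧ χ (-1) = (s : ℂ)

/-- the member of the family -/
def toDC {s : ℤ} {q : ℕ} (hq : 2 ≤ q) {χ : DirichletCharacter ℂ q} (h : χ ∈ qchars s q) : DC (SQ s) :=
  ⟨q, hq, χ, h.1, h.2⟩

lemma toDC_L {s : ℤ} {q : ℕ} (hq : 2 ≤ q) {χ : DirichletCharacter ℂ q} (h : χ ∈ qchars s q) (z : ℂ) :
    dirL (toDC hq h) z = qL χ z := by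
  unfold qL dirL toDC
  rw [dif_pos (by omega)]

lemma toDC_Q {s : ℤ} {q : ℕ} (hq : 2 ≤ q) {χ : DirichletCharacter ℂ q} (h : χ ∈ qchars s q) (t : ℝ) :
    dirQ (toDC hq h) t = q * (1 + |t|) := rfl

/-- **a large value survives every multiplier in all moments** -/
theorem quad_moment (s : ℤ) (ε B : ℝ) (hε : 0 < ε) :
    ∃ δ A C X₀ : ℝ, 0 < δ ∧ 0 < A ∧ 0 < C ∧ 1 < X₀ ∧ ∀ q : ℕ, 2 ≤ q → ∀ χ ∈ qchars s q, ∀ T : ℝ,
      X₀ ≤ q * (1 + |T|) → ((q : ℝ) * (1 + |T|)) ^ ε ≤ ‖qL χ (1 / 2 + T * I)‖ →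
      ∀ G : ℂ → ℂ, MulY G T (q * (1 + |T|)) A B δ → ∀ r : ℝ, 0 < r →
        ((q : ℝ) * (1 + |T|)) ^ (r * δ - C) ≤
          ∫ t in (T - A)..(T + A), ‖qL χ (1 / 2 + t * I) * G (1 / 2 + t * I)‖ ^ r := by
  obtain ⟨δ, A, C, X₀, h1, h2, h3, h4, h⟩ := fam_moment (dir_famX (SQ s)) ε B hε
  refine ⟨δ, A, C, X₀, h1, h2, h3, h4, fun q hq χ hχ T hT hz G hG r hr => ?_⟩
  have := h (toDC hq hχ) T (by rw [toDC_Q]; exact hT) (by rw [toDC_Q, toDC_L]; exact hz) G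
    (by rw [toDC_Q]; exact hG) r hr
  simp only [toDC_Q, toDC_L] at this
  exact this

/-- Lindelöf near the centre -/
def QLH (s : ℤ) : Prop := ∀ A ε : ℝ, 0 < A → 0 < ε → ∃ C : ℝ, ∀ q : ℕ, 2 ≤ q → ∀ χ ∈ qchars s q, ∀ t : ℝ, |t| ≤ A →
  ‖qL χ (1 / 2 + t * I)‖ ≤ C * (q : ℝ) ^ ε

/-- moments near the centre -/
def QMom (s : ℤ) : Prop := ∀ (A ε : ℝ) (k : ℕ), 0 < A → 0 < ε → ∃ C : ℝ, ∀ X : ℝ, 1 ≤ X →
  qsum s X (fun _ χ => ∫ t in (-A)..A, ‖qL χ (1 / 2 + t * I)‖ ^ (2 * k)) ≤ C * X ^ (1 + ε)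

/-- mollified moments near the centre -/
def QMoll (s : ℤ) : Prop := ∃ B : ℝ, ∀ A η : ℝ, 0 < A → 0 < η → ∃ k : ℕ, 1 / η ≤ k ∧ ∃ X₀ : ℝ, ∀ X : ℝ, X₀ ≤ X →
  ∃ (N : ℕ → ℕ) (b : ℕ → ℕ → ℂ), (∀ q, 2 ≤ q → 1 ≤ N q ∧ (N q : ℝ) ≤ (q : ℝ) ^ B ∧ b q 1 = 1 ∧ ∀ n, ‖b q n‖ ≤ n) ∧
    qsum s X (fun q χ => ∫ t in (-A)..A, ‖qL χ (1 / 2 + t * I) * dpol (N q) (b q) (1 / 2 + t * I)‖ ^ (2 * k)) ≤
      X ^ (η * k)

/-- central moments -/
def QCen (s : ℤ) : Prop := ∀ (ε : ℝ) (k : ℕ), 0 < ε → ∃ C : ℝ, ∀ X : ℝ, 1 ≤ X →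
  qsum s X (fun _ χ => ‖qL χ (1 / 2)‖ ^ k) ≤ C * X ^ (1 + ε)

lemma rpow_small {C ε : ℝ} (k : ℕ) (hε : 0 < ε) (hC : 0 ≤ C) {q : ℕ} (hq : 2 ≤ q) {X : ℝ} (hX : (q : ℝ) < X)
    {x : ℝ} (hx0 : 0 ≤ x) (hx : x ≤ C * (q : ℝ) ^ (ε / (k + 1))) : x ^ k ≤ C ^ k * X ^ ε := by
  have hq1 : (1 : ℝ) ≤ q := by exact_mod_cast (by omega : 1 ≤ q)
  have hX0 : 0 < X := by linarith
  have h1 : (q : ℝ) ^ (ε / (k + 1)) ≤ X ^ (ε / (k + 1)) := Real.rpow_le_rpow (by positivity) hX.le (by positivity)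
  calc x ^ k ≤ (C * X ^ (ε / (k + 1))) ^ k := by
        gcongr
        exact hx.trans (by gcongr)
    _ = C ^ k * X ^ (ε / (k + 1) * k) := by
        rw [mul_pow, ← Real.rpow_natCast (X ^ (ε / (k + 1))) k, ← Real.rpow_mul hX0.le]
    _ ≤ C ^ k * X ^ ε := by
        gcongr
        · linarith
        · rw [div_mul_eq_mul_div, div_le_iff₀ (by positivity)]
          nlinarith

theorem QLH.mom {s : ℤ} (h : QLH s) : QMom s := by
  intro A ε k hA hε
  obtain ⟨C, hC⟩ := h A (ε / ((2 * k : ℕ) + 1)) hA (by positivity)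
  refine ⟨2 * A * |C| ^ (2 * k), fun X hX => ?_⟩
  have hX0 : 0 < X := by linarith
  have h1 := qsum_le (s := s) (f := fun _ χ => ∫ t in (-A)..A, ‖qL χ (1 / 2 + t * I)‖ ^ (2 * k)) (X := X)
    (M := 2 * A * (|C| ^ (2 * k) * X ^ ε)) hX (by positivity) (fun q hq hqX χ hχ => by
      have h2 : ∀ t ∈ Set.uIoc (-A) A, ‖‖qL χ (1 / 2 + t * I)‖ ^ (2 * k)‖ ≤ |C| ^ (2 * k) * X ^ ε := by
        intro t ht
        rw [Set.uIoc_of_le (by linarith)] at ht
        rw [Real.norm_of_nonneg (by positivity)]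
        refine rpow_small (2 * k) hε (abs_nonneg C) hq hqX (norm_nonneg _) ?_
        refine (hC q hq χ hχ t (abs_le.2 ⟨ht.1.le, ht.2⟩)).trans ?_
        gcongr
        exact le_abs_self C
      have h3 := intervalIntegral.norm_integral_le_of_norm_le_const h2
      refine (le_abs_self _).trans (h3.trans (le_of_eq ?_))
      have e : |A - -A| = 2 * A := by rw [abs_of_nonneg (by linarith)]; ring
      rw [e]
      ring)
  refine h1.trans (le_of_eq ?_)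
  rw [Real.rpow_add hX0, Real.rpow_one]
  ring

theorem QLH.cen {s : ℤ} (h : QLH s) : QCen s := by
  intro ε k hε
  obtain ⟨C, hC⟩ := h 1 (ε / (k + 1)) one_pos (by positivity)
  refine ⟨|C| ^ k, fun X hX => ?_⟩
  have hX0 : 0 < X := by linarith
  have h1 := qsum_le (s := s) (f := fun _ χ => ‖qL χ (1 / 2)‖ ^ k) (X := X)
    (M := |C| ^ k * X ^ ε) hX (by positivity) (fun q hq hqX χ hχ => by
      refine rpow_small k hε (abs_nonneg C) hq hqX (norm_nonneg _) ?_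
      have h2 := hC q hq χ hχ 0 (by simp)
      simp only [ofReal_zero, zero_mul, add_zero] at h2
      refine h2.trans ?_
      gcongr
      exact le_abs_self C)
  refine h1.trans (le_of_eq ?_)
  rw [Real.rpow_add hX0, Real.rpow_one]
  ring

theorem QMom.moll {s : ℤ} (h : QMom s) : QMoll s := by
  refine ⟨0, fun A η hA hη => ?_⟩
  obtain ⟨k, hk⟩ := exists_nat_ge (3 / η)
  have hk1 : 3 ≤ k * η := by rwa [div_le_iff₀ hη] at hk
  obtain ⟨C, hC⟩ := h A 1 k hA one_pos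
  refine ⟨k, (by gcongr; norm_num : 1 / η ≤ 3 / η).trans hk, max 1 (|C| + 1), fun X hX => ?_⟩
  have hX1 : 1 ≤ X := (le_max_left _ _).trans hX
  have hXC : |C| + 1 ≤ X := (le_max_right _ _).trans hX
  have hX0 : 0 < X := by linarith
  refine ⟨fun _ => 1, fun _ n => if n = 1 then 1 else 0, fun q hq => ⟨le_rfl, by simp, by simp, fun n => ?_⟩, ?_⟩
  · by_cases hn : n = 1
    · simp [hn]
    · simp [hn]
  · have e : ∀ z : ℂ, dpol 1 (fun n => if n = 1 then (1 : ℂ) else 0) z = 1 := by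
      intro z
      unfold dpol
      simp
    have h1 := hC X hX1
    simp only [e, mul_one]
    refine h1.trans ?_
    calc C * X ^ (1 + 1 : ℝ) ≤ X * X ^ (2 : ℝ) := by
          have : C ≤ X := by linarith [le_abs_self C]
          norm_num
          gcongr
      _ = X ^ (3 : ℝ) := by
          nth_rewrite 1 [← Real.rpow_one X]
          rw [← Real.rpow_add hX0]
          norm_num
      _ ≤ X ^ (η * k) := Real.rpow_le_rpow_of_exponent_le hX1 (by linarith)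

theorem QMoll.lh {s : ℤ} (h : QMoll s) : QLH s := by
  obtain ⟨B, hB⟩ := h
  intro A ε hA hε
  set B' : ℝ := max B 0 with hB'
  have hB'0 : 0 ≤ B' := le_max_right _ _
  obtain ⟨δ, A', C', Y₀, hδ, hA', hC', hY₀, hlaw⟩ := quad_moment s ε (2 * B') hε
  obtain ⟨η, hηdef⟩ : ∃ η : ℝ, η = min (δ / 2) (δ / (C' + 1)) := ⟨_, rfl⟩
  have hη0 : 0 < η := by rw [hηdef]; exact lt_min (by positivity) (by positivity)
  have hη1 : η ≤ δ / 2 := by rw [hηdef]; exact min_le_left _ _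
  have hη2 : η ≤ δ / (C' + 1) := by rw [hηdef]; exact min_le_right _ _
  obtain ⟨k, hk, X₀, hX₀⟩ := hB (A + A') η (by positivity) hη0
  obtain ⟨C₁, hC₁, hcr⟩ := Pool.Agent.H983R4.GL.crude (dir_afam (SQ s))
  obtain ⟨Y₁, hY₁⟩ : ∃ Y₁ : ℝ, Y₁ = max (max Y₀ (|X₀| * (1 + A))) (max (Real.exp (Real.log 4 / δ)) 2) := ⟨_, rfl⟩
  have hY₁2 : 2 ≤ Y₁ := by rw [hY₁]; exact (le_max_right _ _).trans (le_max_right _ _)
  have hkC : C' + 1 ≤ k * δ := by
    have h1 : (C' + 1) / δ ≤ 1 / η := by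
      rw [div_le_div_iff₀ hδ hη0]
      rw [le_div_iff₀ (by positivity)] at hη2
      linarith
    have h2 := h1.trans hk
    rwa [div_le_iff₀ hδ] at h2
  have hk0 : (0 : ℝ) < k := by
    by_contra hcon
    push Not at hcon
    have : (k : ℝ) * δ ≤ 0 := mul_nonpos_of_nonpos_of_nonneg hcon hδ.le
    linarith
  refine ⟨(1 + A) ^ ε + C₁ * Y₁, fun q hq χ hχ t₀ ht₀ => ?_⟩
  have hq1 : (1 : ℝ) ≤ q := by exact_mod_cast (by omega : 1 ≤ q)
  have hq2 : (2 : ℝ) ≤ q := by exact_mod_cast hq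
  obtain ⟨Y, hY⟩ : ∃ Y : ℝ, Y = (q : ℝ) * (1 + |t₀|) := ⟨_, rfl⟩
  have habs : 0 ≤ |t₀| := abs_nonneg t₀
  have hqY : (q : ℝ) ≤ Y := by rw [hY]; nlinarith
  have hYq : Y ≤ q * (1 + A) := by rw [hY]; gcongr
  have hY1 : 1 ≤ Y := hq1.trans hqY
  have hY0 : 0 < Y := by linarith
  have hqe : 1 ≤ (q : ℝ) ^ ε := Real.one_le_rpow hq1 hε.le
  rcases le_or_gt Y Y₁ with hle | hgt
  · have h1 := hcr (toDC hq hχ) (1 / 2 + t₀ * I) (by simp; norm_num)
    rw [toDC_L] at h1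
    have h2 : ((1 / 2 : ℂ) + t₀ * I).im = t₀ := by simp
    rw [h2, toDC_Q, ← hY] at h1
    calc ‖qL χ (1 / 2 + t₀ * I)‖ ≤ C₁ * Y := h1
      _ ≤ (C₁ * Y₁) * 1 := by rw [mul_one]; gcongr
      _ ≤ ((1 + A) ^ ε + C₁ * Y₁) * (q : ℝ) ^ ε := by
          have h3 : 0 ≤ (1 + A) ^ ε := by positivity
          have h4 : 0 ≤ C₁ * Y₁ := by positivity
          gcongr
          linarith
  · have hYY₀ : Y₀ ≤ Y := by
      have : Y₀ ≤ Y₁ := by rw [hY₁]; exact (le_max_left _ _).trans (le_max_left _ _)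
      linarith
    have hYX : |X₀| * (1 + A) ≤ Y := by
      have : |X₀| * (1 + A) ≤ Y₁ := by rw [hY₁]; exact (le_max_right _ _).trans (le_max_left _ _)
      linarith
    have hY4 : Real.exp (Real.log 4 / δ) ≤ Y := by
      have : Real.exp (Real.log 4 / δ) ≤ Y₁ := by rw [hY₁]; exact (le_max_left _ _).trans (le_max_right _ _)
      linarith
    have h4 : (4 : ℝ) ≤ Y ^ δ := const_le_rpow hδ (by norm_num) hY4
    have hX₀q : X₀ ≤ q := by
      have h5 : |X₀| * (1 + A) ≤ q * (1 + A) := hYX.trans hYq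
      have h6 : |X₀| ≤ q := le_of_mul_le_mul_right h5 (by linarith)
      exact (le_abs_self _).trans h6
    have hsmall : ‖qL χ (1 / 2 + t₀ * I)‖ ≤ Y ^ ε := by
      by_contra hcon
      push Not at hcon
      obtain ⟨N, b, hNb, hsum⟩ := hX₀ (q + 1) (by linarith)
      obtain ⟨hN1, hN2, hb1, hb2⟩ := hNb q hq
      have hN3 : (N q : ℝ) ≤ Y ^ B' := by
        calc (N q : ℝ) ≤ (q : ℝ) ^ B := hN2
          _ ≤ (q : ℝ) ^ B' := Real.rpow_le_rpow_of_exponent_le hq1 (le_max_left _ _)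
          _ ≤ Y ^ B' := Real.rpow_le_rpow (by linarith) hqY hB'0
      have hG : MulY (dpol (N q) (b q)) t₀ Y A' (2 * B') δ := by
        refine ⟨fun z h1 _ _ => ⟨(dpol_diff _ _).analyticAt z, ?_⟩, fun z h1 _ _ => ?_⟩
        · have h5 : ‖dpol (N q) (b q) z‖ ≤ (N q : ℝ) ^ 2 := by
            unfold dpol
            refine (norm_sum_le _ _).trans ?_
            have h1 : ∀ n ∈ Finset.Icc 1 (N q), ‖b q n * (n : ℂ) ^ (-z)‖ ≤ N q := by
              intro n hn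
              obtain ⟨h2, h3⟩ := Finset.mem_Icc.1 hn
              have hn0 : (1 : ℝ) ≤ n := by exact_mod_cast h2
              rw [norm_mul, norm_term n h2]
              have h4 : (n : ℝ) ^ (-z.re) ≤ 1 := by
                rw [← Real.rpow_zero (n : ℝ)]
                exact Real.rpow_le_rpow_of_exponent_le hn0 (by linarith)
              calc ‖b q n‖ * (n : ℝ) ^ (-z.re) ≤ (n : ℝ) * 1 := by gcongr; exact hb2 n
                _ ≤ N q := by rw [mul_one]; exact_mod_cast h3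
            refine (Finset.sum_le_sum h1).trans ?_
            rw [Finset.sum_const, Nat.card_Icc, nsmul_eq_mul, add_tsub_cancel_right, sq]
          refine h5.trans ?_
          calc (N q : ℝ) ^ 2 ≤ (Y ^ B') ^ 2 := by gcongr
            _ = Y ^ (2 * B') := by
              rw [← Real.rpow_natCast (Y ^ B') 2, ← Real.rpow_mul hY0.le]
              congr 1
              push_cast
              ring
        · obtain ⟨h2, h3⟩ := dpol_right (N q) hN1 (b q) hb1 hb2 h1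
          refine ⟨le_trans ?_ h2, by linarith⟩
          rw [Real.rpow_neg hY0.le, one_div]
          exact inv_anti₀ (by norm_num) h4
      have hm := hlaw q hq χ hχ t₀ (by rw [← hY]; exact hYY₀) (by rw [← hY]; exact hcon.le) (dpol (N q) (b q))
        (by rw [← hY]; exact hG) ((2 * k : ℕ) : ℝ) (by push_cast; positivity)
      rw [← hY] at hm
      simp only [Real.rpow_natCast] at hm
      have ht' := abs_le.1 ht₀
      have hcont : Continuous fun t : ℝ => ‖qL χ (1 / 2 + t * I) * dpol (N q) (b q) (1 / 2 + t * I)‖ ^ (2 * k) := by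
        have h1 : Continuous fun z : ℂ => qL χ z := by
          have e : (fun z : ℂ => qL χ z) = dirL (toDC hq hχ) := by
            funext z; rw [toDC_L]
          rw [e]
          exact ((dir_afam (SQ s)).diff _).continuous
        have h2 : Continuous fun z : ℂ => dpol (N q) (b q) z := (dpol_diff _ _).continuous
        have h3 : Continuous fun t : ℝ => ((1 / 2 : ℂ) + t * I) := by fun_prop
        exact ((h1.comp h3).mul (h2.comp h3)).norm.pow _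
      have hmono : ∫ t in (t₀ - A')..(t₀ + A'), ‖qL χ (1 / 2 + t * I) * dpol (N q) (b q) (1 / 2 + t * I)‖ ^ (2 * k) ≤
          ∫ t in (-(A + A'))..(A + A'), ‖qL χ (1 / 2 + t * I) * dpol (N q) (b q) (1 / 2 + t * I)‖ ^ (2 * k) :=
        intervalIntegral.integral_mono_interval (by linarith [ht'.1]) (by linarith) (by linarith [ht'.2])
          (Eventually.of_forall fun t => by positivity) (hcont.intervalIntegrable _ _)
      have hterm := qterm_le (s := s) hq hχ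
        (f := fun q χ => ∫ t in (-(A + A'))..(A + A'), ‖qL χ (1 / 2 + t * I) * dpol (N q) (b q) (1 / 2 + t * I)‖ ^ (2 * k))
        (fun q χ => intervalIntegral.integral_nonneg (by linarith) fun t _ => by positivity) (X := q + 1) (by linarith)
      have hall := hm.trans (hmono.trans (hterm.trans hsum))
      have h7 : ((q : ℝ) + 1) ^ (η * k) ≤ Y ^ (2 * (η * k)) := by
        have h8 : (q : ℝ) + 1 ≤ Y ^ 2 := by nlinarith
        calc ((q : ℝ) + 1) ^ (η * k) ≤ (Y ^ 2) ^ (η * k) := Real.rpow_le_rpow (by linarith) h8 (by positivity)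
          _ = Y ^ (2 * (η * k)) := by
            rw [← Real.rpow_natCast Y 2, ← Real.rpow_mul hY0.le]
            norm_num
      have h9 : Y ^ (2 * (η * k)) < Y ^ (((2 * k : ℕ) : ℝ) * δ - C') := by
        apply Real.rpow_lt_rpow_of_exponent_lt (by linarith)
        push_cast
        have h10 : 2 * (η * k) ≤ δ * k := by
          have : η * k ≤ δ / 2 * k := by gcongr
          linarith
        nlinarith
      linarith
    calc ‖qL χ (1 / 2 + t₀ * I)‖ ≤ Y ^ ε := hsmall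
      _ ≤ (q * (1 + A)) ^ ε := Real.rpow_le_rpow hY0.le hYq hε.le
      _ = (1 + A) ^ ε * (q : ℝ) ^ ε := by rw [Real.mul_rpow (by linarith) (by linarith), mul_comm]
      _ ≤ _ := by
        have h4 : 0 ≤ C₁ * Y₁ := by positivity
        gcongr
        linarith

end

end Pool.Agent.U575.MU
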